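import Mathlib
import Pool.Agent.TH882.D2
import Pool.Agent.TH882.MtE

/-!
# Many primes among the values of an admissible set of shifts, all values rough

The Maynard-Tao theorem with the right order of magnitude (`Pool.Agent.TH882.MtE`, helper882),
summed over the classes.
-/

set_option autoImplicit false

open Finset Filter Topology

namespace Pool.Agent.TH779.BS

open Pool.Agent.H361R2.PP
open Pool.Agent.W70.HR
open Pool.Agent.TH882.UB
open Pool.Agent.TH882.HE
open Pool.Agent.TH882.DD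

/-- the shifts avoid a class modulo every prime -/
def Admis (H : Finset ℕ) : Prop := ∀ p : ℕ, p.Prime → ∃ b : ℕ, ∀ h ∈ H, ¬ p ∣ b + h

lemma base_cl (H : Finset ℕ) (w0 : ℕ) (h : Admis H) :
    ∃ b0 : ℕ, ∀ u ∈ H, (b0 + (u + 1)).Coprime (primorial w0) := by
  classical
  choose! b hb using h
  obtain ⟨N, -, hN⟩ := crt ∅ ((range (w0 + 1)).filter Nat.Prime) (by simp)
    (fun p hp => (mem_filter.1 hp).2) (disjoint_empty_left _) 0 (fun l => b l + (l - 1))
  refine ⟨N, fun u hu => ?_⟩
  rw [Nat.coprime_iff_gcd_eq_one]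
  by_contra hne
  obtain ⟨p, hp, hpd⟩ := Nat.exists_prime_and_dvd hne
  have h1 : p ∣ N + (u + 1) := hpd.trans (Nat.gcd_dvd_left _ _)
  have h2 : p ∣ primorial w0 := hpd.trans (Nat.gcd_dvd_right _ _)
  have h3 : p ≤ w0 := hp.dvd_primorial_iff.1 h2
  have h4 := hN p (mem_filter.2 ⟨mem_range.2 (by omega), hp⟩)
  have h5 : N ≡ b p + (p - 1) [MOD p] := h4
  have h6 : N + (u + 1) ≡ b p + (p - 1) + (u + 1) [MOD p] := h5.add_right _
  have h7 : b p + (p - 1) + (u + 1) = (b p + u) + p := by
    have := hp.one_lt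
    omega
  rw [h7] at h6
  have h8 : p ∣ (b p + u) + p := (h6.dvd_iff dvd_rfl).1 h1
  exact hb p hp u hu ((Nat.dvd_add_left dvd_rfl).1 h8)

/-- primes at least `2 ^ 2 ^ JJ` are large -/
lemma pow_J {δ : ℝ} (hδ : 0 < δ) {X p J : ℕ} (hX : 2 ≤ X) (hJ : 2 / δ ≤ J)
    (hp : 2 ^ 2 ^ JJ δ X ≤ p) : X < p ^ J := by
  set y : ℕ := ⌊(X : ℝ) ^ δ⌋₊ with hy
  have hX1 : (1 : ℝ) < X := by exact_mod_cast (by omega : 1 < X)
  have h1 : y < p ^ 2 := by
    have e1 : Nat.log 2 y < 2 ^ (JJ δ X + 1) := by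
      unfold JJ
      exact Nat.lt_pow_succ_log_self (by norm_num) _
    have e2 : y < 2 ^ (Nat.log 2 y + 1) := Nat.lt_pow_succ_log_self (by norm_num) _
    calc y < 2 ^ (Nat.log 2 y + 1) := e2
      _ ≤ 2 ^ 2 ^ (JJ δ X + 1) := Nat.pow_le_pow_right (by norm_num) e1
      _ = (2 ^ 2 ^ JJ δ X) ^ 2 := by rw [← pow_mul, pow_succ]
      _ ≤ p ^ 2 := Nat.pow_le_pow_left hp 2
  have h2 : (X : ℝ) ^ δ < (p : ℝ) ^ 2 := by
    have e1 : (X : ℝ) ^ δ < y + 1 := Nat.lt_floor_add_one _
    have e2 : ((y + 1 : ℕ) : ℝ) ≤ ((p ^ 2 : ℕ) : ℝ) := by exact_mod_cast h1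
    push_cast at e2
    linarith
  have hp0 : (0 : ℝ) < p := by
    have : 0 < p := lt_of_lt_of_le (by positivity) hp
    exact_mod_cast this
  have hp1 : (1 : ℝ) ≤ p := by
    have : 1 ≤ p := le_trans Nat.one_le_two_pow hp
    exact_mod_cast this
  have h3 : (X : ℝ) < (p : ℝ) ^ (2 / δ) := by
    have e1 : ((X : ℝ) ^ δ) ^ (1 / δ) < ((p : ℝ) ^ 2) ^ (1 / δ) :=
      Real.rpow_lt_rpow (by positivity) h2 (by positivity)
    rw [← Real.rpow_mul (by positivity), mul_one_div_cancel hδ.ne', Real.rpow_one] at e1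
    rw [← Real.rpow_natCast, ← Real.rpow_mul hp0.le] at e1
    convert e1 using 2
    push_cast
    ring
  have h4 : (X : ℝ) < (p : ℝ) ^ J := by
    rw [← Real.rpow_natCast]
    exact h3.trans_le (Real.rpow_le_rpow_of_exponent_le hp1 hJ)
  exact_mod_cast h4

open Classical in
/-- **Maynard-Tao, right order of magnitude, all positions rough** -/
theorem mt_lower (m : ℕ) : ∃ K : ℕ, ∀ H : Finset ℕ, H.card = K → Admis H →
    ∃ (J : ℕ) (c : ℝ), 0 < c ∧ ∃ x₀ : ℕ, ∀ x : ℕ, x₀ ≤ x →
      ∃ S ⊆ Ioc x (2 * x), c * (x / (Real.log x) ^ K) ≤ (S.card : ℝ) ∧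
        ∀ n ∈ S, m ≤ (H.filter (fun h => (n + h).Prime)).card ∧
          ∀ p : ℕ, p.Prime → p ^ J ≤ x → ∀ h ∈ H, ¬ p ∣ n + h := by
  set T : ℕ := 4 * (m + 1) with hTd
  have hT1 : 1 ≤ T := by omega
  obtain ⟨K0, hK0, hmte⟩ := mte T hT1
  refine ⟨T * K0, fun H hH hadm => ?_⟩
  obtain ⟨δ, c, hδ, hδ8, hc, X1, h1⟩ := hmte 1 0 one_pos
  have hδ1 : δ ≤ 1 := by linarith
  -- the enumeration of the shifts
  set e : Fin T × Fin K0 → ℕ := fun x =>
    ((Finset.equivFin H).symm (Fin.cast hH.symm (finProdFinEquiv x))).1 with he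
  have he1 : ∀ x, e x ∈ H := fun x => Subtype.coe_prop _
  have he2 : Function.Injective e := by
    intro x y hxy
    have e1 := Subtype.ext hxy
    have e2 := (Finset.equivFin H).symm.injective e1
    have e3 := Fin.cast_injective _ e2
    exact finProdFinEquiv.injective e3
  set Hf : Fin T → Fin K0 → ℕ := fun g i => e (g, i) + 1 with hHf
  set U : Finset ℕ := H.image (fun h => h + 1) with hU
  have hUc : U.card = T * K0 := by
    rw [hU, card_image_of_injective _ (fun a b hab => by simpa using hab), hH]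
  set A0 : ℕ := U.sup id with hA0
  have hUA : ∀ u ∈ U, u ≤ A0 := fun u hu => Finset.le_sup (f := id) hu
  obtain ⟨w0, c1, hc1, X2, h2⟩ := B_lower (T * K0) A0
  obtain ⟨b0, hb0⟩ := base_cl H w0 hadm
  have hlogt : Tendsto (fun X : ℕ => Real.log (X : ℝ)) atTop atTop :=
    Real.tendsto_log_atTop.comp tendsto_natCast_atTop_atTop
  obtain ⟨X3, h3⟩ := eventually_atTop.1 (hlogt.eventually_ge_atTop ((A0 : ℝ) + 1))
  obtain ⟨c2, hc2, hmv⟩ := mv
  obtain ⟨X4, h4⟩ := hmv δ hδ hδ1
  refine ⟨⌈2 / δ⌉₊, c1 * c * c2 ^ (T * K0), by positivity, max (max X1 X2) (max (max X3 X4) 3), ?_⟩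
  intro X hX
  have hX1 : X1 ≤ X := by omega
  have hX2 : X2 ≤ X := by omega
  have hX3 : X3 ≤ X := by omega
  have hX4 : X4 ≤ X := by omega
  have hX5 : 3 ≤ X := by omega
  have hl := h3 X hX3
  have hB := h2 X hX2 U hUc hUA b0 (by
    intro u hu
    rw [hU, mem_image] at hu
    obtain ⟨h, hh, rfl⟩ := hu
    exact hb0 h hh)
  have hW0 : (0 : ℝ) < Wm X := by exact_mod_cast Pool.Agent.H361R2.PP.Wm_pos X
  have hX0 : (0 : ℝ) < X := by exact_mod_cast (by omega : 0 < X)
  have hlX : 0 < Real.log X := Real.log_pos (by exact_mod_cast (by omega : 1 < X))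
  have hHS : ∀ b ∈ BC X U, c * Om δ X (T * K0) ≤ ((HS δ X b Hf U).card : ℝ) := by
    intro b hb
    unfold BC at hb
    rw [mem_filter, mem_range] at hb
    have hUB : U ⊆ Bw 1 X b := by
      intro u hu
      unfold Bw BB
      rw [mem_filter, mem_Icc]
      refine ⟨⟨?_, ?_⟩, hb.2 u hu⟩
      · rw [hU, mem_image] at hu
        obtain ⟨h, hh, rfl⟩ := hu
        omega
      · apply Nat.le_floor
        have e1 : (u : ℝ) ≤ A0 := by exact_mod_cast hUA u hu
        rw [one_mul]
        linarith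
    have := (h1 X hX1 b hb.1).2 Hf U (fun g i => by
        rw [hU, mem_image]
        exact ⟨e (g, i), he1 _, rfl⟩)
      (fun x y hxy => by
        have : e (x.1, x.2) + 1 = e (y.1, y.2) + 1 := hxy
        exact he2 (by simpa using this)) hUB (by rw [hUc]; omega)
    rwa [hUc] at this
  have hV0 : 0 < VV δ X := (h1 X hX1 0 (Pool.Agent.H361R2.PP.Wm_pos X)).1
  set S0 : Finset ℕ := (BC X U).biUnion (fun b => HS δ X b Hf U) with hS0
  have hS0c : (S0.card : ℝ) = ∑ b ∈ BC X U, ((HS δ X b Hf U).card : ℝ) := by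
    rw [hS0, card_biUnion]
    · push_cast
      rfl
    · intro b _ b' _ hne
      rw [Function.onFun, disjoint_left]
      intro n hn hn'
      unfold HS at hn hn'
      rw [mem_filter] at hn hn'
      have e3 := hn.1
      have e4 := hn'.1
      unfold SI at e3 e4
      rw [mem_filter] at e3 e4
      exact hne (e3.2.symm.trans e4.2)
  refine ⟨S0.image (fun n => n + 1), ?_, ?_, ?_⟩
  · intro n hn
    rw [mem_image] at hn
    obtain ⟨n, hn, rfl⟩ := hn
    rw [hS0, mem_biUnion] at hn
    obtain ⟨b, hb, hn⟩ := hn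
    unfold HS at hn
    rw [mem_filter] at hn
    have e3 := hn.1
    unfold SI at e3
    rw [mem_filter, mem_Ico] at e3
    rw [mem_Ioc]
    omega
  · rw [card_image_of_injective _ (fun a b hab => by simpa using hab), hS0c]
    have hlow : ((BC X U).card : ℝ) * (c * Om δ X (T * K0)) ≤
        ∑ b ∈ BC X U, ((HS δ X b Hf U).card : ℝ) := by
      rw [← nsmul_eq_mul]
      exact card_nsmul_le_sum _ _ _ hHS
    refine le_trans ?_ hlow
    have hOm0 : 0 ≤ c * Om δ X (T * K0) := by
      unfold Om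
      positivity
    have hlow2 : c1 * c * (X * FF δ X ^ (T * K0)) ≤
        ((BC X U).card : ℝ) * (c * Om δ X (T * K0)) := by
      refine le_trans (le_of_eq ?_) (mul_le_mul_of_nonneg_right hB hOm0)
      unfold FF Om
      rw [mul_pow]
      field_simp
    refine le_trans ?_ hlow2
    have hV3 := h4 X hX4
    have hFl : c2 / Real.log X ≤ FF δ X := by
      unfold FF
      rw [div_le_iff₀ hlX]
      have hpos : 0 ≤ VV δ X * ((Nat.totient (Wm X) : ℝ) / Wm X) := by positivity
      calc c2 ≤ VV δ X * ((Nat.totient (Wm X) : ℝ) / Wm X) * (δ * Real.log X) := hV3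
        _ ≤ VV δ X * ((Nat.totient (Wm X) : ℝ) / Wm X) * (1 * Real.log X) := by
            apply mul_le_mul_of_nonneg_left _ hpos
            exact mul_le_mul_of_nonneg_right hδ1 hlX.le
        _ = _ := by ring
    have e1 : (c2 / Real.log X) ^ (T * K0) ≤ FF δ X ^ (T * K0) :=
      pow_le_pow_left₀ (by positivity) hFl _
    calc c1 * c * c2 ^ (T * K0) * (X / (Real.log X) ^ (T * K0))
        = c1 * c * (X * (c2 / Real.log X) ^ (T * K0)) := by
          rw [div_pow]
          ring
      _ ≤ _ := by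
          apply mul_le_mul_of_nonneg_left _ (by positivity)
          exact mul_le_mul_of_nonneg_left e1 hX0.le
  · intro n hn
    rw [mem_image] at hn
    obtain ⟨n, hn, rfl⟩ := hn
    rw [hS0, mem_biUnion] at hn
    obtain ⟨b, hb, hn⟩ := hn
    unfold HS at hn
    rw [mem_filter] at hn
    obtain ⟨hSI, hru, hT⟩ := hn
    unfold BC at hb
    rw [mem_filter] at hb
    unfold SI at hSI
    rw [mem_filter] at hSI
    refine ⟨?_, ?_⟩
    · set Gs := (univ : Finset (Fin T)).filter (fun g => ∃ i, (n + Hf g i).Prime) with hGs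
      have hG2 : m + 1 ≤ Gs.card := by
        have : T ≤ 4 * Gs.card := by
          convert hT
        omega
      have hex : ∀ g : Fin T, g ∈ Gs → ∃ i : Fin K0, (n + Hf g i).Prime := by
        intro g hg
        rw [hGs, mem_filter] at hg
        exact hg.2
      have hne : Nonempty (Fin K0) := ⟨⟨0, hK0⟩⟩
      choose! j hj using hex
      have hQc : (Gs.image (fun g => e (g, j g))).card = Gs.card := by
        apply card_image_of_injOn
        intro g _ g' _ hgg
        have e2 := he2 hgg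
        exact (Prod.ext_iff.1 e2).1
      have hsub : Gs.image (fun g => e (g, j g)) ⊆ H.filter (fun h => (n + 1 + h).Prime) := by
        intro h hh
        rw [mem_image] at hh
        obtain ⟨g, hg, rfl⟩ := hh
        rw [mem_filter]
        refine ⟨he1 _, ?_⟩
        have := hj g hg
        rw [hHf] at this
        convert this using 1
        ring
      have := card_le_card hsub
      omega
    · intro p hp hpJ h hh hd
      have hu : h + 1 ∈ U := by
        rw [hU, mem_image]
        exact ⟨h, hh, rfl⟩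
      have hd' : p ∣ n + (h + 1) := by
        convert hd using 1
        ring
      have hlt : p < 2 ^ 2 ^ JJ δ X := by
        by_contra hcon
        push Not at hcon
        have := pow_J hδ (J := ⌈2 / δ⌉₊) (by omega : 2 ≤ X) (Nat.le_ceil _) hcon
        omega
      by_cases hpH : HH X < p
      · have h1 := rg_one.1 (hru (h + 1) hu) p
        exact h1 (mem_P1.2 ⟨hlt, hp, hpH⟩) hd'
      · have h2 : p ∣ Wm X := by
          unfold Wm
          exact hp.dvd_primorial_iff.2 (by omega)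
        have h3 : b ≡ n [MOD p] := by
          have e1 : n % Wm X = b := hSI.2
          have e2 := (Nat.mod_modEq n (Wm X)).of_dvd h2
          rwa [e1] at e2
        have h4 : p ∣ b + (h + 1) := ((h3.add_right (h + 1)).dvd_iff dvd_rfl).2 hd'
        have h5 := Nat.dvd_gcd h4 h2
        have h6 := hb.2 (h + 1) hu
        rw [Nat.coprime_iff_gcd_eq_one] at h6
        rw [h6] at h5
        exact hp.one_lt.ne' (Nat.dvd_one.1 h5)

end Pool.Agent.TH779.BS
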