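import Mathlib
import Pool.Agent.TH779.BS.AvgJ

/-!
# Moments of the 2-Selmer groups of twists over rough arguments

Adapted from `Pool.Agent.TH841.PT.PrimeM` (helper841), with prime arguments replaced by arguments
without small prime factors.
-/

set_option autoImplicit false

namespace Pool.Agent.TH779.BS

open Pool.Agent.TH841.PT

open Finset Polynomial Pool.Agent.W262.RK

open Pool.Agent.H474R2.PG (rho)

open Pool.Agent.W307.SE (SN SelR SN_nonneg)

lemma card_big {x M J B : ℕ} (hM : 2 ≤ M) (hx : x ≠ 0) (hb : x ≤ M ^ B) :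
    (x.primeFactors.filter (fun p => M < p ^ J)).card ≤ B * J := by
  set S := x.primeFactors.filter (fun p => M < p ^ J) with hS
  have h1 : M ^ S.card ≤ M ^ (B * J) := by
    calc M ^ S.card = ∏ _p ∈ S, M := by rw [prod_const]
      _ ≤ ∏ p ∈ S, p ^ J := prod_le_prod (fun _ _ => Nat.zero_le _) fun p hp => by
          rw [hS, mem_filter] at hp
          exact hp.2.le
      _ = (∏ p ∈ S, p) ^ J := by rw [prod_pow]
      _ ≤ (∏ p ∈ x.primeFactors, p) ^ J := by
          apply Nat.pow_le_pow_left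
          exact prod_le_prod_of_subset_of_one_le' (filter_subset _ _) fun p hp _ =>
            (Nat.prime_of_mem_primeFactors hp).one_lt.le
      _ ≤ x ^ J := Nat.pow_le_pow_left
          (Nat.le_of_dvd (Nat.pos_of_ne_zero hx) (Nat.prod_primeFactors_dvd x)) J
      _ ≤ (M ^ B) ^ J := Nat.pow_le_pow_left hb J
      _ = M ^ (B * J) := by rw [pow_mul]
  exact (Nat.pow_le_pow_iff_right (by omega)).1 h1

/-- integers without prime factors in `(z, M ^ (1 / J)]` have few prime factors -/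
lemma card_rough {x M J B z : ℕ} (hM : 2 ≤ M) (hx : x ≠ 0) (hb : x ≤ M ^ B)
    (h : ∀ p : ℕ, p.Prime → z < p → p ^ J ≤ M → ¬ p ∣ x) : x.primeFactors.card ≤ z + B * J := by
  have h1 : x.primeFactors ⊆ Icc 1 z ∪ x.primeFactors.filter (fun p => M < p ^ J) := by
    intro p hp
    have hpp := Nat.prime_of_mem_primeFactors hp
    rw [mem_union, mem_Icc, mem_filter]
    by_cases hz : p ≤ z
    · exact Or.inl ⟨hpp.one_lt.le, hz⟩
    · right
      refine ⟨hp, ?_⟩
      by_contra hcon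
      exact h p hpp (by omega) (by omega) (Nat.dvd_of_mem_primeFactors hp)
  refine (card_le_card h1).trans ((card_union_le _ _).trans ?_)
  rw [Nat.card_Icc]
  have := card_big (J := J) hM hx hb
  omega

section

variable {r : ℕ} {G : Fin r → ℤ[X]}

open Classical in
/-- **the moments at rough arguments**, the main case -/
theorem main_partJ (hG : Irr G) (a : Fin 3 → ℤ) (ha : ∀ k, a k ≠ 0)
    (ha2 : a 0 - a 1 = a 2) (D H : ℤ[X]) (hD : 0 < D.natDegree)
    (hDG : Squarefree (mQ (D * ∏ i, G i))) (zH : ℕ)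
    (hH : ∀ p : ℕ, p.Prime → zH < p → ∀ t : ℤ, (p : ℤ) ∣ H.eval t → (p : ℤ) ∣ (∏ i, G i).eval t)
    (k L J : ℕ) :
    ∃ z0 : ℕ, ∀ z, z0 ≤ z → ∃ C : ℝ, 0 ≤ C ∧ ∀ (N : ℤ) (M : ℕ), 2 ≤ M → |N| ≤ (M : ℤ) ^ L →
      ∀ T : Finset ℤ, T ⊆ Ioc N (N + M) →
      (∀ t ∈ T, (H * D).eval t ≠ 0 ∧ SftJ J (∏ i, G i) z M t) →
      ∑ t ∈ T, SN (a 0 * (H * D).eval t) (a 1 * (H * D).eval t) ^ k ≤
        C * (M / (Real.log M) ^ r) := by
  set k' := k + 2 * (D * ∏ i, G i).natDegree with hk'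
  have hk2 : 2 * (D * ∏ i, G i).natDegree ≤ 4 ^ k' := by
    have h1 : k' < 4 ^ k' := Nat.lt_pow_self (by norm_num)
    omega
  obtain ⟨z1, hz1⟩ := avj a D (∏ i, G i) H k' L J ha ha2 hDG hD hk2 zH hH
  obtain ⟨z2, hz2⟩ := exp_prod GDPf.gdp hG
  refine ⟨z1 + z2, fun z hz => ?_⟩
  obtain ⟨C1, hC1⟩ := hz1 z (by omega)
  obtain ⟨C2, hC20, hC2⟩ := hz2 z (by omega)
  refine ⟨|C1| * C2, by positivity, fun N M hM hN T hT hTT => ?_⟩
  have hM0 : (0 : ℝ) ≤ M := Nat.cast_nonneg _
  have hge : ∀ t, (H * D).eval t ≠ 0 → 1 ≤ SN (a 0 * (H * D).eval t) (a 1 * (H * D).eval t) := by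
    intro t ht
    refine one_le_SN (mul_ne_zero (ha 0) ht) (mul_ne_zero (ha 1) ht) ?_
    intro h0
    have h1 : (a 0 - a 1) * (H * D).eval t = 0 := by
      rw [sub_mul, h0, sub_self]
    rw [ha2] at h1
    exact mul_ne_zero (ha 2) ht h1
  have h1 : ∑ t ∈ T, SN (a 0 * (H * D).eval t) (a 1 * (H * D).eval t) ^ k ≤
      ∑ t ∈ (Ioc N (N + M)).filter (fun t => t ∈ T),
        SN (a 0 * (H * D).eval t) (a 1 * (H * D).eval t) ^ k' := by
    have hTf : (Ioc N (N + M)).filter (fun t => t ∈ T) = T := by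
      ext t
      rw [mem_filter]
      exact ⟨fun h => h.2, fun h => ⟨hT h, h⟩⟩
    rw [hTf]
    refine sum_le_sum fun t ht => ?_
    exact pow_le_pow_right₀ (hge t (hTT t ht).1) (by omega)
  refine h1.trans ((to_Ioc (fun t => SN (a 0 * (H * D).eval t) (a 1 * (H * D).eval t) ^ k')
      (fun t => pow_nonneg (SN_nonneg _ _) _) (fun t => t ∈ T) N M).trans ?_)
  refine (hC1 N M (by omega) (natAbs_le_of hN) _ (filter_subset _ _) ?_).trans ?_
  · intro t ht
    exact hTT _ (mem_filter.1 ht).2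
  · calc C1 * (M * Real.exp (-Sp (fun p => (rho (∏ i, G i) p : ℝ)) z M))
        ≤ |C1| * (M * Real.exp (-Sp (fun p => (rho (∏ i, G i) p : ℝ)) z M)) :=
          mul_le_mul_of_nonneg_right (le_abs_self _) (by positivity)
      _ ≤ |C1| * (M * (C2 / (Real.log M) ^ r)) :=
          mul_le_mul_of_nonneg_left (mul_le_mul_of_nonneg_left (hC2 M hM) hM0) (abs_nonneg _)
      _ = _ := by ring

/-- the number of the rough arguments -/
theorem count_rough (hG : Irr G) (L J : ℕ) :
    ∃ z0 : ℕ, ∀ z, z0 ≤ z → ∃ C : ℝ, 0 ≤ C ∧ ∀ (N : ℤ) (M : ℕ), 2 ≤ M → |N| ≤ (M : ℤ) ^ L →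
      ∀ T : Finset ℤ, T ⊆ Ioc N (N + M) → (∀ t ∈ T, SftJ J (∏ i, G i) z M t) →
      (T.card : ℝ) ≤ C * (M / (Real.log M) ^ r) := by
  classical
  have hG0 : (∏ i, G i) ≠ 0 := prod_ne_zero_iff.2 fun i _ => (hG.irr i).ne_zero
  obtain ⟨m, hm⟩ : ∃ m : ℤ, (∏ i, G i).eval m ≠ 0 := by
    by_contra hcon
    push Not at hcon
    exact hG0 (Polynomial.funext fun x => by rw [hcon x, eval_zero])
  have hirr : Irreducible (mQ (X - C m)) := by
    unfold mQ
    rw [Polynomial.map_sub, Polynomial.map_X, Polynomial.map_C]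
    exact irreducible_X_sub_C _
  have hsq : Squarefree (mQ ((X - C m) * ∏ i, G i)) := by
    unfold mQ
    rw [Polynomial.map_mul]
    refine (squarefree_mul_iff).2 ⟨?_, hirr.squarefree, hG.sqf⟩
    refine ((hirr.coprime_iff_not_dvd).2 ?_).isRelPrime
    rw [mQ, Polynomial.map_sub, Polynomial.map_X, Polynomial.map_C, dvd_iff_isRoot, IsRoot.def]
    intro h0
    apply hm
    have h1 := Polynomial.eval_map_apply (f := Int.castRingHom ℚ) (p := ∏ i, G i) m
    rw [h0] at h1
    simpa using h1.symm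
  obtain ⟨z0, hz0⟩ := main_partJ hG ![2, 1, 1] (by intro k; fin_cases k <;> simp)
    (by simp) (X - C m) 1 (by rw [natDegree_X_sub_C]; exact one_pos) hsq 0
    (fun p hp _ t hd => by
      rw [eval_one] at hd
      exact absurd hd (Nat.prime_iff_prime_int.1 hp).not_dvd_one) 1 L J
  refine ⟨z0, fun z hz => ?_⟩
  obtain ⟨C1, hC10, hC1⟩ := hz0 z hz
  obtain ⟨C2, hC20, hC2⟩ := sqrt_log r
  refine ⟨C1 + C2, by positivity, fun N M hM hN T hT hT' => ?_⟩
  have hM1 : (1 : ℝ) ≤ M := by exact_mod_cast (by omega : 1 ≤ M)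
  have hne : ∀ t : ℤ, t ≠ m → (1 * (X - C m) : ℤ[X]).eval t ≠ 0 := by
    intro t ht
    rw [one_mul, eval_sub, eval_X, eval_C]
    exact sub_ne_zero.2 ht
  have h1 := hC1 N M hM hN (T.erase m) ((erase_subset _ _).trans hT) (fun t ht =>
    ⟨hne t (mem_erase.1 ht).1, hT' t (mem_erase.1 ht).2⟩)
  have h2 : (1 : ℝ) ≤ C2 * (M / (Real.log M) ^ r) := (Real.one_le_sqrt.2 hM1).trans (hC2 M hM)
  have h3 : ((T.erase m).card : ℝ) ≤ C1 * (M / (Real.log M) ^ r) := by
    refine le_trans ?_ h1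
    have h4 : ((T.erase m).card : ℝ) = ∑ t ∈ T.erase m, (1 : ℝ) := by simp
    rw [h4]
    refine sum_le_sum fun t ht => ?_
    have hn := hne t (mem_erase.1 ht).1
    rw [pow_one]
    refine one_le_SN (mul_ne_zero (by simp) hn) (mul_ne_zero (by simp) hn) ?_
    intro h0
    have : (2 : ℤ) * (1 * (X - C m) : ℤ[X]).eval t = 1 * (1 * (X - C m) : ℤ[X]).eval t := h0
    apply hn
    linarith
  have h4 : (T.card : ℝ) ≤ (T.erase m).card + 1 := by
    exact_mod_cast (by have := pred_card_le_card_erase (s := T) (a := m); omega :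
      T.card ≤ (T.erase m).card + 1)
  rw [add_mul]
  linarith

open Classical in
/-- the moments at rough arguments, squarefree polynomials -/
theorem sn_rough (hG : Irr G) (a : Fin 3 → ℤ) (ha : ∀ k, a k ≠ 0)
    (ha2 : a 0 - a 1 = a 2) (P : ℤ[X]) (hP : Squarefree (P.map (Int.castRingHom ℚ)))
    (k L J : ℕ) :
    ∃ z0 : ℕ, ∀ z, z0 ≤ z → ∃ C : ℝ, 0 ≤ C ∧ ∀ (N : ℤ) (M : ℕ), 2 ≤ M → |N| ≤ (M : ℤ) ^ L →
      ∀ T : Finset ℤ, T ⊆ Ioc N (N + M) →
      (∀ t ∈ T, P.eval t ≠ 0 ∧ SftJ J (∏ i, G i) z M t) →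
      ∑ t ∈ T, SN (a 0 * P.eval t) (a 1 * P.eval t) ^ k ≤ C * (M / (Real.log M) ^ r) := by
  obtain ⟨S, c, hc, hPc, hS⟩ := exists_irr P hP
  set S1 : Finset ℤ[X] := S.filter (fun f => ∃ i, Associated f (G i)) with hS1
  set S2 : Finset ℤ[X] := S.filter (fun f => ¬ ∃ i, Associated f (G i)) with hS2
  set H : ℤ[X] := C c * ∏ f ∈ S1, f with hH
  set D : ℤ[X] := ∏ f ∈ S2, f with hD
  have hPHD : P = H * D := by
    rw [hPc, hH, hD, mul_assoc]
    congr 1
    exact (prod_filter_mul_prod_filter_not S _ _).symm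
  have hprim : ∀ f ∈ S, f.IsPrimitive := fun f hf => (hS f hf).1.isPrimitive (hS f hf).2.ne'
  have hirrQ : ∀ f ∈ S, Irreducible (mQ f) := fun f hf =>
    ((hprim f hf).irreducible_iff_irreducible_map_fraction_map (K := ℚ)).1 (hS f hf).1
  have hsqD : Squarefree (mQ D) := by
    have h1 : mQ P = mQ H * mQ D := by rw [hPHD, mQ, Polynomial.map_mul]
    exact Squarefree.squarefree_of_dvd (Dvd.intro_left _ h1.symm) hP
  have hassoc : ∀ f ∈ S1, ∃ i, f = G i ∨ f = -G i := by
    intro f hf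
    obtain ⟨i, hi⟩ := (mem_filter.1 hf).2
    refine ⟨i, ?_⟩
    obtain ⟨u, hu⟩ := hi.symm
    obtain ⟨w, hw, hw'⟩ := Polynomial.isUnit_iff.1 u.isUnit
    rcases Int.isUnit_iff.1 hw with h1 | h1
    · left
      rw [← hu, ← hw', h1]
      simp
    · right
      rw [← hu, ← hw', h1]
      simp
  rcases Nat.eq_zero_or_pos D.natDegree with h0 | hpos
  · -- the values have few prime factors
    have hS20 : S2 = ∅ := by
      by_contra hne
      obtain ⟨f, hf⟩ := nonempty_iff_ne_empty.2 hne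
      have h1 : D ≠ 0 := prod_ne_zero_iff.2 fun g hg => (hS g (mem_filter.1 hg).1).1.ne_zero
      have h2 : f.natDegree ≤ D.natDegree := natDegree_le_of_dvd (dvd_prod_of_mem _ hf) h1
      have h3 := (hS f (mem_filter.1 hf).1).2
      omega
    have hD1 : D = 1 := by rw [hD, hS20, prod_empty]
    obtain ⟨z0, hz0⟩ := count_rough hG L J
    refine ⟨z0, fun z hz => ?_⟩
    obtain ⟨C1, hC10, hC1⟩ := hz0 z hz
    choose Kd hKd using fun f : ℤ[X] => eval_le f
    set Bf : ℤ[X] → ℕ := fun f => (L + 2) * f.natDegree + Kd f with hBf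
    set W : ℕ := (2 * a 0 * a 1 * a 2 * c).natAbs.primeFactors.card +
      ∑ f ∈ S1, (z + Bf f * J) + 2 with hW
    refine ⟨((4 : ℝ) ^ W) ^ k * C1, by positivity, fun N M hM hN T hT hTT => ?_⟩
    have hb : ∀ t ∈ T, SN (a 0 * P.eval t) (a 1 * P.eval t) ≤ 4 ^ W := by
      intro t htT
      obtain ⟨ht, hpr⟩ := hTT t htT
      have hne3 : (a 0 - a 1) * P.eval t ≠ 0 := by
        rw [ha2]
        exact mul_ne_zero (ha 2) ht
      have hne : a 0 * P.eval t ≠ a 1 * P.eval t := by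
        intro h1
        apply hne3
        rw [sub_mul, h1, sub_self]
      refine (SN_le (mul_ne_zero (ha 0) ht) (mul_ne_zero (ha 1) ht) hne).trans ?_
      refine pow_le_pow_right₀ (by norm_num) ?_
      rw [hW]
      refine Nat.add_le_add_right ?_ 2
      have hPe : P.eval t = c * ∏ f ∈ S1, f.eval t := by
        rw [hPHD, hD1, mul_one, hH, eval_mul, eval_C, eval_prod]
      have hsub : (2 * (a 0 * P.eval t) * (a 1 * P.eval t) *
          (a 0 * P.eval t - a 1 * P.eval t)).natAbs.primeFactors ⊆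
          (2 * a 0 * a 1 * a 2 * c).natAbs.primeFactors ∪
            S1.biUnion (fun f => (f.eval t).natAbs.primeFactors) := by
        intro p hp
        have hpp := Nat.prime_of_mem_primeFactors hp
        have hpd := Int.natCast_dvd.2 (Nat.dvd_of_mem_primeFactors hp)
        have hpi := Nat.prime_iff_prime_int.1 hpp
        rw [← sub_mul, ha2] at hpd
        have hne0 : (2 * a 0 * a 1 * a 2 * c) ≠ 0 :=
          mul_ne_zero (mul_ne_zero (mul_ne_zero (mul_ne_zero two_ne_zero (ha 0)) (ha 1)) (ha 2)) hc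
        have hcon : (p : ℤ) ∣ 2 * a 0 * a 1 * a 2 * c ∨ (p : ℤ) ∣ ∏ f ∈ S1, f.eval t := by
          have h1 : (p : ℤ) ∣ (2 * a 0 * a 1 * a 2 * c) * ((c * c) * (∏ f ∈ S1, f.eval t) ^ 3) := by
            rw [hPe] at hpd
            refine hpd.trans (dvd_of_eq ?_)
            ring
          rcases hpi.dvd_mul.1 h1 with h2 | h2
          · exact Or.inl h2
          rcases hpi.dvd_mul.1 h2 with h3 | h3
          · rcases hpi.dvd_mul.1 h3 with h4 | h4
            · exact Or.inl (h4.mul_left _)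
            · exact Or.inl (h4.mul_left _)
          · exact Or.inr (hpi.dvd_of_dvd_pow h3)
        rw [mem_union]
        rcases hcon with h1 | h1
        · left
          rw [Nat.mem_primeFactors]
          exact ⟨hpp, Int.natCast_dvd.1 h1, Int.natAbs_ne_zero.2 hne0⟩
        · right
          obtain ⟨f, hf, hfd⟩ := (hpi.dvd_finsetProd_iff _).1 h1
          rw [mem_biUnion]
          refine ⟨f, hf, ?_⟩
          rw [Nat.mem_primeFactors]
          refine ⟨hpp, Int.natCast_dvd.1 hfd, Int.natAbs_ne_zero.2 ?_⟩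
          intro hf0
          apply ht
          rw [hPe, prod_eq_zero hf hf0, mul_zero]
      refine (card_le_card hsub).trans ((card_union_le _ _).trans ?_)
      refine Nat.add_le_add_left ?_ _
      refine card_biUnion_le.trans (sum_le_sum fun f hf => ?_)
      have hf0 : f.eval t ≠ 0 := by
        intro hf0
        apply ht
        rw [hPe, prod_eq_zero hf hf0, mul_zero]
      obtain ⟨i, hi⟩ := hassoc f hf
      refine card_rough hM (Int.natAbs_ne_zero.2 hf0) ?_ ?_
      · have hM1 : 1 ≤ M := by omega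
        have htN := hT htT
        rw [mem_Ioc] at htN
        have hNa := natAbs_le_of hN
        have e8 : t.natAbs ≤ M ^ (L + 2) := by
          have e5 : M ^ L ≤ M ^ (L + 1) := Nat.pow_le_pow_right hM1 (by omega)
          have e6 : M ≤ M ^ (L + 1) := Nat.le_self_pow (by omega) M
          have e9 : t.natAbs ≤ N.natAbs + M := by omega
          calc t.natAbs ≤ N.natAbs + M := e9
            _ ≤ M ^ (L + 1) + M ^ (L + 1) := Nat.add_le_add (hNa.trans e5) e6
            _ = 2 * M ^ (L + 1) := by ring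
            _ ≤ M * M ^ (L + 1) := Nat.mul_le_mul_right _ hM
            _ = M ^ (L + 2) := by ring
        have hK2 : Kd f ≤ M ^ Kd f := by
          exact (Nat.lt_pow_self (by omega : 1 < M)).le
        calc (f.eval t).natAbs ≤ Kd f * (M ^ (L + 2)) ^ f.natDegree :=
              hKd f _ _ (Nat.one_le_pow _ _ hM1) e8
          _ ≤ M ^ Kd f * (M ^ (L + 2)) ^ f.natDegree := Nat.mul_le_mul_right _ hK2
          _ = M ^ Bf f := by rw [hBf, ← pow_mul]; ring
      · intro p hp hzp hpJ hpd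
        refine hpr p hp hzp hpJ ?_
        rw [eval_prod]
        refine Dvd.dvd.trans ?_ (dvd_prod_of_mem _ (mem_univ i))
        have hfd := Int.natCast_dvd.2 hpd
        rcases hi with hi | hi
        · rwa [hi] at hfd
        · rwa [hi, eval_neg, dvd_neg] at hfd
    calc ∑ t ∈ T, SN (a 0 * P.eval t) (a 1 * P.eval t) ^ k
        ≤ ∑ t ∈ T, ((4 : ℝ) ^ W) ^ k := by
          refine sum_le_sum fun t ht => ?_
          exact pow_le_pow_left₀ (SN_nonneg _ _) (hb t ht) k
      _ = ((4 : ℝ) ^ W) ^ k * (T.card : ℝ) := by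
          rw [sum_const, nsmul_eq_mul, mul_comm]
      _ ≤ ((4 : ℝ) ^ W) ^ k * (C1 * (M / (Real.log M) ^ r)) := by
          refine mul_le_mul_of_nonneg_left ?_ (by positivity)
          exact hC1 N M hM hN T hT fun t ht => (hTT t ht).2
      _ = _ := by ring
  · -- the main case
    rw [hPHD]
    refine main_partJ hG a ha ha2 D H hpos ?_ c.natAbs ?_ k L J
    · unfold mQ
      rw [Polynomial.map_mul]
      refine (squarefree_mul_iff).2 ⟨?_, hsqD, hG.sqf⟩
      rw [hD, Polynomial.map_prod, Polynomial.map_prod]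
      refine (IsCoprime.prod_left fun f hf => IsCoprime.prod_right fun i _ => ?_).isRelPrime
      have hf' := mem_filter.1 hf
      refine ((hirrQ f hf'.1).coprime_iff_not_dvd).2 fun hd => hf'.2 ⟨i, ?_⟩
      have h1 : f ∣ G i :=
        (IsPrimitive.Int.dvd_iff_map_cast_dvd_map_cast f (G i) (hprim f hf'.1)).2 hd
      exact (hS f hf'.1).1.associated_of_dvd (hG.irr i) h1
    · intro p hp hz t hd
      have hpi := Nat.prime_iff_prime_int.1 hp
      rw [hH, eval_mul, eval_C, eval_prod] at hd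
      rcases hpi.dvd_mul.1 hd with h1 | h1
      · exfalso
        have := Nat.le_of_dvd (Int.natAbs_pos.2 hc) (Int.natCast_dvd.1 h1)
        omega
      · obtain ⟨f, hf, hfd⟩ := (hpi.dvd_finsetProd_iff _).1 h1
        obtain ⟨i, hi⟩ := hassoc f hf
        rw [eval_prod]
        refine Dvd.dvd.trans ?_ (dvd_prod_of_mem _ (mem_univ i))
        rcases hi with hi | hi
        · rwa [hi] at hfd
        · rwa [hi, eval_neg, dvd_neg] at hfd

/-- **all the moments of the 2-Selmer groups of the twists by the values of a polynomial, at the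
arguments where given polynomials take rough values** -/
theorem sel_rough (hG : Irr G) {A B e1 e2 e3 : ℤ}
    (hE : 4 * A ^ 3 + 27 * B ^ 2 ≠ 0)
    (he : ∀ x : ℤ, x ^ 3 + A * x + B = (x - e1) * (x - e2) * (x - e3)) (D : ℤ[X]) (hD : D ≠ 0)
    (k L J : ℕ) :
    ∃ z0 : ℕ, ∀ z, z0 ≤ z → ∃ C : ℝ, 0 ≤ C ∧ ∀ (N : ℤ) (M : ℕ), 2 ≤ M → |N| ≤ (M : ℤ) ^ L →
      ∀ T : Finset ℤ, T ⊆ Ioc N (N + M) →
      (∀ t ∈ T, D.eval t ≠ 0 ∧ SftJ J (∏ i, G i) z M t) →
      ∑ t ∈ T, ((SelR ((D.eval t) ^ 2 * A) ((D.eval t) ^ 3 * B)).ncard : ℝ) ^ k ≤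
          C * (M / (Real.log M) ^ r) := by
  obtain ⟨D₁, D₂, hfac, hsq⟩ := exists_fac D hD
  obtain ⟨h12, h13, h23⟩ := Pool.Agent.TH639.SL.disc_ne hE he
  obtain ⟨z0, hz0⟩ := sn_rough hG ![e2 - e1, e3 - e1, e2 - e3] (by
      intro i
      fin_cases i
      · exact h12
      · exact h13
      · exact h23)
    (by
      change (e2 - e1) - (e3 - e1) = e2 - e3
      ring) D₁ hsq k L J
  refine ⟨z0, fun z hz => ?_⟩
  obtain ⟨C, hC0, hC⟩ := hz0 z hz
  have hev : ∀ t, D.eval t = D₁.eval t * D₂.eval t ^ 2 := by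
    intro t
    rw [hfac, eval_mul, eval_pow]
  refine ⟨C, hC0, fun N M hM hN T hT hTT => le_trans ?_ (hC N M hM hN T hT fun t ht =>
    ⟨fun h0 => (hTT t ht).1 (by rw [hev, h0, zero_mul]), (hTT t ht).2⟩)⟩
  refine sum_le_sum fun t ht => ?_
  have ht' := (hTT t ht).1
  refine pow_le_pow_left₀ (Nat.cast_nonneg _) ?_ k
  have := (Pool.Agent.TH841.NF.sel_tw2 hE he (c := 1) (P := D₁.eval t) (w := D₂.eval t) ht'
    (by rw [one_mul]; exact hev t)).2
  rwa [mul_one, mul_one] at this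

end

end Pool.Agent.TH779.BS
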