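import Mathlib
import Pool.Agent.TH779.BS.Sn
import Pool.Agent.TH779.BS.Mt

/-!
# Clusters of primes at which the twists of elliptic curves have bounded 2-primary Selmer groups
-/

set_option autoImplicit false

namespace Pool.Agent.TH779.BS

open Finset Polynomial

open Pool.Agent.TH841.PT

open Pool.Agent.W307.SE (SN SelR SN_nonneg)

open Pool.Agent.TH841.SH (Bd)

/-- the linear forms -/
lemma irr_lin {K : ℕ} (h : Fin K → ℕ) (hh : Function.Injective h) :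
    Irr (fun l => (X - C (-(h l : ℤ)) : ℤ[X])) := by
  refine ⟨fun l => irreducible_X_sub_C _, fun l => ?_, fun l l' hll hass => hll (hh ?_)⟩
  · rw [natDegree_X_sub_C]
    exact one_pos
  · have h1 := hass.dvd
    have h2 : (X - C (-(h l' : ℤ)) : ℤ[X]).eval (-(h l : ℤ)) = 0 := by
      obtain ⟨q, hq⟩ := h1
      rw [hq, eval_mul, eval_sub, eval_X, eval_C, sub_self, zero_mul]
    rw [eval_sub, eval_X, eval_C] at h2
    omega

/-- the first moment of the 2-Selmer groups at rough arguments -/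
lemma bad_bound {A B e1 e2 e3 : ℤ} (hE : 4 * A ^ 3 + 27 * B ^ 2 ≠ 0)
    (he : ∀ x : ℤ, x ^ 3 + A * x + B = (x - e1) * (x - e2) * (x - e3)) (P : ℤ[X]) (hP : P ≠ 0)
    (H : Finset ℕ) (J L : ℕ) :
    ∃ C : ℝ, 0 ≤ C ∧ ∀ x y : ℕ, 2 ≤ y → x ≤ y ^ L → ∀ T ⊆ Ioc x (x + y),
      (∀ n ∈ T, P.eval (n : ℤ) ≠ 0 ∧ ∀ p : ℕ, p.Prime → p ^ J ≤ y → ∀ h ∈ H, ¬ p ∣ n + h) →
      ∑ n ∈ T, ((SelR ((P.eval (n : ℤ)) ^ 2 * A) ((P.eval (n : ℤ)) ^ 3 * B)).ncard : ℝ) ≤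
        C * (y / (Real.log y) ^ H.card) := by
  classical
  set h : Fin H.card → ℕ := fun l => ((Finset.equivFin H).symm l).1 with hh
  have hinj : Function.Injective h := fun a b hab =>
    (Finset.equivFin H).symm.injective (Subtype.ext hab)
  have hmem : ∀ l, h l ∈ H := fun l => Subtype.coe_prop _
  obtain ⟨z0, hz0⟩ := sel_rough (irr_lin h hinj) hE he P hP 1 L J
  obtain ⟨C, hC0, hC⟩ := hz0 z0 le_rfl
  refine ⟨C, hC0, fun x y hy hxy T hT hTT => ?_⟩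
  have hinjc : Set.InjOn (fun n : ℕ => (n : ℤ)) T := fun a _ b _ hab => by
    have : (a : ℤ) = b := hab
    exact_mod_cast this
  have h1 := hC (x : ℤ) y hy (by rw [Nat.abs_cast]; exact_mod_cast hxy)
    (T.image (fun n : ℕ => (n : ℤ))) ?_ ?_
  · rw [sum_image hinjc] at h1
    simpa only [pow_one] using h1
  · intro t ht
    rw [mem_image] at ht
    obtain ⟨n, hn, rfl⟩ := ht
    have := mem_Ioc.1 (hT hn)
    rw [mem_Ioc]
    omega
  · intro t ht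
    rw [mem_image] at ht
    obtain ⟨n, hn, rfl⟩ := ht
    refine ⟨(hTT n hn).1, fun p hp _ hpJ hd => ?_⟩
    rw [eval_prod] at hd
    obtain ⟨l, _, hl⟩ := ((Nat.prime_iff_prime_int.1 hp).dvd_finsetProd_iff _).1 hd
    rw [eval_sub, eval_X, eval_C] at hl
    refine (hTT n hn).2 p hp hpJ (h l) (hmem l) ?_
    have h2 : ((n : ℤ) - -(h l : ℤ)) = ((n + h l : ℕ) : ℤ) := by
      push_cast
      ring
    rw [h2] at hl
    exact_mod_cast hl

/-- the values at large arguments do not vanish -/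
lemma no_root (P : ℤ[X]) (hP : P ≠ 0) : ∃ x1 : ℕ, ∀ n : ℕ, x1 < n → P.eval (n : ℤ) ≠ 0 := by
  refine ⟨P.roots.toFinset.sup Int.natAbs, fun n hn h0 => ?_⟩
  have h1 : (n : ℤ) ∈ P.roots.toFinset := by
    rw [Multiset.mem_toFinset, mem_roots hP]
    exact h0
  have h2 := Finset.le_sup (f := Int.natAbs) h1
  rw [Int.natAbs_natCast] at h2
  omega

/-- the shifted polynomials -/
lemma comp_ne {D : ℤ[X]} (hD : D ≠ 0) (j : ℤ) : D.comp (X + C j) ≠ 0 := by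
  intro h0
  apply hD
  have h1 : (D.comp (X + C j)).comp (X - C j) = D := by
    rw [comp_assoc]
    simp
  rw [← h1, h0, zero_comp]

open Classical in
/-- **few rough arguments are bad** -/
theorem few_bad {ι : Type} [Fintype ι] (A B e₁ e₂ e₃ : ι → ℤ)
    (hE : ∀ i, 4 * A i ^ 3 + 27 * B i ^ 2 ≠ 0)
    (he : ∀ i, ∀ x : ℤ, x ^ 3 + A i * x + B i = (x - e₁ i) * (x - e₂ i) * (x - e₃ i))
    (P : ι → ℤ[X]) (hP : ∀ i, P i ≠ 0) (H : Finset ℕ) (J L : ℕ) (c : ℝ) (hc : 0 < c) :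
    ∃ R : ℝ, ∃ y₀ : ℕ, ∀ x y : ℕ, y₀ ≤ y → y ≤ x → x ≤ y ^ L → ∀ S ⊆ Ioc x (x + y),
      (∀ n ∈ S, ∀ p : ℕ, p.Prime → p ^ J ≤ y → ∀ h ∈ H, ¬ p ∣ n + h) →
      ((S.filter (fun n : ℕ => ¬ ∀ i, (P i).eval (n : ℤ) ≠ 0 ∧
        Bd (TwQ (A i) (B i) ((P i).eval (n : ℤ))) R)).card : ℝ) ≤
          c * (y / (Real.log y) ^ H.card) := by
  choose Cf hCf0 hCf using fun i => bad_bound (hE i) (he i) (P i) (hP i) H J L
  choose rt hrt using fun i => no_root (P i) (hP i)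
  set Ct : ℝ := ∑ i, Cf i with hCt
  have hCt0 : 0 ≤ Ct := sum_nonneg fun y _ => hCf0 y
  set R : ℝ := Ct / c + 1 with hR
  have hR0 : 0 < R := by positivity
  refine ⟨R, univ.sup rt + 3, fun x y hy hyx hxy S hS hSn => ?_⟩
  set Q : ℝ := y / (Real.log y) ^ H.card with hQ
  have hly : 0 < Real.log y := Real.log_pos (by exact_mod_cast (by omega : 1 < y))
  have hy0 : (0 : ℝ) < y := by exact_mod_cast (by omega : 0 < y)
  have hQ0 : 0 < Q := by positivity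
  have hev : ∀ i, ∀ n ∈ S, (P i).eval (n : ℤ) ≠ 0 := by
    intro i n hn
    refine hrt i n ?_
    have h1 : rt i ≤ univ.sup rt := Finset.le_sup (f := rt) (mem_univ i)
    have h2 := (mem_Ioc.1 (hS hn)).1
    omega
  set sel : ι → ℕ → ℝ := fun i n =>
    ((SelR (((P i).eval (n : ℤ)) ^ 2 * A i) (((P i).eval (n : ℤ)) ^ 3 * B i)).ncard : ℝ)
    with hsel
  set bad : ι → Finset ℕ := fun i => S.filter (fun n => R < sel i n) with hbad
  have hbadc : ∀ i, ((bad i).card : ℝ) * R ≤ Cf i * Q := by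
    intro i
    have h1 := hCf i x y (by omega) hxy (bad i) ((filter_subset _ _).trans hS) (fun n hn => by
      have hn' := (mem_filter.1 hn).1
      exact ⟨hev i n hn', hSn n hn'⟩)
    refine le_trans ?_ h1
    rw [← nsmul_eq_mul]
    exact card_nsmul_le_sum _ _ _ fun n hn => (mem_filter.1 hn).2.le
  have hsub : S.filter (fun n : ℕ => ¬ ∀ i, (P i).eval (n : ℤ) ≠ 0 ∧
        Bd (TwQ (A i) (B i) ((P i).eval (n : ℤ))) R) ⊆ univ.biUnion bad := by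
    intro n hn
    rw [mem_filter] at hn
    obtain ⟨hnS, hnb⟩ := hn
    by_contra hcon
    apply hnb
    intro i
    have hne := hev i n hnS
    refine ⟨hne, ?_⟩
    have hle : sel i n ≤ R := by
      by_contra hcon2
      push Not at hcon2
      exact hcon (mem_biUnion.2 ⟨i, mem_univ _, mem_filter.2 ⟨hnS, hcon2⟩⟩)
    have h1 : Bd (TwQ (A i) (B i) ((P i).eval (n : ℤ))) (sel i n) :=
      Pool.Agent.TH841.SH.bd_selR (Pool.Agent.TH639.SL.disc_tw hne (hE i))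
        (Pool.Agent.TH639.SL.roots_tw (he i) _) (Pool.Agent.TH639.SL.sel_tw (hE i) (he i) hne).1
    exact ⟨h1.1, h1.2.trans hle⟩
  have h1 : ((univ.biUnion bad).card : ℝ) ≤ ∑ i, ((bad i).card : ℝ) := by
    exact_mod_cast card_biUnion_le
  have h2 : (∑ i, ((bad i).card : ℝ)) * R ≤ Ct * Q := by
    rw [sum_mul, hCt, sum_mul]
    exact sum_le_sum fun i _ => hbadc i
  have h3 : (∑ i, ((bad i).card : ℝ)) ≤ Ct * Q / R := by
    rw [le_div_iff₀ hR0]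
    exact h2
  have h4 : Ct * Q / R ≤ c * Q := by
    rw [div_le_iff₀ hR0]
    have h5 : c * Q * R = Ct * Q + c * Q := by
      rw [hR]
      field_simp
    rw [h5]
    have : 0 ≤ c * Q := by positivity
    linarith
  have h5 : ((S.filter (fun n : ℕ => ¬ ∀ i, (P i).eval (n : ℤ) ≠ 0 ∧
        Bd (TwQ (A i) (B i) ((P i).eval (n : ℤ))) R)).card : ℝ) ≤ ((univ.biUnion bad).card : ℝ) := by
    exact_mod_cast card_le_card hsub
  exact h5.trans (h1.trans (h3.trans h4))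

open Classical in
/-- the same, for all integers near the argument -/
theorem few_bad_win {ι : Type} [Fintype ι] (A B e₁ e₂ e₃ : ι → ℤ)
    (hE : ∀ i, 4 * A i ^ 3 + 27 * B i ^ 2 ≠ 0)
    (he : ∀ i, ∀ x : ℤ, x ^ 3 + A i * x + B i = (x - e₁ i) * (x - e₂ i) * (x - e₃ i))
    (D : ι → ℤ[X]) (hD : ∀ i, D i ≠ 0) (b : ℕ) (H : Finset ℕ) (J L : ℕ) (c : ℝ) (hc : 0 < c) :
    ∃ R : ℝ, ∃ y₀ : ℕ, ∀ x y : ℕ, y₀ ≤ y → y ≤ x → x ≤ y ^ L → ∀ S ⊆ Ioc x (x + y),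
      (∀ n ∈ S, ∀ p : ℕ, p.Prime → p ^ J ≤ y → ∀ h ∈ H, ¬ p ∣ n + h) →
      ((S.filter (fun n : ℕ => ¬ ∀ t : ℤ, |t - n| ≤ b → ∀ i, (D i).eval t ≠ 0 ∧
        Bd (TwQ (A i) (B i) ((D i).eval t)) R)).card : ℝ) ≤
          c * (y / (Real.log y) ^ H.card) := by
  obtain ⟨R, y₀, h⟩ := few_bad (ι := ι × (Icc (-(b : ℤ)) b : Finset ℤ)) (fun y => A y.1)
    (fun y => B y.1) (fun y => e₁ y.1) (fun y => e₂ y.1) (fun y => e₃ y.1) (fun y => hE y.1)
    (fun y => he y.1) (fun y => (D y.1).comp (X + C (y.2 : ℤ))) (fun y => comp_ne (hD y.1) _)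
    H J L c hc
  refine ⟨R, y₀, fun x y hy hyx hxy S hS hSn => le_trans ?_ (h x y hy hyx hxy S hS hSn)⟩
  have hsub : S.filter (fun n : ℕ => ¬ ∀ t : ℤ, |t - n| ≤ b → ∀ i, (D i).eval t ≠ 0 ∧
        Bd (TwQ (A i) (B i) ((D i).eval t)) R) ⊆
      S.filter (fun n : ℕ => ¬ ∀ y : ι × (Icc (-(b : ℤ)) b : Finset ℤ),
        ((D y.1).comp (X + C (y.2 : ℤ))).eval (n : ℤ) ≠ 0 ∧
        Bd (TwQ (A y.1) (B y.1) (((D y.1).comp (X + C (y.2 : ℤ))).eval (n : ℤ))) R) := by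
    intro n hn
    rw [mem_filter] at hn ⊢
    refine ⟨hn.1, fun hall => hn.2 fun t ht i => ?_⟩
    have h1 := hall (i, ⟨t - (n : ℤ), mem_Icc.2 (abs_le.1 ht)⟩)
    have h2 : ((D i).comp (X + C (t - (n : ℤ)))).eval (n : ℤ) = (D i).eval t := by
      rw [eval_comp, eval_add, eval_X, eval_C]
      congr 1
      ring
    simp only [h2] at h1
    exact h1
  exact_mod_cast card_le_card hsub

open Classical in
/-- **clusters of primes with bounded twists** -/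
theorem clusters (m : ℕ) : ∃ K : ℕ, ∀ H : Finset ℕ, K ≤ H.card → Admis H →
    ∃ c : ℝ, 0 < c ∧ ∀ {ι : Type} [Fintype ι] (A B e₁ e₂ e₃ : ι → ℤ),
      (∀ i, 4 * A i ^ 3 + 27 * B i ^ 2 ≠ 0) →
      (∀ i, ∀ x : ℤ, x ^ 3 + A i * x + B i = (x - e₁ i) * (x - e₂ i) * (x - e₃ i)) →
      ∀ D : ι → ℤ[X], (∀ i, D i ≠ 0) → ∀ b : ℕ,
      ∃ R : ℝ, ∃ x₀ : ℕ, ∀ x : ℕ, x₀ ≤ x →
        c * (x / (Real.log x) ^ K) ≤ (((Ioc x (2 * x)).filter (fun n : ℕ =>
          m ≤ (H.filter (fun h => (n + h).Prime)).card ∧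
          ∀ t : ℤ, |t - n| ≤ b → ∀ i, (D i).eval t ≠ 0 ∧
            Bd (TwQ (A i) (B i) ((D i).eval t)) R)).card : ℝ) := by
  obtain ⟨K, hK⟩ := mt_lower m
  refine ⟨K, fun H hKH hadm => ?_⟩
  obtain ⟨H', hH', hH'c⟩ := Finset.exists_subset_card_eq hKH
  obtain ⟨J, c, hc, x1, hx1⟩ := hK H' hH'c (fun p hp => by
    obtain ⟨b, hb⟩ := hadm p hp
    exact ⟨b, fun h hh => hb h (hH' hh)⟩)
  refine ⟨c / 2, by positivity, fun {ι} _ A B e₁ e₂ e₃ hE he D hD b => ?_⟩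
  obtain ⟨R, y₀, hR⟩ := few_bad_win A B e₁ e₂ e₃ hE he D hD b H' J 1 (c / 2) (by positivity)
  refine ⟨R, max x1 y₀, fun x hx => ?_⟩
  obtain ⟨S, hS, hSc, hSn⟩ := hx1 x (by omega)
  have hbad := hR x x (by omega) le_rfl (by rw [pow_one]) S (by rwa [two_mul] at hS)
    (fun n hn => (hSn n hn).2)
  rw [hH'c] at hbad
  set Bad := S.filter (fun n : ℕ => ¬ ∀ t : ℤ, |t - n| ≤ b → ∀ i, (D i).eval t ≠ 0 ∧
        Bd (TwQ (A i) (B i) ((D i).eval t)) R) with hBad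
  have hsub : S \ Bad ⊆ (Ioc x (2 * x)).filter (fun n : ℕ =>
      m ≤ (H.filter (fun h => (n + h).Prime)).card ∧
      ∀ t : ℤ, |t - n| ≤ b → ∀ i, (D i).eval t ≠ 0 ∧
        Bd (TwQ (A i) (B i) ((D i).eval t)) R) := by
    intro n hn
    rw [mem_sdiff] at hn
    obtain ⟨hnS, hnb⟩ := hn
    rw [mem_filter]
    refine ⟨hS hnS, (hSn n hnS).1.trans (card_le_card (filter_subset_filter _ hH')), ?_⟩
    by_contra hcon
    exact hnb (mem_filter.2 ⟨hnS, hcon⟩)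
  have hfin : (S.card : ℝ) ≤ ((S \ Bad).card : ℝ) + (Bad.card : ℝ) := by
    have h1 : S.card ≤ (S \ Bad).card + Bad.card := by
      have h2 : S ⊆ (S \ Bad) ∪ Bad := by
        intro n hn
        rw [mem_union, mem_sdiff]
        by_cases h : n ∈ Bad
        · exact Or.inr h
        · exact Or.inl ⟨hn, h⟩
      exact (card_le_card h2).trans (card_union_le _ _)
    exact_mod_cast h1
  have hcs := (Nat.cast_le (α := ℝ)).2 (card_le_card hsub)
  refine le_trans ?_ hcs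
  linarith

end Pool.Agent.TH779.BS
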