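import Mathlib
import Pool.Agent.TH779.BS.AvX
import Pool.Agent.TH779.BS.Main

/-!
# Pencils of elliptic curves at rough arguments

Adapted from `Pool.Agent.TH841.TR.PenX` (helper841), with prime arguments replaced by arguments
without small prime factors.
-/

set_option autoImplicit false

namespace Pool.Agent.TH779.BS

open Finset Polynomial Pool.Agent.W262.RK

open Pool.Agent.TH841.PT hiding UP FP allc allf prod_allc reduce ne_three fp

open Pool.Agent.TH841.TR (UP Bal reduce allc allf FP prod_allc tri_of fp ne_three)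

open Pool.Agent.H474R2.PG (rho)

open Pool.Agent.W307.SE (SN SN_nonneg)

section

variable {n : Fin 3 → ℕ} {r : ℕ} {G : Fin r → ℤ[X]}

open Classical in
/-- **the average in a pencil at rough arguments** -/
theorem pen_rough (hG : Irr G) (a : Fin 3 → ℤ) (f : ∀ k : Fin 3, Fin (n k) → ℤ[X])
    (ha : ∀ k, a k ≠ 0) (hf : Irr (fp f)) (hU : UP a f 0 - UP a f 1 = UP a f 2)
    (hGf : ∀ i k j, ¬ Associated (f k j) (G i))
    (D : ℤ[X]) (hD : D ≠ 0) (hDf : ∀ k i, ¬ f k i ∣ D) (hDG : ∀ i, ¬ G i ∣ D)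
    (hB : Bal D a f) (L J : ℕ) :
    ∃ C : ℝ, 0 ≤ C ∧ ∀ (N : ℤ) (M : ℕ), 2 ≤ M → |N| ≤ (M : ℤ) ^ L →
      ∀ T : Finset ℤ, T ⊆ Ioc N (N + M) →
      (∀ t ∈ T, (∀ k, (D * UP a f k).eval t ≠ 0) ∧
        ∀ p : ℕ, p.Prime → p ^ J ≤ M → ∀ i, ¬ (p : ℤ) ∣ (G i).eval t) →
      ∑ t ∈ T, SN ((D * UP a f 0).eval t) ((D * UP a f 1).eval t) ≤
        C * (M / (Real.log M) ^ r) := by
  obtain ⟨m, g, a', D₂, ha', hf', hF', hfac, hgD⟩ := reduce a f ha hf hU D hD hDf
  have hP : ∀ k, Polynomial.C (a' k) * ∏ l ∈ fs (allc n m) k, allf g f l = FP a' g f k := by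
    intro k
    rw [prod_allc]
    unfold FP
    rw [mul_assoc]
    rfl
  have hV : ∀ k t, Fval (allc n m) a' (fun l => (allf g f l).eval t) k =
      (FP a' g f k).eval t := by
    intro k t
    rw [← hP k, eval_mul, eval_C, eval_prod]
    rfl
  have hall : Irr (Sum.elim (allf g f) G) := by
    refine irr_sum hf' hG ?_
    rintro (x | i) l has
    · exact hGf l x.1 x.2 has
    · exact hDG l (has.symm.dvd.trans (hgD i))
  have hsq : Squarefree (mQ ((∏ j, allf g f j) * ∏ i, G i)) := by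
    have := hall.sqf
    rw [Fintype.prod_sum_type] at this
    exact this
  obtain ⟨sp, hT, hS⟩ := tri_of hB hfac
  obtain ⟨z1, hz1⟩ := av3xj (allc n m) a' (allf g f) sp L J ha' hf' hT hS
    (by rw [hP, hP, hP]; exact hF') (∏ i, G i) hsq
  obtain ⟨z2, hz2⟩ := exp_prod GDPf.gdp hG
  obtain ⟨C1, hC1⟩ := hz1 (z1 + z2) (by omega)
  obtain ⟨C2, hC20, hC2⟩ := hz2 (z1 + z2) (by omega)
  simp only [hV] at hC1
  refine ⟨|C1| * C2, by positivity, fun N M hM hN T hTN hTT => ?_⟩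
  have hM0 : (0 : ℝ) ≤ M := Nat.cast_nonneg _
  have h1 : ∑ t ∈ T, SN ((D * UP a f 0).eval t) ((D * UP a f 1).eval t) ≤
      ∑ t ∈ (Ioc N (N + M)).filter (fun t => t ∈ T),
        SN ((FP a' g f 0).eval t) ((FP a' g f 1).eval t) := by
    have hTf : (Ioc N (N + M)).filter (fun t => t ∈ T) = T := by
      ext t
      rw [mem_filter]
      exact ⟨fun h => h.2, fun h => ⟨hTN h, h⟩⟩
    rw [hTf]
    refine sum_le_sum fun t ht => ?_
    have ht' := (hTT t ht).1 0
    rw [hfac, eval_mul, eval_pow] at ht'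
    have hw : D₂.eval t ≠ 0 := fun h0 => ht' (by rw [h0]; ring)
    rw [hfac, hfac, eval_mul, eval_mul, eval_pow, SN_sq hw]
  refine h1.trans ((to_Ioc (fun t => SN ((FP a' g f 0).eval t) ((FP a' g f 1).eval t))
      (fun t => SN_nonneg _ _) (fun t => t ∈ T) N M).trans ?_)
  refine (hC1 N M (by omega) (natAbs_le_of hN) _ (filter_subset _ _) ?_).trans ?_
  · intro t ht
    have ht' := hTT _ (mem_filter.1 ht).2
    refine ⟨fun j => ?_, fun p hp _ hpJ hd => ?_⟩
    · obtain ⟨k, hk⟩ : ∃ k, j ∈ fs (allc n m) k := by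
        unfold fs
        rcases j with ⟨k, i⟩ | i
        · exact ⟨k, mem_filter.2 ⟨mem_univ _, Or.inl rfl⟩⟩
        · exact ⟨0, mem_filter.2 ⟨mem_univ _, Or.inr rfl⟩⟩
      have h2 : (FP a' g f k).eval (N + (t : ℤ)) ≠ 0 := by
        intro h0
        apply ht'.1 k
        rw [hfac, eval_mul, h0, zero_mul]
      rw [← hP k, eval_mul, eval_prod] at h2
      exact (prod_ne_zero_iff.1 (right_ne_zero_of_mul h2)) j hk
    · rw [eval_prod] at hd
      obtain ⟨l, _, hl⟩ := ((Nat.prime_iff_prime_int.1 hp).dvd_finsetProd_iff _).1 hd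
      exact ht'.2 p hp hpJ l hl
  · calc C1 * (M * Real.exp (-Sp (fun p => (rho (∏ i, G i) p : ℝ)) (z1 + z2) M))
        ≤ |C1| * (M * Real.exp (-Sp (fun p => (rho (∏ i, G i) p : ℝ)) (z1 + z2) M)) :=
          mul_le_mul_of_nonneg_right (le_abs_self _) (by positivity)
      _ ≤ |C1| * (M * (C2 / (Real.log M) ^ r)) :=
          mul_le_mul_of_nonneg_left (mul_le_mul_of_nonneg_left (hC2 M hM) hM0) (abs_nonneg _)
      _ = _ := by ring

end

/-- the linear forms with integer constants -/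
lemma irr_linZ {K : ℕ} (h : Fin K → ℤ) (hh : Function.Injective h) :
    Irr (fun l => (X - C (h l) : ℤ[X])) := by
  refine ⟨fun l => irreducible_X_sub_C _, fun l => ?_, fun l l' hll hass => hll (hh ?_)⟩
  · rw [natDegree_X_sub_C]
    exact one_pos
  · have h1 := hass.dvd
    have h2 : (X - C (h l') : ℤ[X]).eval (h l) = 0 := by
      obtain ⟨q, hq⟩ := h1
      rw [hq, eval_mul, eval_sub, eval_X, eval_C, sub_self, zero_mul]
    rw [eval_sub, eval_X, eval_C] at h2
    omega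

/-- a pencil `y² = x (x - D u₀) (x - D u₁)` of elliptic curves as in the project TR of helper841,
which is smooth at all integers -/
structure IsPen {n : Fin 3 → ℕ} (a : Fin 3 → ℤ) (f : ∀ k : Fin 3, Fin (n k) → ℤ[X]) (D : ℤ[X]) :
    Prop where
  ha : ∀ k, a k ≠ 0
  hf : Irr (fp f)
  hU : UP a f 0 - UP a f 1 = UP a f 2
  hD : D ≠ 0
  hDf : ∀ k i, ¬ f k i ∣ D
  hB : Bal D a f
  sm : ∀ (t : ℤ) (k : Fin 3), (D * UP a f k).eval t ≠ 0

section

variable {n : Fin 3 → ℕ} {a : Fin 3 → ℤ} {f : ∀ k : Fin 3, Fin (n k) → ℤ[X]} {D : ℤ[X]}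

lemma IsPen.evf (h : IsPen a f D) (k : Fin 3) (i : Fin (n k)) (t : ℤ) : (f k i).eval t ≠ 0 := by
  intro h0
  apply h.sm t k
  unfold UP
  rw [eval_mul, eval_mul, eval_prod, prod_eq_zero (mem_univ i) h0, mul_zero, mul_zero]

lemma IsPen.evD (h : IsPen a f D) (t : ℤ) : D.eval t ≠ 0 := by
  intro h0
  apply h.sm t 0
  rw [eval_mul, h0, zero_mul]

/-- the first moment of the 2-Selmer groups at the arguments `n + j`, `n` rough -/
lemma pen_bound (h : IsPen a f D) (j : ℤ) (H : Finset ℕ) (J L : ℕ) :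
    ∃ C : ℝ, 0 ≤ C ∧ ∀ x y : ℕ, 2 ≤ y → x + j.natAbs ≤ y ^ L → ∀ T ⊆ Ioc x (x + y),
      (∀ n ∈ T, ∀ p : ℕ, p.Prime → p ^ J ≤ y → ∀ h ∈ H, ¬ p ∣ n + h) →
      ∑ n ∈ T, SN ((D * UP a f 0).eval ((n : ℤ) + j)) ((D * UP a f 1).eval ((n : ℤ) + j)) ≤
        C * (y / (Real.log y) ^ H.card) := by
  classical
  set e : Fin H.card → ℤ := fun l => j - (((Finset.equivFin H).symm l).1 : ℤ) with he
  have hinj : Function.Injective e := fun a b hab => by
    have h1 : (((Finset.equivFin H).symm a).1 : ℤ) = ((Finset.equivFin H).symm b).1 := by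
      have h2 : j - (((Finset.equivFin H).symm a).1 : ℤ) =
        j - (((Finset.equivFin H).symm b).1 : ℤ) := hab
      omega
    exact (Finset.equivFin H).symm.injective (Subtype.ext (by exact_mod_cast h1))
  have hmem : ∀ l, ((Finset.equivFin H).symm l).1 ∈ H := fun l => Subtype.coe_prop _
  obtain ⟨C, hC0, hC⟩ := pen_rough (irr_linZ e hinj) a f h.ha h.hf h.hU
    (fun i k l hass => by
      obtain ⟨q, hq⟩ := hass.dvd
      have h1 := congrArg (Polynomial.eval (e i)) hq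
      obtain ⟨q', hq'⟩ := hass.symm.dvd
      apply h.evf k l (e i)
      rw [hq', eval_mul, eval_sub, eval_X, eval_C, sub_self, zero_mul]) D h.hD h.hDf
    (fun i hd => by
      obtain ⟨q, hq⟩ := hd
      apply h.evD (e i)
      rw [hq, eval_mul, eval_sub, eval_X, eval_C, sub_self, zero_mul]) h.hB L J
  refine ⟨C, hC0, fun x y hy hxy T hT hTT => ?_⟩
  have hinjc : Set.InjOn (fun n : ℕ => (n : ℤ) + j) T := fun a _ b _ hab => by
    have : (a : ℤ) + j = b + j := hab
    omega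
  have h1 := hC ((x : ℤ) + j) y hy (by
      have h2 : |(x : ℤ) + j| ≤ ((x + j.natAbs : ℕ) : ℤ) := by
        refine (abs_add_le _ _).trans ?_
        rw [Nat.abs_cast, Int.abs_eq_natAbs]
        push_cast
        exact le_rfl
      exact h2.trans (by exact_mod_cast hxy))
    (T.image (fun n : ℕ => (n : ℤ) + j)) ?_ ?_
  · rw [sum_image hinjc] at h1
    exact h1
  · intro t ht
    rw [mem_image] at ht
    obtain ⟨n, hn, rfl⟩ := ht
    have := mem_Ioc.1 (hT hn)
    rw [mem_Ioc]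
    omega
  · intro t ht
    rw [mem_image] at ht
    obtain ⟨n, hn, rfl⟩ := ht
    refine ⟨h.sm _, fun p hp hpJ l hl => ?_⟩
    rw [eval_sub, eval_X, eval_C] at hl
    refine hTT n hn p hp hpJ _ (hmem l) ?_
    have h2 : ((n : ℤ) + j - e l) = ((n + ((Finset.equivFin H).symm l).1 : ℕ) : ℤ) := by
      rw [he]
      push_cast
      ring
    rw [h2] at hl
    exact_mod_cast hl

end

end Pool.Agent.TH779.BS
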