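import Mathlib
import Pool.Agent.TH779.BS.Pen
import Pool.Agent.H295R3.Hoheisel

/-!
# Pencils of elliptic curves near clusters of primes and near the primes of short intervals
-/

set_option autoImplicit false

namespace Pool.Agent.TH779.BS

open Finset Polynomial

open Pool.Agent.TH841.PT (EQ bd_EQ)

open Pool.Agent.TH841.TR (UP Bal fp ne_three)

open Pool.Agent.W307.SE (SN SN_nonneg)

open Pool.Agent.TH841.SH (Bd)

section

variable {ι : Type} [Fintype ι] {n : ι → Fin 3 → ℕ} {a : ι → Fin 3 → ℤ}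
  {f : ∀ i : ι, ∀ k : Fin 3, Fin (n i k) → ℤ[X]} {D : ι → ℤ[X]}

open Classical in
/-- **few rough arguments have a bad neighbour**, in finitely many pencils -/
theorem few_badP (hP : ∀ i, IsPen (a i) (f i) (D i)) (b : ℕ) (H : Finset ℕ) (J L : ℕ) (c : ℝ)
    (hc : 0 < c) :
    ∃ R : ℝ, ∃ y₀ : ℕ, ∀ x y : ℕ, y₀ ≤ y → x ≤ y ^ L → ∀ S ⊆ Ioc x (x + y),
      (∀ n ∈ S, ∀ p : ℕ, p.Prime → p ^ J ≤ y → ∀ h ∈ H, ¬ p ∣ n + h) →
      ((S.filter (fun n : ℕ => ¬ ∀ t : ℤ, |t - n| ≤ b → ∀ i,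
        SN ((D i * UP (a i) (f i) 0).eval t) ((D i * UP (a i) (f i) 1).eval t) ≤ R)).card : ℝ) ≤
          c * (y / (Real.log y) ^ H.card) := by
  set I := ι × (Icc (-(b : ℤ)) b : Finset ℤ) with hI
  choose Cf hCf0 hCf using fun v : I => pen_bound (hP v.1) (v.2 : ℤ) H J (L + 1)
  set Ct : ℝ := ∑ v, Cf v with hCt
  have hCt0 : 0 ≤ Ct := sum_nonneg fun v _ => hCf0 v
  set R : ℝ := Ct / c + 1 with hR
  have hR0 : 0 < R := by positivity
  refine ⟨R, b + 3, fun x y hy hxy S hS hSn => ?_⟩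
  set Q : ℝ := y / (Real.log y) ^ H.card with hQ
  have hly : 0 < Real.log y := Real.log_pos (by exact_mod_cast (by omega : 1 < y))
  have hy0 : (0 : ℝ) < y := by exact_mod_cast (by omega : 0 < y)
  have hQ0 : 0 < Q := by positivity
  have hxb : ∀ v : I, x + (v.2 : ℤ).natAbs ≤ y ^ (L + 1) := by
    intro v
    have h1 := mem_Icc.1 v.2.2
    have h2 : (v.2 : ℤ).natAbs ≤ b := by omega
    have h3 : 1 ≤ y ^ L := Nat.one_le_pow _ _ (by omega)
    have h4 : y ^ (L + 1) = y * y ^ L := pow_succ' _ _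
    have h5 : (b + 2) * y ^ L ≤ y * y ^ L := Nat.mul_le_mul_right _ (by omega)
    have h6 : b ≤ b * y ^ L := Nat.le_mul_of_pos_right _ (by omega)
    nlinarith
  set sel : I → ℕ → ℝ := fun v m => SN ((D v.1 * UP (a v.1) (f v.1) 0).eval ((m : ℤ) + (v.2 : ℤ)))
    ((D v.1 * UP (a v.1) (f v.1) 1).eval ((m : ℤ) + (v.2 : ℤ))) with hsel
  set bad : I → Finset ℕ := fun v => S.filter (fun m => R < sel v m) with hbad
  have hbadc : ∀ v, ((bad v).card : ℝ) * R ≤ Cf v * Q := by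
    intro v
    have h1 := hCf v x y (by omega) (hxb v) (bad v) ((filter_subset _ _).trans hS)
      (fun m hm => hSn m (mem_filter.1 hm).1)
    refine le_trans ?_ h1
    rw [← nsmul_eq_mul]
    exact card_nsmul_le_sum _ _ _ fun m hm => (mem_filter.1 hm).2.le
  have hsub : S.filter (fun m : ℕ => ¬ ∀ t : ℤ, |t - m| ≤ b → ∀ i,
        SN ((D i * UP (a i) (f i) 0).eval t) ((D i * UP (a i) (f i) 1).eval t) ≤ R) ⊆
      univ.biUnion bad := by
    intro m hm
    rw [mem_filter] at hm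
    obtain ⟨hmS, hmb⟩ := hm
    by_contra hcon
    apply hmb
    intro t ht i
    by_contra hcon2
    push Not at hcon2
    apply hcon
    refine mem_biUnion.2 ⟨(i, ⟨t - (m : ℤ), mem_Icc.2 (abs_le.1 ht)⟩), mem_univ _,
      mem_filter.2 ⟨hmS, ?_⟩⟩
    have h2 : (m : ℤ) + (t - m) = t := by ring
    rw [hsel]
    simp only [h2]
    exact hcon2
  have h1 : ((univ.biUnion bad).card : ℝ) ≤ ∑ v, ((bad v).card : ℝ) := by
    exact_mod_cast card_biUnion_le
  have h2 : (∑ v, ((bad v).card : ℝ)) * R ≤ Ct * Q := by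
    rw [sum_mul, hCt, sum_mul]
    exact sum_le_sum fun v _ => hbadc v
  have h3 : (∑ v, ((bad v).card : ℝ)) ≤ Ct * Q / R := by
    rw [le_div_iff₀ hR0]
    exact h2
  have h4 : Ct * Q / R ≤ c * Q := by
    rw [div_le_iff₀ hR0]
    have h5 : c * Q * R = Ct * Q + c * Q := by
      rw [hR]
      field_simp
    rw [h5]
    have : 0 ≤ c * Q := by positivity
    linarith
  have h5 := (Nat.cast_le (α := ℝ)).2 (card_le_card hsub)
  exact h5.trans (h1.trans (h3.trans h4))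

open Classical in
/-- **clusters of primes near which all members of the pencils have small 2-Selmer groups** -/
theorem clustersP (m : ℕ) : ∃ K : ℕ, ∀ H : Finset ℕ, K ≤ H.card → Admis H →
    ∃ c : ℝ, 0 < c ∧ ∀ {ι : Type} [Fintype ι] {n : ι → Fin 3 → ℕ} {a : ι → Fin 3 → ℤ}
      {f : ∀ i : ι, ∀ k : Fin 3, Fin (n i k) → ℤ[X]} {D : ι → ℤ[X]},
      (∀ i, IsPen (a i) (f i) (D i)) → ∀ b : ℕ,
      ∃ R : ℝ, ∃ x₀ : ℕ, ∀ x : ℕ, x₀ ≤ x →
        c * (x / (Real.log x) ^ K) ≤ (((Ioc x (2 * x)).filter (fun n : ℕ =>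
          m ≤ (H.filter (fun h => (n + h).Prime)).card ∧
          ∀ t : ℤ, |t - n| ≤ b → ∀ i,
            SN ((D i * UP (a i) (f i) 0).eval t) ((D i * UP (a i) (f i) 1).eval t) ≤
              R)).card : ℝ) := by
  obtain ⟨K, hK⟩ := mt_lower m
  refine ⟨K, fun H hKH hadm => ?_⟩
  obtain ⟨H', hH', hH'c⟩ := Finset.exists_subset_card_eq hKH
  obtain ⟨J, c, hc, x1, hx1⟩ := hK H' hH'c (fun p hp => by
    obtain ⟨b, hb⟩ := hadm p hp
    exact ⟨b, fun h hh => hb h (hH' hh)⟩)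
  refine ⟨c / 2, by positivity, fun {ι} _ {n} {a} {f} {D} hP b => ?_⟩
  obtain ⟨R, y₀, hR⟩ := few_badP hP b H' J 1 (c / 2) (by positivity)
  refine ⟨R, max x1 y₀, fun x hx => ?_⟩
  obtain ⟨S, hS, hSc, hSn⟩ := hx1 x (by omega)
  have hbad := hR x x (by omega) (by rw [pow_one]) S (by rwa [two_mul] at hS)
    (fun n hn => (hSn n hn).2)
  rw [hH'c] at hbad
  set Bad := S.filter (fun n : ℕ => ¬ ∀ t : ℤ, |t - n| ≤ b → ∀ i,
            SN ((D i * UP (a i) (f i) 0).eval t) ((D i * UP (a i) (f i) 1).eval t) ≤ R) with hBad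
  have hsub : S \ Bad ⊆ (Ioc x (2 * x)).filter (fun n : ℕ =>
      m ≤ (H.filter (fun h => (n + h).Prime)).card ∧
      ∀ t : ℤ, |t - n| ≤ b → ∀ i,
            SN ((D i * UP (a i) (f i) 0).eval t) ((D i * UP (a i) (f i) 1).eval t) ≤ R) := by
    intro n hn
    rw [mem_sdiff] at hn
    obtain ⟨hnS, hnb⟩ := hn
    rw [mem_filter]
    refine ⟨hS hnS, (hSn n hnS).1.trans (card_le_card (filter_subset_filter _ hH')), ?_⟩
    by_contra hcon
    exact hnb (mem_filter.2 ⟨hnS, hcon⟩)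
  have hfin : (S.card : ℝ) ≤ ((S \ Bad).card : ℝ) + (Bad.card : ℝ) := by
    have h1 : S.card ≤ (S \ Bad).card + Bad.card := by
      have h2 : S ⊆ (S \ Bad) ∪ Bad := by
        intro n hn
        rw [mem_union, mem_sdiff]
        by_cases h : n ∈ Bad
        · exact Or.inr h
        · exact Or.inl ⟨hn, h⟩
      exact (card_le_card h2).trans (card_union_le _ _)
    exact_mod_cast h1
  have hcs := (Nat.cast_le (α := ℝ)).2 (card_le_card hsub)
  refine le_trans ?_ hcs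
  linarith

open Classical in
/-- **primes in short intervals near which all members of the pencils have small 2-Selmer
groups** -/
theorem shortP : ∃ δ η : ℝ, 0 < δ ∧ δ < 1 ∧ 0 < η ∧
    ∀ {ι : Type} [Fintype ι] {n : ι → Fin 3 → ℕ} {a : ι → Fin 3 → ℤ}
      {f : ∀ i : ι, ∀ k : Fin 3, Fin (n i k) → ℤ[X]} {D : ι → ℤ[X]},
      (∀ i, IsPen (a i) (f i) (D i)) → ∀ b : ℕ,
      ∃ R : ℝ, ∃ x₀ : ℕ, ∀ x y : ℕ, x₀ ≤ x → (x : ℝ) ^ (1 - δ) ≤ y → y ≤ x →
        η * (y / Real.log x) ≤ (((Ioc x (x + y)).filter (fun p : ℕ => p.Prime ∧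
          ∀ t : ℤ, |t - p| ≤ b → ∀ i,
            SN ((D i * UP (a i) (f i) 0).eval t) ((D i * UP (a i) (f i) 1).eval t) ≤
              R)).card : ℝ) := by
  obtain ⟨δ, η, hδ, hδ1, hη, X₀, hX₀, hH⟩ := Pool.Agent.H295R3.D.hoheisel
  refine ⟨δ, η / 2, hδ, hδ1, by positivity, fun {ι} _ {n} {a} {f} {D} hP b => ?_⟩
  have hδ2 : 0 < 1 - δ := by linarith
  set L : ℕ := ⌈1 / (1 - δ)⌉₊ with hL
  obtain ⟨R, y₀, hR⟩ := few_badP hP b {0} 1 L (η * (1 - δ) / 2) (by positivity)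
  -- the size of `y`
  have hev : ∃ x1 : ℕ, ∀ x : ℕ, x1 ≤ x → (y₀ : ℝ) + 2 ≤ (x : ℝ) ^ (1 - δ) := by
    have h1 : Filter.Tendsto (fun x : ℕ => (x : ℝ) ^ (1 - δ)) Filter.atTop Filter.atTop :=
      (tendsto_rpow_atTop hδ2).comp tendsto_natCast_atTop_atTop
    obtain ⟨x1, hx1⟩ := Filter.eventually_atTop.1 (h1.eventually_ge_atTop ((y₀ : ℝ) + 2))
    exact ⟨x1, hx1⟩
  obtain ⟨x1, hx1⟩ := hev
  refine ⟨R, max (max X₀ x1) 3, fun x y hx hxy hyx => ?_⟩
  have hxa : X₀ ≤ x := by omega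
  have hxb : x1 ≤ x := by omega
  have hxc : 3 ≤ x := by omega
  have hx0 : (0 : ℝ) < x := by exact_mod_cast (by omega : 0 < x)
  have hx1' : (1 : ℝ) < x := by exact_mod_cast (by omega : 1 < x)
  have hlx : 0 < Real.log x := Real.log_pos hx1'
  have hyr : (y₀ : ℝ) + 2 ≤ y := (hx1 x hxb).trans hxy
  have hy2 : y₀ + 2 ≤ y := by exact_mod_cast hyr
  have hy0 : (0 : ℝ) < y := by exact_mod_cast (by omega : 0 < y)
  have hly : (1 - δ) * Real.log x ≤ Real.log y := by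
    have h1 := Real.log_le_log (by positivity) hxy
    rwa [Real.log_rpow hx0] at h1
  have hxL : x ≤ y ^ L := by
    have h1 : (x : ℝ) ≤ (y : ℝ) ^ (L : ℝ) := by
      calc (x : ℝ) = ((x : ℝ) ^ (1 - δ)) ^ (1 / (1 - δ)) := by
            rw [← Real.rpow_mul hx0.le, mul_one_div_cancel hδ2.ne', Real.rpow_one]
        _ ≤ (y : ℝ) ^ (1 / (1 - δ)) := Real.rpow_le_rpow (by positivity) hxy (by positivity)
        _ ≤ (y : ℝ) ^ (L : ℝ) := Real.rpow_le_rpow_of_exponent_le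
            (by exact_mod_cast (by omega : 1 ≤ y)) (Nat.le_ceil _)
    rw [Real.rpow_natCast] at h1
    exact_mod_cast h1
  set S : Finset ℕ := (Ioc x (x + y)).filter Nat.Prime with hS
  have hSc := hH x y hxa hxy hyx
  have hbad := hR x y (by omega) hxL S (filter_subset _ _) (fun n hn p hp hpy h hh => by
    rw [mem_singleton] at hh
    subst hh
    rw [hS, mem_filter, mem_Ioc] at hn
    rw [pow_one] at hpy
    intro hd
    rw [Nat.add_zero] at hd
    have := (Nat.prime_dvd_prime_iff_eq hp hn.2).1 hd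
    omega)
  rw [card_singleton, pow_one] at hbad
  set Bad := S.filter (fun n : ℕ => ¬ ∀ t : ℤ, |t - n| ≤ b → ∀ i,
            SN ((D i * UP (a i) (f i) 0).eval t) ((D i * UP (a i) (f i) 1).eval t) ≤ R) with hBad
  have hbad2 : (Bad.card : ℝ) ≤ η / 2 * (y / Real.log x) := by
    refine hbad.trans ?_
    have h1 : y / Real.log y ≤ y / ((1 - δ) * Real.log x) :=
      div_le_div_of_nonneg_left hy0.le (by positivity) hly
    calc η * (1 - δ) / 2 * (y / Real.log y) ≤ η * (1 - δ) / 2 * (y / ((1 - δ) * Real.log x)) :=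
          mul_le_mul_of_nonneg_left h1 (by positivity)
      _ = η / 2 * (y / Real.log x) := by
          field_simp
  have hsub : S \ Bad ⊆ (Ioc x (x + y)).filter (fun p : ℕ => p.Prime ∧
      ∀ t : ℤ, |t - p| ≤ b → ∀ i,
            SN ((D i * UP (a i) (f i) 0).eval t) ((D i * UP (a i) (f i) 1).eval t) ≤ R) := by
    intro n hn
    rw [mem_sdiff] at hn
    obtain ⟨hnS, hnb⟩ := hn
    have hnS' := mem_filter.1 hnS
    rw [mem_filter]
    refine ⟨hnS'.1, hnS'.2, ?_⟩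
    by_contra hcon
    exact hnb (mem_filter.2 ⟨hnS, hcon⟩)
  have hfin : (S.card : ℝ) ≤ ((S \ Bad).card : ℝ) + (Bad.card : ℝ) := by
    have h1 : S.card ≤ (S \ Bad).card + Bad.card := by
      have h2 : S ⊆ (S \ Bad) ∪ Bad := by
        intro n hn
        rw [mem_union, mem_sdiff]
        by_cases h : n ∈ Bad
        · exact Or.inr h
        · exact Or.inl ⟨hn, h⟩
      exact (card_le_card h2).trans (card_union_le _ _)
    exact_mod_cast h1
  have hcs := (Nat.cast_le (α := ℝ)).2 (card_le_card hsub)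
  refine le_trans ?_ hcs
  have h3 : η * y / Real.log x = η / 2 * (y / Real.log x) + η / 2 * (y / Real.log x) := by ring
  linarith

end

/-- from the 2-Selmer group to the rank and the Tate-Shafarevich group -/
lemma IsPen.bd {n : Fin 3 → ℕ} {a : Fin 3 → ℤ} {f : ∀ k : Fin 3, Fin (n k) → ℤ[X]} {D : ℤ[X]}
    (h : IsPen a f D) {t : ℤ} {R : ℝ}
    (hR : SN ((D * UP a f 0).eval t) ((D * UP a f 1).eval t) ≤ R) :
    Bd (EQ ((D * UP a f 0).eval t) ((D * UP a f 1).eval t)) R := by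
  obtain ⟨h0, h1, h2⟩ := ne_three h.hU (h.sm t)
  have h3 := bd_EQ h0 h1 h2
  exact ⟨h3.1, h3.2.trans hR⟩

end Pool.Agent.TH779.BS
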