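import Mathlib
import Pool.Agent.TH464.PO.PolyExact
import Pool.Agent.TH779.BS.Main

/-!
# Local means at the almost prime values of polynomials
-/

set_option autoImplicit false

namespace Pool.Agent.TH779.BS

open Polynomial Finset Filter
open Pool.Agent.W123.RP Pool.Agent.H373R2.T7 Pool.Agent.W123.RU Pool.Agent.W123.RU.Poly
open Pool.Agent.TH464.PW
open Pool.Agent.TH464.PO

/-- the level of the sieve -/
noncomputable def lev (X r : ℕ) : ℕ := ⌊(X : ℝ) ^ (1 / (r : ℝ))⌋₊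

lemma le_lev {X r p : ℕ} (hr : 1 ≤ r) (h : p ^ r ≤ X) : p ≤ lev X r := by
  unfold lev
  refine Nat.le_floor ?_
  have hr0 : (r : ℝ) ≠ 0 := by positivity
  have h1 : (p : ℝ) ^ r ≤ X := by exact_mod_cast h
  calc (p : ℝ) = ((p : ℝ) ^ r) ^ (1 / (r : ℝ)) := by
        rw [← Real.rpow_natCast, ← Real.rpow_mul (Nat.cast_nonneg _), mul_one_div_cancel hr0,
          Real.rpow_one]
    _ ≤ (X : ℝ) ^ (1 / (r : ℝ)) := Real.rpow_le_rpow (by positivity) h1 (by positivity)

open Classical in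
/-- **local means** -/
theorem local_mean {k : ℕ} (hk : 1 ≤ k) (f : Fin k → ℤ[X]) (hf : Sys f) (hT : NoTr f) (θ : ℝ)
    (hθ : 0 < θ) (ε : ℝ) (hε : 0 < ε) :
    ∃ (K : ℝ) (r0 : ℕ), 0 < K ∧ 1 ≤ r0 ∧ ∀ r : ℕ, r0 ≤ r → ∀ w : ℕ → ℝ, (∀ m, 0 ≤ w m) →
      ∀ C1 : ℝ, 0 ≤ C1 → ∀ x1 : ℕ,
      (∀ X Y : ℕ, x1 ≤ X → (X : ℝ) ^ θ ≤ Y → Y ≤ X → ∀ T ⊆ Ioc X (X + Y),
        (∀ n ∈ T, Sf (Q f) (lev X r) n) →
        ∑ n ∈ T, w n ≤ C1 * (Y / (Real.log Y) ^ k)) →
      ∃ C : ℝ, 0 ≤ C ∧ ∀ᶠ X : ℕ in atTop, ∀ Y : ℕ, (X : ℝ) ^ θ ≤ Y → Y ≤ X →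
        (((Ioc X (X + Y)).filter (fun n => ¬ ∀ u v : ℕ, X ≤ u → u < n → n ≤ v → v ≤ X + Y →
          K ≤ ((v : ℝ) - u) * Vq (Q f) (lev X r) →
          |(((Ioc u v).filter (Sf (Q f) (lev X r))).card : ℝ) -
            (v - u) * Vq (Q f) (lev X r)| ≤ ε * ((v - u) * Vq (Q f) (lev X r)) ∧
          ∑ m ∈ (Ioc u v).filter (Sf (Q f) (lev X r)), w m ≤
            C * ((v - u) * Vq (Q f) (lev X r)))).card : ℝ) ≤ ε * Y := by
  haveI : Nonempty (Fin k) := ⟨⟨0, hk⟩⟩
  obtain ⟨K, r0, hK, hex⟩ := exact_poly f hf hT θ hθ (ε / 2) (by positivity)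
  obtain ⟨v0, Cv, hv0, _, hV⟩ := V_bounds f hf
  rw [Fintype.card_fin] at hV
  refine ⟨K, max r0 1, hK, le_max_right _ _, fun r hr w hw C1 hC1 x1 hmom => ?_⟩
  have hr1 : 1 ≤ r := (le_max_right _ _).trans hr
  have hrr : (0 : ℝ) < r := by exact_mod_cast hr1
  set C4 : ℝ := 1 / (θ ^ k * v0) with hC4
  have hC40 : 0 < C4 := by positivity
  set C : ℝ := 8 * C1 * C4 / ε + 1 with hC
  have hC0 : 0 < C := by positivity
  refine ⟨C, hC0.le, ?_⟩
  have hXr : Tendsto (fun X : ℕ => (X : ℝ)) atTop atTop := tendsto_natCast_atTop_atTop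
  have hlev : Tendsto (fun X : ℕ => (X : ℝ) ^ (1 / (r : ℝ))) atTop atTop :=
    (tendsto_rpow_atTop (by positivity)).comp hXr
  filter_upwards [hex r ((le_max_left _ _).trans hr), eventually_ge_atTop x1,
    hlev.eventually_ge_atTop 4, eventually_ge_atTop 16] with X hX hXx1 hX4 hX16
  intro Y hXY hYX
  have hXone : (1 : ℝ) < X := by exact_mod_cast (by omega : 1 < X)
  have hX0 : (0 : ℝ) < X := by linarith
  have hex' := (hX Y hXY hYX).1
  change (((Ioc X (X + Y)).filter (fun n => ¬ Exact (Sf (Q f) (lev X r))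
        (Vq (Q f) (lev X r)) K (ε / 2) X Y n)).card : ℝ) ≤ ε / 2 * Y at hex'
  set y : ℕ := lev X r with hy
  set V : ℝ := Vq (Q f) y with hVd
  have hy3 : 3 ≤ y := by
    rw [hy]
    unfold lev
    refine Nat.le_floor ?_
    push_cast
    linarith
  have hyX : (y : ℝ) ≤ X := by
    calc (y : ℝ) ≤ (X : ℝ) ^ (1 / (r : ℝ)) := Nat.floor_le (by positivity)
      _ ≤ (X : ℝ) ^ (1 : ℝ) := by
        refine Real.rpow_le_rpow_of_exponent_le hXone.le ?_
        rw [div_le_one hrr]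
        exact_mod_cast hr1
      _ = X := Real.rpow_one _
  have hlogy : 0 < Real.log y := Real.log_pos (by exact_mod_cast (by omega : 1 < y))
  have hlogyX : Real.log y ≤ Real.log X :=
    Real.log_le_log (by exact_mod_cast (by omega : 0 < y)) hyX
  have hlogX : 0 < Real.log X := hlogy.trans_le hlogyX
  have hY0 : (0 : ℝ) < Y := lt_of_lt_of_le (by positivity) hXY
  have hlogY : θ * Real.log X ≤ Real.log Y := by
    have h1 := Real.log_le_log (by positivity) hXY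
    rwa [Real.log_rpow hX0] at h1
  have hVlo : v0 / Real.log y ^ k ≤ V := (hV y hy3).1
  have hV0 : 0 < V := lt_of_lt_of_le (by positivity) hVlo
  have hlogk : 1 / (Real.log Y) ^ k ≤ C4 * V := by
    have h1 : (θ * Real.log y) ^ k ≤ (Real.log Y) ^ k :=
      pow_le_pow_left₀ (by positivity)
        ((mul_le_mul_of_nonneg_left hlogyX hθ.le).trans hlogY) k
    calc 1 / (Real.log Y) ^ k ≤ 1 / (θ * Real.log y) ^ k :=
          one_div_le_one_div_of_le (by positivity) h1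
      _ = C4 * (v0 / Real.log y ^ k) := by
          rw [hC4, mul_pow]
          field_simp
      _ ≤ C4 * V := mul_le_mul_of_nonneg_left hVlo hC40.le
  set rr : ℕ → ℝ := fun m => if Sf (Q f) y m then w m else 0 with hrr'
  have hrr0 : ∀ n, 0 ≤ rr n := by
    intro n
    rw [hrr']
    dsimp only
    split_ifs
    · exact hw n
    · exact le_rfl
  have hico : ∀ u v : ℕ, Ico (u + 1) (v + 1) = Ioc u v := by
    intro u v
    ext m
    rw [mem_Ico, mem_Ioc]
    omega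
  have hsumr : ∀ u v : ℕ, ∑ m ∈ Ico (u + 1) (v + 1), rr m =
      ∑ m ∈ (Ioc u v).filter (Sf (Q f) y), w m := by
    intro u v
    rw [hico, sum_filter]
  have htot : ∑ m ∈ Ico (X + 1) (X + Y + 1), rr m ≤ C1 * C4 * (V * Y) := by
    rw [hsumr]
    refine (hmom X Y hXx1 hXY hYX _ (filter_subset _ _) (fun n hn => (mem_filter.1 hn).2)).trans ?_
    have h2 : (Y : ℝ) / (Real.log Y) ^ k ≤ C4 * V * Y := by
      calc (Y : ℝ) / (Real.log Y) ^ k = 1 / (Real.log Y) ^ k * Y := by ring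
        _ ≤ C4 * V * Y := mul_le_mul_of_nonneg_right hlogk hY0.le
    calc C1 * ((Y : ℝ) / (Real.log Y) ^ k) ≤ C1 * (C4 * V * Y) :=
          mul_le_mul_of_nonneg_left h2 hC1
      _ = _ := by ring
  have hmx := max_both rr hrr0 (C * V) (by positivity) (X + 1) (X + Y + 1) (by omega)
  have hmx2 : ((MX rr (C * V) (X + 1) (X + Y + 1)).card : ℝ) ≤ ε / 2 * Y := by
    have h3 : C * V * ((MX rr (C * V) (X + 1) (X + Y + 1)).card : ℝ) ≤
        C * V * (ε / 2 * Y) := by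
      refine hmx.trans ?_
      have h4 : 4 * (C1 * C4) ≤ C * (ε / 2) := by
        rw [hC]
        have : (8 * C1 * C4 / ε + 1) * (ε / 2) = 4 * (C1 * C4) + ε / 2 := by
          field_simp
          ring
        rw [this]
        linarith
      calc 4 * ∑ m ∈ Ico (X + 1) (X + Y + 1), rr m ≤ 4 * (C1 * C4 * (V * Y)) :=
            mul_le_mul_of_nonneg_left htot (by norm_num)
        _ = 4 * (C1 * C4) * (V * Y) := by ring
        _ ≤ C * (ε / 2) * (V * Y) := mul_le_mul_of_nonneg_right h4 (by positivity)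
        _ = _ := by ring
    exact le_of_mul_le_mul_left h3 (by positivity)
  have hsub : (Ioc X (X + Y)).filter (fun n => ¬ ∀ u v : ℕ, X ≤ u → u < n → n ≤ v →
      v ≤ X + Y → K ≤ ((v : ℝ) - u) * V →
      |(((Ioc u v).filter (Sf (Q f) y)).card : ℝ) - (v - u) * V| ≤ ε * ((v - u) * V) ∧
        ∑ m ∈ (Ioc u v).filter (Sf (Q f) y), w m ≤ C * ((v - u) * V)) ⊆
      (Ioc X (X + Y)).filter (fun n => ¬ Exact (Sf (Q f) y) V K (ε / 2) X Y n) ∪
        MX rr (C * V) (X + 1) (X + Y + 1) := by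
    intro n hn
    rw [mem_filter] at hn
    obtain ⟨hnI, hnb⟩ := hn
    by_contra hcon
    rw [mem_union, not_or] at hcon
    obtain ⟨hc1, hc2⟩ := hcon
    apply hnb
    have hE : Exact (Sf (Q f) y) V K (ε / 2) X Y n := by
      by_contra h
      exact hc1 (mem_filter.2 ⟨hnI, h⟩)
    intro u v hu hun hnv hv hKV
    have huv : (0 : ℝ) < (v : ℝ) - u := by
      have : (u : ℝ) < v := by exact_mod_cast (by omega : u < v)
      linarith
    refine ⟨?_, ?_⟩
    · have h5 := hE u v hu hun hnv hv hKV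
      unfold Cc at h5
      refine h5.trans ?_
      have : 0 ≤ ((v : ℝ) - u) * V := by positivity
      nlinarith
    · by_contra h
      rw [not_le] at h
      apply hc2
      unfold MX
      rw [mem_Ioc] at hnI
      refine mem_filter.2 ⟨mem_Ico.2 (by omega), u + 1, v + 1, by omega, by omega, by omega,
        by omega, ?_⟩
      rw [hsumr]
      push_cast
      refine lt_of_le_of_lt (le_of_eq ?_) h
      ring
  have h6 : ((((Ioc X (X + Y)).filter (fun n => ¬ Exact (Sf (Q f) y) V K (ε / 2) X Y n) ∪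
        MX rr (C * V) (X + 1) (X + Y + 1)).card : ℕ) : ℝ) ≤ ε / 2 * Y + ε / 2 * Y := by
    have h7 := card_union_le ((Ioc X (X + Y)).filter (fun n => ¬ Exact (Sf (Q f) y) V K (ε / 2) X Y n))
      (MX rr (C * V) (X + 1) (X + Y + 1))
    have h8 := (Nat.cast_le (α := ℝ)).2 h7
    push_cast at h8
    linarith
  have h9 := (Nat.cast_le (α := ℝ)).2 (card_le_card hsub)
  linarith

end Pool.Agent.TH779.BS
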