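import Mathlib
import Pool.Agent.TH779.BS.Loc

/-!
# Tails of the Selmer groups near the almost prime values of polynomials, in all windows
-/

set_option autoImplicit false

namespace Pool.Agent.TH779.BS

open Polynomial Finset Filter
open Pool.Agent.W123.RP Pool.Agent.H373R2.T7 Pool.Agent.W123.RU Pool.Agent.W123.RU.Poly
open Pool.Agent.TH464.PW
open Pool.Agent.TH464.PO

open Pool.Agent.TH841.PT (Irr TwQ)

open Pool.Agent.W307.SE (SN SelR SN_nonneg)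

open Pool.Agent.TH841.SH (Bd)

lemma sys_irr {k : ℕ} {f : Fin k → ℤ[X]} (hf : Sys f) : Irr f := by
  refine ⟨hf.irr, hf.deg, fun i j hij has => hij (hf.inj ?_)⟩
  obtain ⟨u, hu⟩ := has
  obtain ⟨c, hc, hcu⟩ := Polynomial.isUnit_iff.1 u.isUnit
  rw [← hcu] at hu
  rcases Int.isUnit_iff.1 hc with h | h
  · rw [h, map_one, mul_one] at hu
    exact hu
  · exfalso
    have h1 := hf.lead i
    have h2 := hf.lead j
    rw [← hu, h, map_neg, map_one, mul_neg, mul_one, leadingCoeff_neg] at h2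
    omega

/-- the moments of the 2-Selmer groups at rough arguments -/
lemma mom_rough {r : ℕ} {G : Fin r → ℤ[X]} (hG : Irr G) {A B e1 e2 e3 : ℤ}
    (hE : 4 * A ^ 3 + 27 * B ^ 2 ≠ 0)
    (he : ∀ x : ℤ, x ^ 3 + A * x + B = (x - e1) * (x - e2) * (x - e3)) (P : ℤ[X]) (hP : P ≠ 0)
    (s J L : ℕ) :
    ∃ C : ℝ, 0 ≤ C ∧ ∀ x y : ℕ, 2 ≤ y → x ≤ y ^ L → ∀ T ⊆ Ioc x (x + y),
      (∀ n ∈ T, P.eval (n : ℤ) ≠ 0 ∧ ∀ p : ℕ, p.Prime → p ^ J ≤ y → ∀ i,
        ¬ (p : ℤ) ∣ (G i).eval (n : ℤ)) →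
      ∑ n ∈ T, ((SelR ((P.eval (n : ℤ)) ^ 2 * A) ((P.eval (n : ℤ)) ^ 3 * B)).ncard : ℝ) ^ s ≤
        C * (y / (Real.log y) ^ r) := by
  classical
  obtain ⟨z0, hz0⟩ := sel_rough hG hE he P hP s L J
  obtain ⟨C, hC0, hC⟩ := hz0 z0 le_rfl
  refine ⟨C, hC0, fun x y hy hxy T hT hTT => ?_⟩
  have hinjc : Set.InjOn (fun n : ℕ => (n : ℤ)) T := fun a _ b _ hab => by
    have : (a : ℤ) = b := hab
    exact_mod_cast this
  have h1 := hC (x : ℤ) y hy (by rw [Nat.abs_cast]; exact_mod_cast hxy)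
    (T.image (fun n : ℕ => (n : ℤ))) ?_ ?_
  · rw [sum_image hinjc] at h1
    exact h1
  · intro t ht
    rw [mem_image] at ht
    obtain ⟨n, hn, rfl⟩ := ht
    have := mem_Ioc.1 (hT hn)
    rw [mem_Ioc]
    omega
  · intro t ht
    rw [mem_image] at ht
    obtain ⟨n, hn, rfl⟩ := ht
    refine ⟨(hTT n hn).1, fun p hp _ hpJ hd => ?_⟩
    rw [eval_prod] at hd
    obtain ⟨l, _, hl⟩ := ((Nat.prime_iff_prime_int.1 hp).dvd_finsetProd_iff _).1 hd
    exact (hTT n hn).2 p hp hpJ l hl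

open Classical in
/-- **the tails in all windows**, twists by the values of polynomials -/
theorem tails {k : ℕ} (hk : 1 ≤ k) (f : Fin k → ℤ[X]) (hf : Sys f) (hT : NoTr f) (θ : ℝ)
    (hθ : 0 < θ) (ε : ℝ) (hε : 0 < ε) :
    ∃ (K : ℝ) (r0 : ℕ), 0 < K ∧ 1 ≤ r0 ∧ ∀ r : ℕ, r0 ≤ r →
      ∀ {ι : Type} [Fintype ι] (A B e₁ e₂ e₃ : ι → ℤ),
      (∀ i, 4 * A i ^ 3 + 27 * B i ^ 2 ≠ 0) →
      (∀ i, ∀ x : ℤ, x ^ 3 + A i * x + B i = (x - e₁ i) * (x - e₂ i) * (x - e₃ i)) →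
      ∀ D : ι → ℤ[X], (∀ i, D i ≠ 0) → ∀ b s : ℕ,
      ∃ C : ℝ, 0 ≤ C ∧ ∀ᶠ X : ℕ in atTop, ∀ Y : ℕ, (X : ℝ) ^ θ ≤ Y → Y ≤ X →
        (((Ioc X (X + Y)).filter (fun n => ¬ ∀ u v : ℕ, X ≤ u → u < n → n ≤ v → v ≤ X + Y →
          K ≤ ((v : ℝ) - u) * Vq (Q f) (lev X r) →
          |(((Ioc u v).filter (Sf (Q f) (lev X r))).card : ℝ) -
            (v - u) * Vq (Q f) (lev X r)| ≤ ε * ((v - u) * Vq (Q f) (lev X r)) ∧
          ∀ R : ℝ, 0 ≤ R → R ^ s * (((Ioc u v).filter (fun m : ℕ => Sf (Q f) (lev X r) m ∧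
            ¬ ∀ t : ℤ, |t - m| ≤ b → ∀ i, (D i).eval t ≠ 0 ∧
              Bd (TwQ (A i) (B i) ((D i).eval t)) R)).card : ℝ) ≤
            C * ((v - u) * Vq (Q f) (lev X r)))).card : ℝ) ≤ ε * Y := by
  obtain ⟨K, r0, hK, hr0, hex⟩ := local_mean hk f hf hT θ hθ ε hε
  refine ⟨K, r0, hK, hr0, fun r hr {ι} _ A B e₁ e₂ e₃ hE he D hD b s => ?_⟩
  have hr1 : 1 ≤ r := hr0.trans hr
  set L : ℕ := ⌈1 / θ⌉₊ with hL
  -- the polynomials
  set P : ι × (Icc (-(b : ℤ)) b : Finset ℤ) → ℤ[X] := fun y => (D y.1).comp (X + C (y.2 : ℤ))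
    with hP
  have hPne : ∀ y, P y ≠ 0 := fun y => comp_ne (hD y.1) _
  have hPev : ∀ y (n : ℕ), (P y).eval (n : ℤ) = (D y.1).eval ((n : ℤ) + y.2) := by
    intro y n
    rw [hP]
    dsimp only
    rw [eval_comp, eval_add, eval_X, eval_C]
  choose Cf hCf0 hCf using fun y => mom_rough (sys_irr hf) (hE y.1) (he y.1) (P y) (hPne y) s r L
  choose rt hrt using fun y => no_root (P y) (hPne y)
  set w : ℕ → ℝ := fun n => ∑ y, ((SelR (((P y).eval (n : ℤ)) ^ 2 * A y.1)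
    (((P y).eval (n : ℤ)) ^ 3 * B y.1)).ncard : ℝ) ^ s with hw
  have hw0 : ∀ m, 0 ≤ w m := fun m => sum_nonneg fun y _ => by positivity
  have hev2 : ∃ x2 : ℕ, ∀ x : ℕ, x2 ≤ x → (2 : ℝ) ≤ (x : ℝ) ^ θ := by
    have h1 : Tendsto (fun x : ℕ => (x : ℝ) ^ θ) atTop atTop :=
      (tendsto_rpow_atTop hθ).comp tendsto_natCast_atTop_atTop
    obtain ⟨x1, hx1⟩ := eventually_atTop.1 (h1.eventually_ge_atTop (2 : ℝ))
    exact ⟨x1, hx1⟩
  obtain ⟨x2, hx2⟩ := hev2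
  obtain ⟨C, hC0, hC⟩ := hex r hr w hw0 (∑ y, Cf y) (sum_nonneg fun y _ => hCf0 y)
    (max x2 (univ.sup rt + 1)) (by
      intro X Y hX hXY hYX T hTs hTT
      have hXa : x2 ≤ X := (le_max_left _ _).trans hX
      have hXb : univ.sup rt + 1 ≤ X := (le_max_right _ _).trans hX
      have hY2 : 2 ≤ Y := by exact_mod_cast (hx2 X hXa).trans hXY
      have hX1 : 1 ≤ X := by omega
      have hY1 : (1 : ℝ) ≤ Y := by exact_mod_cast (by omega : 1 ≤ Y)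
      have hXL : X ≤ Y ^ L := by
        have h1 : (X : ℝ) ≤ (Y : ℝ) ^ (L : ℝ) := by
          calc (X : ℝ) = ((X : ℝ) ^ θ) ^ (1 / θ) := by
                rw [← Real.rpow_mul (Nat.cast_nonneg _), mul_one_div_cancel hθ.ne', Real.rpow_one]
            _ ≤ (Y : ℝ) ^ (1 / θ) := Real.rpow_le_rpow (by positivity) hXY (by positivity)
            _ ≤ (Y : ℝ) ^ (L : ℝ) := Real.rpow_le_rpow_of_exponent_le hY1 (Nat.le_ceil _)
        rw [Real.rpow_natCast] at h1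
        exact_mod_cast h1
      rw [hw, sum_comm, sum_mul]
      refine sum_le_sum fun y _ => hCf y X Y hY2 hXL T hTs fun n hn => ⟨?_, ?_⟩
      · refine hrt y n ?_
        have h1 : rt y ≤ univ.sup rt := Finset.le_sup (f := rt) (mem_univ y)
        have h2 := (mem_Ioc.1 (hTs hn)).1
        omega
      · intro p hp hpr i hd
        refine hTT n hn p ?_ ⟨i, hd⟩
        unfold pz
        rw [mem_filter, mem_Icc]
        exact ⟨⟨hp.one_lt.le, le_lev hr1 (hpr.trans hYX)⟩, hp⟩)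
  refine ⟨C, hC0, ?_⟩
  filter_upwards [hC, eventually_ge_atTop (univ.sup rt + 1)] with X hX hXrt
  intro Y hXY hYX
  refine le_trans ?_ (hX Y hXY hYX)
  refine Nat.cast_le.2 (card_le_card ?_)
  intro n hn
  rw [mem_filter] at hn ⊢
  refine ⟨hn.1, fun hall => hn.2 fun u v hu hun hnv hv hKV => ?_⟩
  obtain ⟨h1, h2⟩ := hall u v hu hun hnv hv hKV
  refine ⟨h1, fun R hR => le_trans ?_ h2⟩
  set F := (Ioc u v).filter (fun m : ℕ => Sf (Q f) (lev X r) m ∧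
            ¬ ∀ t : ℤ, |t - m| ≤ b → ∀ i, (D i).eval t ≠ 0 ∧
              Bd (TwQ (A i) (B i) ((D i).eval t)) R) with hF
  have hFw : ∀ m ∈ F, R ^ s ≤ w m := by
    intro m hm
    rw [hF, mem_filter, mem_Ioc] at hm
    obtain ⟨hmI, hmS, hmb⟩ := hm
    by_contra hcon
    rw [not_le] at hcon
    apply hmb
    intro t ht i
    set y : ι × (Icc (-(b : ℤ)) b : Finset ℤ) := (i, ⟨t - (m : ℤ), mem_Icc.2 (abs_le.1 ht)⟩)
      with hy
    have hyev : (P y).eval (m : ℤ) = (D i).eval t := by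
      rw [hPev, hy]
      congr 1
      change (m : ℤ) + (t - (m : ℤ)) = t
      ring
    have hne : (D i).eval t ≠ 0 := by
      rw [← hyev]
      refine hrt y m ?_
      have h3 : rt y ≤ univ.sup rt := Finset.le_sup (f := rt) (mem_univ y)
      omega
    refine ⟨hne, ?_⟩
    have h4 : ((SelR (((D i).eval t) ^ 2 * A i) (((D i).eval t) ^ 3 * B i)).ncard : ℝ) ^ s ≤
        w m := by
      have h5 := single_le_sum (f := fun y : ι × (Icc (-(b : ℤ)) b : Finset ℤ) =>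
        ((SelR (((P y).eval (m : ℤ)) ^ 2 * A y.1)
          (((P y).eval (m : ℤ)) ^ 3 * B y.1)).ncard : ℝ) ^ s) (fun y _ => by positivity)
        (mem_univ y)
      rw [hyev] at h5
      exact h5
    have h6 : ((SelR (((D i).eval t) ^ 2 * A i) (((D i).eval t) ^ 3 * B i)).ncard : ℝ) ≤ R := by
      by_contra h7
      rw [not_le] at h7
      have h8 := pow_le_pow_left₀ hR h7.le s
      linarith
    have h9 : Bd (TwQ (A i) (B i) ((D i).eval t))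
        ((SelR (((D i).eval t) ^ 2 * A i) (((D i).eval t) ^ 3 * B i)).ncard : ℝ) :=
      Pool.Agent.TH841.SH.bd_selR (Pool.Agent.TH639.SL.disc_tw hne (hE i))
        (Pool.Agent.TH639.SL.roots_tw (he i) _) (Pool.Agent.TH639.SL.sel_tw (hE i) (he i) hne).1
    exact ⟨h9.1, h9.2.trans h6⟩
  calc R ^ s * (F.card : ℝ) = ∑ _m ∈ F, R ^ s := by
        rw [sum_const, nsmul_eq_mul, mul_comm]
    _ ≤ ∑ m ∈ F, w m := sum_le_sum hFw
    _ ≤ ∑ m ∈ (Ioc u v).filter (Sf (Q f) (lev X r)), w m := by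
        refine sum_le_sum_of_subset_of_nonneg ?_ (fun m _ _ => hw0 m)
        intro m hm
        rw [hF, mem_filter] at hm
        exact mem_filter.2 ⟨hm.1, hm.2.1⟩

end Pool.Agent.TH779.BS
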