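import Mathlib
import Pool.Agent.TH464.PO.MaxW
import Pool.Agent.TH779.BS.Tail
import Pool.Agent.TH779.BS.PenC

/-!
# The growth of the ranks in pencils, at prime constellations around typical integers
-/

set_option autoImplicit false

namespace Pool.Agent.TH779.BS

open Polynomial Finset Filter
open Pool.Agent.TH464.PO

open Pool.Agent.TH841.PT (EQ)

open Pool.Agent.TH841.TR (UP)

open Pool.Agent.TH841.SH (Bd)

open Pool.Agent.W307.SE (SN SN_nonneg)

open Classical in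
/-- the maximal inequality for the values of a weight, with the distances -/
lemma max_win (w : ℕ → ℝ) (hw0 : ∀ m, 0 ≤ w m) (N Y : ℕ) (τ K : ℝ) (hτ : 0 < τ)
    (hK : ∑ m ∈ Ioc N (N + Y), w m ≤ K) :
    τ * (((Ioc N (N + Y)).filter (fun n : ℕ => ¬ ∀ m : ℕ, N < m → m ≤ N + Y →
      w m ≤ τ * (1 + |(m : ℝ) - n|))).card : ℝ) ≤ 4 * K := by
  have hico : ∀ u v : ℕ, Ico (u + 1) (v + 1) = Ioc u v := by
    intro u v
    ext m
    rw [mem_Ico, mem_Ioc]
    omega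
  have hmx := max_both w hw0 τ hτ (N + 1) (N + Y + 1) (by omega)
  rw [hico] at hmx
  have hsub : (Ioc N (N + Y)).filter (fun n : ℕ => ¬ ∀ m : ℕ, N < m → m ≤ N + Y →
      w m ≤ τ * (1 + |(m : ℝ) - n|)) ⊆ MX w τ (N + 1) (N + Y + 1) := by
    intro n hn
    rw [mem_filter, mem_Ioc] at hn
    obtain ⟨hnI, hnb⟩ := hn
    by_contra hcon
    apply hnb
    intro t ht1 ht2
    have hwin : ∑ m ∈ Ico (min n t) (max n t + 1), w m ≤ τ * (1 + |(t : ℝ) - n|) := by
      by_contra h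
      rw [not_le] at h
      apply hcon
      unfold MX
      refine mem_filter.2 ⟨mem_Ico.2 (by omega), min n t, max n t + 1, by omega, by omega,
        by omega, by omega, ?_⟩
      refine lt_of_le_of_lt (le_of_eq ?_) h
      push_cast
      rcases le_total n t with h5 | h5
      · have h6 : (n : ℝ) ≤ t := by exact_mod_cast h5
        rw [max_eq_right h6, min_eq_left h6, abs_of_nonneg (by linarith)]
        ring
      · have h6 : (t : ℝ) ≤ n := by exact_mod_cast h5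
        rw [max_eq_left h6, min_eq_right h6, abs_of_nonpos (by linarith)]
        ring
    exact (single_le_sum (f := w) (fun m _ => hw0 m) (mem_Ico.2 (by omega))).trans hwin
  have h1 := (Nat.cast_le (α := ℝ)).2 (card_le_card hsub)
  calc τ * _ ≤ τ * ((MX w τ (N + 1) (N + Y + 1)).card : ℝ) :=
        mul_le_mul_of_nonneg_left h1 hτ.le
    _ ≤ _ := hmx
    _ ≤ _ := mul_le_mul_of_nonneg_left hK (by norm_num)

open Classical in
/-- **the growth around typical integers, at prime constellations**, pencils -/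
theorem growthP {ι : Type} [Fintype ι] {n : ι → Fin 3 → ℕ} {a : ι → Fin 3 → ℤ}
    {f : ∀ i : ι, ∀ k : Fin 3, Fin (n i k) → ℤ[X]} {D : ι → ℤ[X]}
    (hP : ∀ i, IsPen (a i) (f i) (D i)) (H : Finset ℕ) (b : ℕ) (θ ε : ℝ) (hθ : 0 < θ)
    (hε : 0 < ε) :
    ∃ C : ℝ, 0 ≤ C ∧ ∀ᶠ N : ℕ in atTop, ∀ Y : ℕ, (N : ℝ) ^ θ ≤ Y → Y ≤ N →
      (((Ioc N (N + Y)).filter (fun n : ℕ => ¬ ∀ m : ℕ, N < m → m ≤ N + Y →
        (∀ h ∈ H, (m + h).Prime) → ∀ t : ℤ, |t - m| ≤ b → ∀ i,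
        Bd (EQ ((D i * UP (a i) (f i) 0).eval t) ((D i * UP (a i) (f i) 1).eval t))
          (C * (1 + |(m : ℝ) - n|)))).card : ℝ) ≤ ε * (Y / (Real.log Y) ^ H.card) := by
  set L : ℕ := ⌈1 / θ⌉₊ with hL
  set I := ι × (Icc (-(b : ℤ)) b : Finset ℤ) with hI
  choose Cf hCf0 hCf using fun v : I => pen_bound (hP v.1) (v.2 : ℤ) H 1 (L + 1)
  set sel : ℕ → ℝ := fun m => ∑ v : I,
    SN ((D v.1 * UP (a v.1) (f v.1) 0).eval ((m : ℤ) + (v.2 : ℤ)))
    ((D v.1 * UP (a v.1) (f v.1) 1).eval ((m : ℤ) + (v.2 : ℤ))) with hsel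
  have hsel0 : ∀ m, 0 ≤ sel m := fun m => sum_nonneg fun v _ => SN_nonneg _ _
  set w : ℕ → ℝ := fun m => if ∀ h ∈ H, (m + h).Prime then sel m else 0 with hw
  have hw0 : ∀ m, 0 ≤ w m := by
    intro m
    rw [hw]
    dsimp only
    split_ifs
    · exact hsel0 m
    · exact le_rfl
  set C1 : ℝ := ∑ v, Cf v with hC1
  have hC10 : 0 ≤ C1 := sum_nonneg fun v _ => hCf0 v
  set τ : ℝ := 4 * C1 / ε + 1 with hτ
  have hτ0 : 0 < τ := by positivity
  refine ⟨τ, hτ0.le, ?_⟩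
  have hlim : Tendsto (fun x : ℕ => (x : ℝ) ^ θ) atTop atTop :=
    (tendsto_rpow_atTop hθ).comp tendsto_natCast_atTop_atTop
  filter_upwards [hlim.eventually_ge_atTop ((b : ℝ) + 3)] with N hN
  intro Y hNY hYN
  have hYb : b + 3 ≤ Y := by exact_mod_cast hN.trans hNY
  have hY1 : (1 : ℝ) ≤ Y := by exact_mod_cast (by omega : 1 ≤ Y)
  have hNL : N ≤ Y ^ L := by
    have h1 : (N : ℝ) ≤ (Y : ℝ) ^ (L : ℝ) := by
      calc (N : ℝ) = ((N : ℝ) ^ θ) ^ (1 / θ) := by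
            rw [← Real.rpow_mul (Nat.cast_nonneg _), mul_one_div_cancel hθ.ne', Real.rpow_one]
        _ ≤ (Y : ℝ) ^ (1 / θ) := Real.rpow_le_rpow (by positivity) hNY (by positivity)
        _ ≤ (Y : ℝ) ^ (L : ℝ) := Real.rpow_le_rpow_of_exponent_le hY1 (Nat.le_ceil _)
    rw [Real.rpow_natCast] at h1
    exact_mod_cast h1
  have hxb : ∀ v : I, N + (v.2 : ℤ).natAbs ≤ Y ^ (L + 1) := by
    intro v
    have h1 := mem_Icc.1 v.2.2
    have h2 : (v.2 : ℤ).natAbs ≤ b := by omega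
    have h3 : 1 ≤ Y ^ L := Nat.one_le_pow _ _ (by omega)
    have h4 : Y ^ (L + 1) = Y * Y ^ L := pow_succ' _ _
    have h5 : (b + 2) * Y ^ L ≤ Y * Y ^ L := Nat.mul_le_mul_right _ (by omega)
    have h6 : b ≤ b * Y ^ L := Nat.le_mul_of_pos_right _ (by omega)
    nlinarith
  set Q : ℝ := Y / (Real.log Y) ^ H.card with hQ
  have hly : 0 < Real.log Y := Real.log_pos (by exact_mod_cast (by omega : 1 < Y))
  have hQ0 : 0 ≤ Q := by positivity
  have htot : ∑ m ∈ Ioc N (N + Y), w m ≤ C1 * Q := by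
    rw [hw, ← sum_filter, hsel, sum_comm, hC1, sum_mul]
    refine sum_le_sum fun v _ => ?_
    refine hCf v N Y (by omega) (hxb v) _ (filter_subset _ _) (fun m hm p hp hpY h hh hd => ?_)
    rw [mem_filter, mem_Ioc] at hm
    rw [pow_one] at hpY
    have h1 := (Nat.prime_dvd_prime_iff_eq hp (hm.2 h hh)).1 hd
    omega
  have hmx := max_win w hw0 N Y τ (C1 * Q) hτ0 htot
  have hfin : (((Ioc N (N + Y)).filter (fun n : ℕ => ¬ ∀ m : ℕ, N < m → m ≤ N + Y →
      w m ≤ τ * (1 + |(m : ℝ) - n|))).card : ℝ) ≤ ε * Q := by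
    refine le_of_mul_le_mul_left (hmx.trans ?_) hτ0
    have h4 : 4 * C1 ≤ τ * ε := by
      rw [hτ]
      have : (4 * C1 / ε + 1) * ε = 4 * C1 + ε := by field_simp
      rw [this]
      linarith
    calc 4 * (C1 * Q) = 4 * C1 * Q := by ring
      _ ≤ τ * ε * Q := mul_le_mul_of_nonneg_right h4 hQ0
      _ = _ := by ring
  refine le_trans (Nat.cast_le.2 (card_le_card ?_)) hfin
  intro k hk
  rw [mem_filter] at hk ⊢
  refine ⟨hk.1, fun hall => hk.2 fun m hm1 hm2 hmp t ht i => ?_⟩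
  have h1 := hall m hm1 hm2
  rw [hw] at h1
  dsimp only at h1
  rw [if_pos hmp] at h1
  refine (hP i).bd (le_trans ?_ h1)
  have h4 := single_le_sum (f := fun v : I =>
      SN ((D v.1 * UP (a v.1) (f v.1) 0).eval ((m : ℤ) + (v.2 : ℤ)))
        ((D v.1 * UP (a v.1) (f v.1) 1).eval ((m : ℤ) + (v.2 : ℤ)))) (fun v _ => SN_nonneg _ _)
      (mem_univ (i, ⟨t - (m : ℤ), mem_Icc.2 (abs_le.1 ht)⟩))
  have h5 : (m : ℤ) + (t - m) = t := by ring
  simp only [h5] at h4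
  exact h4

end Pool.Agent.TH779.BS
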