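import Mathlib
import Pool.Agent.TH779.BS.Tail
import Pool.Agent.TH779.BS.GrowP

/-!
# The growth of the ranks of twists around typical integers, at the arguments where polynomials
take prime values
-/

set_option autoImplicit false

namespace Pool.Agent.TH779.BS

open Polynomial Finset Filter
open Pool.Agent.TH464.PO

open Pool.Agent.TH841.PT (Irr TwQ)

open Pool.Agent.W307.SE (SelR)

open Pool.Agent.TH841.SH (Bd)

/-- the values of a nonconstant polynomial are not small -/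
lemma big_val (G : ℤ[X]) (hG : 0 < G.natDegree) :
    ∃ x1 : ℕ, ∀ m : ℕ, x1 < m → m < ((G.eval (m : ℤ)).natAbs) ^ 2 := by
  set P : ℝ[X] := G.map (Int.castRingHom ℝ) with hP
  have hdeg : P.natDegree = G.natDegree :=
    natDegree_map_eq_of_injective (RingHom.injective_int _) G
  have hlead : P.leadingCoeff = (G.leadingCoeff : ℝ) := by
    rw [hP, leadingCoeff_map_of_injective (RingHom.injective_int _)]
    rfl
  have hl1 : (1 : ℝ) ≤ |P.leadingCoeff| := by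
    rw [hlead, ← Int.cast_abs]
    have h1 : G.leadingCoeff ≠ 0 := leadingCoeff_ne_zero.2 (by rintro rfl; simp at hG)
    exact_mod_cast Int.one_le_abs h1
  obtain ⟨c, hc⟩ := (P.isEquivalent_atTop_lead).isBigO_symm.bound
  obtain ⟨x0, hx0⟩ := eventually_atTop.1 hc
  refine ⟨max ⌈x0⌉₊ (max 1 ⌈(|c| + 1) ^ 2⌉₊), fun m hm => ?_⟩
  have hm1 : (1 : ℝ) ≤ m := by exact_mod_cast (by omega : 1 ≤ m)
  have hmx : x0 ≤ m := (Nat.le_ceil _).trans (by exact_mod_cast (by omega : ⌈x0⌉₊ ≤ m))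
  have hmc : (|c| + 1) ^ 2 < m := lt_of_le_of_lt (Nat.le_ceil _)
    (by exact_mod_cast (by omega : ⌈(|c| + 1) ^ 2⌉₊ < m))
  have h1 := hx0 (m : ℝ) hmx
  have h2 : P.eval (m : ℝ) = ((G.eval (m : ℤ) : ℤ) : ℝ) := by
    rw [hP, eval_map, ← Int.cast_natCast (R := ℝ) m]
    exact eval₂_at_intCast _ _ |>.trans rfl
  rw [Real.norm_eq_abs, Real.norm_eq_abs, abs_mul, abs_pow, Nat.abs_cast, h2] at h1
  have h3 : (m : ℝ) ≤ (m : ℝ) ^ P.natDegree :=
    le_self_pow₀ hm1 (by rw [hdeg]; omega)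
  set g : ℝ := |((G.eval (m : ℤ) : ℤ) : ℝ)| with hg
  have hg0 : 0 ≤ g := abs_nonneg _
  have h4 : (m : ℝ) ≤ (|c| + 1) * g := by
    calc (m : ℝ) ≤ (m : ℝ) ^ P.natDegree := h3
      _ ≤ |P.leadingCoeff| * (m : ℝ) ^ P.natDegree := le_mul_of_one_le_left (by positivity) hl1
      _ ≤ c * g := h1
      _ ≤ _ := mul_le_mul_of_nonneg_right (by linarith [le_abs_self c]) hg0
  have h5 : (m : ℝ) ^ 2 ≤ (|c| + 1) ^ 2 * g ^ 2 := by
    rw [← mul_pow]
    exact pow_le_pow_left₀ (by positivity) h4 2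
  have h6 : (m : ℝ) < g ^ 2 := by
    have h7 : (0 : ℝ) < (|c| + 1) ^ 2 := by positivity
    have h8 : (|c| + 1) ^ 2 * (m : ℝ) < (|c| + 1) ^ 2 * g ^ 2 := by
      refine lt_of_lt_of_le ?_ h5
      rw [sq (m : ℝ)]
      exact mul_lt_mul_of_pos_right hmc (by positivity)
    exact lt_of_mul_lt_mul_left h8 h7.le
  have h9 : g = ((G.eval (m : ℤ)).natAbs : ℝ) := by
    rw [hg, ← Int.cast_abs, Nat.cast_natAbs]
  rw [h9] at h6
  exact_mod_cast h6

open Classical in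
/-- **the growth around typical integers, at the arguments with prime values** -/
theorem growthG {ι : Type} [Fintype ι] (A B e₁ e₂ e₃ : ι → ℤ)
    (hE : ∀ i, 4 * A i ^ 3 + 27 * B i ^ 2 ≠ 0)
    (he : ∀ i, ∀ x : ℤ, x ^ 3 + A i * x + B i = (x - e₁ i) * (x - e₂ i) * (x - e₃ i))
    (D : ι → ℤ[X]) (hD : ∀ i, D i ≠ 0) {r : ℕ} {G : Fin r → ℤ[X]} (hG : Irr G) (b : ℕ)
    (θ δ ε : ℝ) (hθ : 0 < θ) (hδ : 0 < δ) (hε : 0 < ε) :
    ∃ C : ℝ, 0 ≤ C ∧ ∀ᶠ N : ℕ in atTop, ∀ Y : ℕ, (N : ℝ) ^ θ ≤ Y → Y ≤ N →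
      (((Ioc N (N + Y)).filter (fun n : ℕ => ¬ ∀ m : ℕ, N < m → m ≤ N + Y →
        (∀ j, ((G j).eval (m : ℤ)).natAbs.Prime) → ∀ t : ℤ, |t - m| ≤ b → ∀ i,
        (D i).eval t ≠ 0 ∧ Bd (TwQ (A i) (B i) ((D i).eval t))
          (C * (1 + |(m : ℝ) - n|) ^ δ))).card : ℝ) ≤ ε * (Y / (Real.log Y) ^ r) := by
  set L : ℕ := ⌈1 / θ⌉₊ with hL
  set s : ℕ := ⌈1 / δ⌉₊ with hs
  have hs1 : 1 / δ ≤ s := Nat.le_ceil _
  have hs0 : (0 : ℝ) < s := lt_of_lt_of_le (by positivity) hs1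
  have hsne : s ≠ 0 := by
    intro h
    rw [h] at hs0
    norm_num at hs0
  have hsδ : 1 / (s : ℝ) ≤ δ := by
    rw [div_le_iff₀ hs0]
    rw [div_le_iff₀ hδ] at hs1
    linarith
  set I := ι × (Icc (-(b : ℤ)) b : Finset ℤ) with hI
  set P : I → ℤ[X] := fun v => (D v.1).comp (X + C (v.2 : ℤ)) with hPdef
  have hPne : ∀ v : I, P v ≠ 0 := fun v => comp_ne (hD v.1) _
  choose Cf hCf0 hCf using fun v : I => mom_rough hG (hE v.1) (he v.1) (P v) (hPne v) s 2 L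
  choose rt hrt using fun v => no_root (P v) (hPne v)
  choose bg hbg using fun j => big_val (G j) (hG.2 j)
  set sel : ℕ → ℝ := fun m => ∑ v : I, ((SelR (((P v).eval (m : ℤ)) ^ 2 * A v.1)
    (((P v).eval (m : ℤ)) ^ 3 * B v.1)).ncard : ℝ) ^ s with hsel
  have hsel0 : ∀ m, 0 ≤ sel m := fun m => sum_nonneg fun y _ => by positivity
  set w : ℕ → ℝ := fun m => if ∀ j, ((G j).eval (m : ℤ)).natAbs.Prime then sel m else 0 with hw
  have hw0 : ∀ m, 0 ≤ w m := by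
    intro m
    rw [hw]
    dsimp only
    split_ifs
    · exact hsel0 m
    · exact le_rfl
  set C1 : ℝ := ∑ v, Cf v with hC1
  have hC10 : 0 ≤ C1 := sum_nonneg fun v _ => hCf0 v
  set τ : ℝ := 4 * C1 / ε + 1 with hτ
  have hτ0 : 0 < τ := by positivity
  refine ⟨τ ^ (1 / (s : ℝ)), by positivity, ?_⟩
  have hlim : Tendsto (fun x : ℕ => (x : ℝ) ^ θ) atTop atTop :=
    (tendsto_rpow_atTop hθ).comp tendsto_natCast_atTop_atTop
  filter_upwards [hlim.eventually_ge_atTop (2 : ℝ), eventually_ge_atTop (univ.sup rt + 1),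
    eventually_ge_atTop (univ.sup bg + 1)] with N hN hNrt hNbg
  intro Y hNY hYN
  have hY2 : 2 ≤ Y := by exact_mod_cast hN.trans hNY
  have hY1 : (1 : ℝ) ≤ Y := by exact_mod_cast (by omega : 1 ≤ Y)
  have hNL : N ≤ Y ^ L := by
    have h1 : (N : ℝ) ≤ (Y : ℝ) ^ (L : ℝ) := by
      calc (N : ℝ) = ((N : ℝ) ^ θ) ^ (1 / θ) := by
            rw [← Real.rpow_mul (Nat.cast_nonneg _), mul_one_div_cancel hθ.ne', Real.rpow_one]
        _ ≤ (Y : ℝ) ^ (1 / θ) := Real.rpow_le_rpow (by positivity) hNY (by positivity)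
        _ ≤ (Y : ℝ) ^ (L : ℝ) := Real.rpow_le_rpow_of_exponent_le hY1 (Nat.le_ceil _)
    rw [Real.rpow_natCast] at h1
    exact_mod_cast h1
  have hne : ∀ m ∈ Ioc N (N + Y), ∀ v, (P v).eval (m : ℤ) ≠ 0 := by
    intro m hm v
    refine hrt v m ?_
    have h1 : rt v ≤ univ.sup rt := Finset.le_sup (f := rt) (mem_univ v)
    have h2 := (mem_Ioc.1 hm).1
    omega
  set Q : ℝ := Y / (Real.log Y) ^ r with hQ
  have hly : 0 < Real.log Y := Real.log_pos (by exact_mod_cast (by omega : 1 < Y))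
  have hQ0 : 0 ≤ Q := by positivity
  have htot : ∑ m ∈ Ioc N (N + Y), w m ≤ C1 * Q := by
    rw [hw, ← sum_filter, hsel, sum_comm, hC1, sum_mul]
    refine sum_le_sum fun v _ => ?_
    refine hCf v N Y hY2 hNL _ (filter_subset _ _) (fun m hm => ?_)
    rw [mem_filter] at hm
    refine ⟨hne m hm.1 v, fun p hp hpY j hd => ?_⟩
    have h1 : p ∣ ((G j).eval (m : ℤ)).natAbs := Int.natCast_dvd.1 hd
    have h2 := (Nat.prime_dvd_prime_iff_eq hp (hm.2 j)).1 h1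
    have h3 : bg j ≤ univ.sup bg := Finset.le_sup (f := bg) (mem_univ j)
    have h4 := (mem_Ioc.1 hm.1).1
    have h5 := hbg j m (by omega)
    rw [← h2] at h5
    omega
  have hmx := max_win w hw0 N Y τ (C1 * Q) hτ0 htot
  have hfin : (((Ioc N (N + Y)).filter (fun n : ℕ => ¬ ∀ m : ℕ, N < m → m ≤ N + Y →
      w m ≤ τ * (1 + |(m : ℝ) - n|))).card : ℝ) ≤ ε * Q := by
    refine le_of_mul_le_mul_left (hmx.trans ?_) hτ0
    have h4 : 4 * C1 ≤ τ * ε := by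
      rw [hτ]
      have : (4 * C1 / ε + 1) * ε = 4 * C1 + ε := by field_simp
      rw [this]
      linarith
    calc 4 * (C1 * Q) = 4 * C1 * Q := by ring
      _ ≤ τ * ε * Q := mul_le_mul_of_nonneg_right h4 hQ0
      _ = _ := by ring
  refine le_trans (Nat.cast_le.2 (card_le_card ?_)) hfin
  intro k hk
  rw [mem_filter] at hk ⊢
  refine ⟨hk.1, fun hall => hk.2 fun m hm1 hm2 hmp t ht i => ?_⟩
  have h1 := hall m hm1 hm2
  rw [hw] at h1
  dsimp only at h1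
  rw [if_pos hmp] at h1
  set v : I := (i, ⟨t - (m : ℤ), mem_Icc.2 (abs_le.1 ht)⟩) with hv
  have hPv : (P v).eval (m : ℤ) = (D i).eval t := by
    rw [hPdef]
    simp only [hv, eval_comp, eval_add, eval_X, eval_C]
    congr 1
    ring
  have hne' : (D i).eval t ≠ 0 := by
    rw [← hPv]
    exact hne m (mem_Ioc.2 ⟨hm1, hm2⟩) v
  refine ⟨hne', ?_⟩
  have h4 := single_le_sum (f := fun v : I => ((SelR (((P v).eval (m : ℤ)) ^ 2 * A v.1)
    (((P v).eval (m : ℤ)) ^ 3 * B v.1)).ncard : ℝ) ^ s) (fun y _ => by positivity) (mem_univ v)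
  simp only [hPv] at h4
  set S : ℝ := ((SelR (((D i).eval t) ^ 2 * A i) (((D i).eval t) ^ 3 * B i)).ncard : ℝ) with hS
  have hS0 : 0 ≤ S := Nat.cast_nonneg _
  have hSs : S ^ s ≤ τ * (1 + |(m : ℝ) - k|) := h4.trans h1
  have hab : (0 : ℝ) ≤ |(m : ℝ) - k| := abs_nonneg _
  have hSle : S ≤ τ ^ (1 / (s : ℝ)) * (1 + |(m : ℝ) - k|) ^ δ := by
    calc S = (S ^ s) ^ (1 / (s : ℝ)) := by
          rw [← Real.rpow_natCast, ← Real.rpow_mul hS0, mul_one_div_cancel hs0.ne', Real.rpow_one]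
      _ ≤ (τ * (1 + |(m : ℝ) - k|)) ^ (1 / (s : ℝ)) :=
          Real.rpow_le_rpow (by positivity) hSs (by positivity)
      _ = τ ^ (1 / (s : ℝ)) * (1 + |(m : ℝ) - k|) ^ (1 / (s : ℝ)) :=
          Real.mul_rpow hτ0.le (by positivity)
      _ ≤ _ := mul_le_mul_of_nonneg_left
          (Real.rpow_le_rpow_of_exponent_le (by linarith) hsδ) (by positivity)
  have h7 : Bd (TwQ (A i) (B i) ((D i).eval t)) S :=
    Pool.Agent.TH841.SH.bd_selR (Pool.Agent.TH639.SL.disc_tw hne' (hE i))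
      (Pool.Agent.TH639.SL.roots_tw (he i) _) (Pool.Agent.TH639.SL.sel_tw (hE i) (he i) hne').1
  exact ⟨h7.1, h7.2.trans hSle⟩

end Pool.Agent.TH779.BS
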