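import Mathlib
import Pool.Agent.TH779.BS.Loc

/-!
# The sieve conditions in elementary terms
-/

set_option autoImplicit false

namespace Pool.Agent.TH779.BS

open Polynomial Finset Filter
open Pool.Agent.W123.RP Pool.Agent.H373R2.T7 Pool.Agent.W123.RU Pool.Agent.W123.RU.Poly
open Pool.Agent.TH464.PW
open Pool.Agent.TH464.PO

lemma sf_iff {k : ℕ} (f : Fin k → ℤ[X]) (N r m : ℕ) : Sf (Q f) (lev N r) m ↔
    ∀ p : ℕ, p.Prime → (p : ℝ) ≤ (N : ℝ) ^ (1 / (r : ℝ)) → ∀ i, ¬ (p : ℤ) ∣ (f i).eval (m : ℤ) := by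
  have h0 : (0 : ℝ) ≤ (N : ℝ) ^ (1 / (r : ℝ)) := by positivity
  constructor
  · intro h p hp hpN i hd
    refine h p ?_ ⟨i, hd⟩
    unfold pz
    rw [mem_filter, mem_Icc]
    exact ⟨⟨hp.one_lt.le, Nat.le_floor hpN⟩, hp⟩
  · intro h p hp hQ
    obtain ⟨i, hi⟩ := hQ
    unfold pz at hp
    rw [mem_filter, mem_Icc] at hp
    exact h p hp.2 ((Nat.le_floor_iff h0).1 hp.1.2) i hi

open Classical in
lemma vq_eq {k : ℕ} (f : Fin k → ℤ[X]) (N r : ℕ) : Vq (Q f) (lev N r) =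
    ∏ p ∈ (range (⌊(N : ℝ) ^ (1 / (r : ℝ))⌋₊ + 1)).filter Nat.Prime,
      (1 - (((range p).filter (fun m : ℕ => ∃ i, (p : ℤ) ∣ (f i).eval (m : ℤ))).card : ℝ) / p) := by
  have h1 : pz (lev N r) = (range (⌊(N : ℝ) ^ (1 / (r : ℝ))⌋₊ + 1)).filter Nat.Prime := by
    ext p
    unfold pz lev
    rw [mem_filter, mem_filter, mem_Icc, mem_range]
    constructor
    · rintro ⟨⟨_, h2⟩, h3⟩
      exact ⟨by omega, h3⟩
    · rintro ⟨h2, h3⟩
      exact ⟨⟨h3.one_lt.le, by omega⟩, h3⟩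
  unfold Vq
  rw [h1]
  refine prod_congr rfl fun p _ => ?_
  unfold nuB
  have h2 : (range p).filter (fun r => Q f p r) =
      (range p).filter (fun m : ℕ => ∃ i, (p : ℤ) ∣ (f i).eval (m : ℤ)) := by
    ext m
    rw [mem_filter, mem_filter]
    rfl
  rw [← h2]

end Pool.Agent.TH779.BS
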