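import Mathlib
import Pool.Agent.TH779.BS.Loc
import Pool.Agent.TH779.BS.PenC

/-!
# Tails of the Selmer groups of pencils near the almost primes, in all windows
-/

set_option autoImplicit false

namespace Pool.Agent.TH779.BS

open Polynomial Finset Filter
open Pool.Agent.W123.RP Pool.Agent.H373R2.T7 Pool.Agent.W123.RU Pool.Agent.W123.RU.Poly
open Pool.Agent.TH464.PW
open Pool.Agent.TH464.PO

open Pool.Agent.TH841.TR (UP)

open Pool.Agent.W307.SE (SN SelR SN_nonneg)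

/-- the system consisting of the polynomial `X` -/
noncomputable def fX : Fin 1 → ℤ[X] := fun _ => X

lemma sys_X : Sys fX where
  irr := fun _ => irreducible_X
  deg := fun _ => by
    unfold fX
    rw [natDegree_X]
    exact one_pos
  lead := fun _ => by
    unfold fX
    rw [leadingCoeff_X]
    exact one_pos
  inj := fun a b _ => Subsingleton.elim _ _
  adm := fun p hp => ⟨1, fun _ h => by
    unfold fX at h
    rw [eval_X] at h
    have h1 : p ∣ 1 := by exact_mod_cast h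
    exact hp.one_lt.ne' (Nat.dvd_one.1 h1)⟩

lemma noTr_X : NoTr fX := noTr_single X (by rw [natDegree_X]; exact one_pos)

open Classical in
/-- **the tails in all windows**, pencils -/
theorem tailsP (θ : ℝ) (hθ : 0 < θ) (ε : ℝ) (hε : 0 < ε) :
    ∃ (K : ℝ) (r0 : ℕ), 0 < K ∧ 1 ≤ r0 ∧ ∀ r : ℕ, r0 ≤ r →
      ∀ {ι : Type} [Fintype ι] {n : ι → Fin 3 → ℕ} {a : ι → Fin 3 → ℤ}
      {f : ∀ i : ι, ∀ k : Fin 3, Fin (n i k) → ℤ[X]} {D : ι → ℤ[X]},
      (∀ i, IsPen (a i) (f i) (D i)) → ∀ b : ℕ,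
      ∃ C : ℝ, 0 ≤ C ∧ ∀ᶠ X : ℕ in atTop, ∀ Y : ℕ, (X : ℝ) ^ θ ≤ Y → Y ≤ X →
        (((Ioc X (X + Y)).filter (fun n => ¬ ∀ u v : ℕ, X ≤ u → u < n → n ≤ v → v ≤ X + Y →
          K ≤ ((v : ℝ) - u) * Vq (Q fX) (lev X r) →
          |(((Ioc u v).filter (Sf (Q fX) (lev X r))).card : ℝ) -
            (v - u) * Vq (Q fX) (lev X r)| ≤ ε * ((v - u) * Vq (Q fX) (lev X r)) ∧
          ∀ R : ℝ, 0 ≤ R → R * (((Ioc u v).filter (fun m : ℕ => Sf (Q fX) (lev X r) m ∧
            ¬ ∀ t : ℤ, |t - m| ≤ b → ∀ i,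
              SN ((D i * UP (a i) (f i) 0).eval t) ((D i * UP (a i) (f i) 1).eval t) ≤ R)).card : ℝ) ≤
            C * ((v - u) * Vq (Q fX) (lev X r)))).card : ℝ) ≤ ε * Y := by
  obtain ⟨K, r0, hK, hr0, hex⟩ := local_mean le_rfl fX sys_X noTr_X θ hθ ε hε
  refine ⟨K, r0, hK, hr0, fun r hr {ι} _ {n} {a} {f} {D} hP b => ?_⟩
  have hr1 : 1 ≤ r := hr0.trans hr
  set L : ℕ := ⌈1 / θ⌉₊ with hL
  set I := ι × (Icc (-(b : ℤ)) b : Finset ℤ) with hI
  choose Cf hCf0 hCf using fun v : I => pen_bound (hP v.1) (v.2 : ℤ) {0} r (L + 1)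
  set w : ℕ → ℝ := fun m => ∑ v : I, SN ((D v.1 * UP (a v.1) (f v.1) 0).eval ((m : ℤ) + (v.2 : ℤ)))
    ((D v.1 * UP (a v.1) (f v.1) 1).eval ((m : ℤ) + (v.2 : ℤ))) with hw
  have hw0 : ∀ m, 0 ≤ w m := fun m => sum_nonneg fun v _ => SN_nonneg _ _
  have hev2 : ∃ x2 : ℕ, ∀ x : ℕ, x2 ≤ x → (b : ℝ) + 3 ≤ (x : ℝ) ^ θ := by
    have h1 : Tendsto (fun x : ℕ => (x : ℝ) ^ θ) atTop atTop :=
      (tendsto_rpow_atTop hθ).comp tendsto_natCast_atTop_atTop
    obtain ⟨x1, hx1⟩ := eventually_atTop.1 (h1.eventually_ge_atTop ((b : ℝ) + 3))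
    exact ⟨x1, hx1⟩
  obtain ⟨x2, hx2⟩ := hev2
  obtain ⟨C, hC0, hC⟩ := hex r hr w hw0 (∑ v, Cf v) (sum_nonneg fun v _ => hCf0 v)
    (max x2 1) (by
      intro X Y hX hXY hYX T hTs hTT
      have hXa : x2 ≤ X := (le_max_left _ _).trans hX
      have hX1 : 1 ≤ X := (le_max_right _ _).trans hX
      have hYb : b + 3 ≤ Y := by exact_mod_cast (hx2 X hXa).trans hXY
      have hY1 : (1 : ℝ) ≤ Y := by exact_mod_cast (by omega : 1 ≤ Y)
      have hXL : X ≤ Y ^ L := by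
        have h1 : (X : ℝ) ≤ (Y : ℝ) ^ (L : ℝ) := by
          calc (X : ℝ) = ((X : ℝ) ^ θ) ^ (1 / θ) := by
                rw [← Real.rpow_mul (Nat.cast_nonneg _), mul_one_div_cancel hθ.ne', Real.rpow_one]
            _ ≤ (Y : ℝ) ^ (1 / θ) := Real.rpow_le_rpow (by positivity) hXY (by positivity)
            _ ≤ (Y : ℝ) ^ (L : ℝ) := Real.rpow_le_rpow_of_exponent_le hY1 (Nat.le_ceil _)
        rw [Real.rpow_natCast] at h1
        exact_mod_cast h1
      have hxb : ∀ v : I, X + (v.2 : ℤ).natAbs ≤ Y ^ (L + 1) := by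
        intro v
        have h1 := mem_Icc.1 v.2.2
        have h2 : (v.2 : ℤ).natAbs ≤ b := by omega
        have h3 : 1 ≤ Y ^ L := Nat.one_le_pow _ _ (by omega)
        have h4 : Y ^ (L + 1) = Y * Y ^ L := pow_succ' _ _
        have h5 : (b + 2) * Y ^ L ≤ Y * Y ^ L := Nat.mul_le_mul_right _ (by omega)
        have h6 : b ≤ b * Y ^ L := Nat.le_mul_of_pos_right _ (by omega)
        nlinarith
      rw [hw, sum_comm, sum_mul]
      refine sum_le_sum fun v _ => ?_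
      have h7 := hCf v X Y (by omega) (hxb v) T hTs (fun m hm p hp hpr h hh => ?_)
      · rwa [card_singleton] at h7
      · rw [mem_singleton] at hh
        subst hh
        rw [Nat.add_zero]
        intro hd
        refine hTT m hm p ?_ ⟨0, ?_⟩
        · unfold pz
          rw [mem_filter, mem_Icc]
          exact ⟨⟨hp.one_lt.le, le_lev hr1 (hpr.trans hYX)⟩, hp⟩
        · unfold fX
          rw [eval_X]
          exact_mod_cast hd)
  refine ⟨C, hC0, ?_⟩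
  filter_upwards [hC] with X hX
  intro Y hXY hYX
  refine le_trans ?_ (hX Y hXY hYX)
  refine Nat.cast_le.2 (card_le_card ?_)
  intro n' hn
  rw [mem_filter] at hn ⊢
  refine ⟨hn.1, fun hall => hn.2 fun u v hu hun hnv hv hKV => ?_⟩
  obtain ⟨h1, h2⟩ := hall u v hu hun hnv hv hKV
  refine ⟨h1, fun R hR => le_trans ?_ h2⟩
  set F := (Ioc u v).filter (fun m : ℕ => Sf (Q fX) (lev X r) m ∧
            ¬ ∀ t : ℤ, |t - m| ≤ b → ∀ i,
              SN ((D i * UP (a i) (f i) 0).eval t) ((D i * UP (a i) (f i) 1).eval t) ≤ R) with hF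
  have hFw : ∀ m ∈ F, R ≤ w m := by
    intro m hm
    rw [hF, mem_filter, mem_Ioc] at hm
    obtain ⟨hmI, hmS, hmb⟩ := hm
    by_contra hcon
    rw [not_le] at hcon
    apply hmb
    intro t ht i
    have h4 := single_le_sum (f := fun v : I =>
        SN ((D v.1 * UP (a v.1) (f v.1) 0).eval ((m : ℤ) + (v.2 : ℤ)))
          ((D v.1 * UP (a v.1) (f v.1) 1).eval ((m : ℤ) + (v.2 : ℤ)))) (fun v _ => SN_nonneg _ _)
        (mem_univ (i, ⟨t - (m : ℤ), mem_Icc.2 (abs_le.1 ht)⟩))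
    have h5 : (m : ℤ) + (t - m) = t := by ring
    simp only [h5] at h4
    exact h4.trans hcon.le
  calc R * (F.card : ℝ) = ∑ _m ∈ F, R := by
        rw [sum_const, nsmul_eq_mul, mul_comm]
    _ ≤ ∑ m ∈ F, w m := sum_le_sum hFw
    _ ≤ ∑ m ∈ (Ioc u v).filter (Sf (Q fX) (lev X r)), w m := by
        refine sum_le_sum_of_subset_of_nonneg ?_ (fun m _ _ => hw0 m)
        intro m hm
        rw [hF, mem_filter] at hm
        exact mem_filter.2 ⟨hm.1, hm.2.1⟩

end Pool.Agent.TH779.BS
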