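import Mathlib
import Pool.Agent.TH464.PO.MaxW
import Pool.Agent.TH779.BS.PenC

/-!
# The maximal function of the 2-Selmer groups of a pencil
-/

set_option autoImplicit false

namespace Pool.Agent.TH779.BS

open Polynomial Finset Filter
open Pool.Agent.TH464.PO

open Pool.Agent.TH841.TR (UP)

open Pool.Agent.W307.SE (SN SN_nonneg)

open Classical in
/-- **the maximal inequality for a pencil** -/
theorem maxP {n : Fin 3 → ℕ} {a : Fin 3 → ℤ} {f : ∀ k : Fin 3, Fin (n k) → ℤ[X]} {D : ℤ[X]}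
    (h : IsPen a f D) (θ : ℝ) (hθ : 0 < θ) :
    ∃ C : ℝ, 0 ≤ C ∧ ∀ᶠ N : ℕ in atTop, ∀ Y : ℕ, (N : ℝ) ^ θ ≤ Y → Y ≤ N → ∀ M : ℝ, 0 < M →
      M * (((Ioc N (N + Y)).filter (fun m => ∃ u v : ℕ, N ≤ u ∧ u < m ∧ m ≤ v ∧ v ≤ N + Y ∧
        M * ((v : ℝ) - u) < ∑ t ∈ Ioc u v, SN ((D * UP a f 0).eval (t : ℤ))
          ((D * UP a f 1).eval (t : ℤ)))).card : ℝ) ≤ C * Y := by
  set L : ℕ := ⌈1 / θ⌉₊ with hL
  obtain ⟨C, hC0, hC⟩ := pen_bound h 0 ∅ 1 L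
  refine ⟨4 * C, by positivity, ?_⟩
  have hlim : Tendsto (fun x : ℕ => (x : ℝ) ^ θ) atTop atTop :=
    (tendsto_rpow_atTop hθ).comp tendsto_natCast_atTop_atTop
  filter_upwards [hlim.eventually_ge_atTop (2 : ℝ)] with N hN
  intro Y hNY hYN M hM
  have hY2 : 2 ≤ Y := by exact_mod_cast hN.trans hNY
  have hY1 : (1 : ℝ) ≤ Y := by exact_mod_cast (by omega : 1 ≤ Y)
  have hNL : N ≤ Y ^ L := by
    have h1 : (N : ℝ) ≤ (Y : ℝ) ^ (L : ℝ) := by
      calc (N : ℝ) = ((N : ℝ) ^ θ) ^ (1 / θ) := by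
            rw [← Real.rpow_mul (Nat.cast_nonneg _), mul_one_div_cancel hθ.ne', Real.rpow_one]
        _ ≤ (Y : ℝ) ^ (1 / θ) := Real.rpow_le_rpow (by positivity) hNY (by positivity)
        _ ≤ (Y : ℝ) ^ (L : ℝ) := Real.rpow_le_rpow_of_exponent_le hY1 (Nat.le_ceil _)
    rw [Real.rpow_natCast] at h1
    exact_mod_cast h1
  have htot := hC N Y hY2 (by rw [Int.natAbs_zero, Nat.add_zero]; exact hNL)
    (Ioc N (N + Y)) (Subset.refl _) (fun _ _ _ _ _ h hh => absurd hh (notMem_empty h))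
  rw [card_empty, pow_zero, div_one] at htot
  simp only [add_zero] at htot
  set rr : ℕ → ℝ := fun t => SN ((D * UP a f 0).eval (t : ℤ)) ((D * UP a f 1).eval (t : ℤ))
    with hrr
  have hico : ∀ u v : ℕ, Ico (u + 1) (v + 1) = Ioc u v := by
    intro u v
    ext m
    rw [mem_Ico, mem_Ioc]
    omega
  have hmx := max_both rr (fun _ => SN_nonneg _ _) M hM (N + 1) (N + Y + 1) (by omega)
  rw [hico] at hmx
  have hsub : (Ioc N (N + Y)).filter (fun m => ∃ u v : ℕ, N ≤ u ∧ u < m ∧ m ≤ v ∧ v ≤ N + Y ∧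
        M * ((v : ℝ) - u) < ∑ t ∈ Ioc u v, rr t) ⊆ MX rr M (N + 1) (N + Y + 1) := by
    intro m hm
    rw [mem_filter, mem_Ioc] at hm
    obtain ⟨hmI, u, v, h1, h2, h3, h4, h5⟩ := hm
    unfold MX
    refine mem_filter.2 ⟨mem_Ico.2 (by omega), u + 1, v + 1, by omega, by omega, by omega,
      by omega, ?_⟩
    rw [hico]
    push_cast
    refine lt_of_le_of_lt (le_of_eq ?_) h5
    ring
  have h6 := (Nat.cast_le (α := ℝ)).2 (card_le_card hsub)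
  calc M * (((Ioc N (N + Y)).filter (fun m => ∃ u v : ℕ, N ≤ u ∧ u < m ∧ m ≤ v ∧ v ≤ N + Y ∧
        M * ((v : ℝ) - u) < ∑ t ∈ Ioc u v, rr t)).card : ℝ) ≤
        M * ((MX rr M (N + 1) (N + Y + 1)).card : ℝ) := mul_le_mul_of_nonneg_left h6 hM.le
    _ ≤ 4 * ∑ m ∈ Ioc N (N + Y), rr m := hmx
    _ ≤ 4 * (C * Y) := mul_le_mul_of_nonneg_left htot (by norm_num)
    _ = _ := by ring

end Pool.Agent.TH779.BS
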