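import Mathlib

/-!
# The maximal inequality for squares in the plane lattice
-/

set_option autoImplicit false

namespace Pool.Agent.TH779.SQ

open Finset

/-- the square `(c₁, c₁ + h] × (c₂, c₂ + h]` -/
noncomputable def Bo (c : ℤ × ℤ × ℕ) : Finset (ℤ × ℤ) :=
  Ioc c.1 (c.1 + c.2.2) ×ˢ Ioc c.2.1 (c.2.1 + c.2.2)

/-- the enlarged square -/
noncomputable def Bo5 (c : ℤ × ℤ × ℕ) : Finset (ℤ × ℤ) :=
  Ioc (c.1 - 2 * c.2.2) (c.1 + 3 * c.2.2) ×ˢ Ioc (c.2.1 - 2 * c.2.2) (c.2.1 + 3 * c.2.2)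

lemma mem_Bo {c : ℤ × ℤ × ℕ} {p : ℤ × ℤ} : p ∈ Bo c ↔
    (c.1 < p.1 ∧ p.1 ≤ c.1 + c.2.2) ∧ (c.2.1 < p.2 ∧ p.2 ≤ c.2.1 + c.2.2) := by
  unfold Bo
  rw [mem_product, mem_Ioc, mem_Ioc]

lemma card_Bo5 (c : ℤ × ℤ × ℕ) : ((Bo5 c).card : ℝ) = 25 * (c.2.2 : ℝ) ^ 2 := by
  unfold Bo5
  rw [card_product, Int.card_Ioc, Int.card_Ioc]
  have h1 : (c.1 + 3 * (c.2.2 : ℤ) - (c.1 - 2 * (c.2.2 : ℤ))).toNat = 5 * c.2.2 := by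
    omega
  have h2 : (c.2.1 + 3 * (c.2.2 : ℤ) - (c.2.1 - 2 * (c.2.2 : ℤ))).toNat = 5 * c.2.2 := by
    omega
  rw [h1, h2]
  push_cast
  ring

open Classical in
/-- **the maximal inequality** -/
theorem max_sq (w : ℤ × ℤ → ℝ) (hw : ∀ p, 0 ≤ w p) (N₁ N₂ : ℤ) (X : ℕ) (M : ℝ) (hM : 0 < M) :
    M * (((Bo (N₁, N₂, X)).filter (fun p => ∃ c : ℤ × ℤ × ℕ, N₁ ≤ c.1 ∧ c.1 + c.2.2 ≤ N₁ + X ∧
      N₂ ≤ c.2.1 ∧ c.2.1 + c.2.2 ≤ N₂ + X ∧ p ∈ Bo c ∧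
      M * (c.2.2 : ℝ) ^ 2 < ∑ q ∈ Bo c, w q)).card : ℝ) ≤
      25 * ∑ q ∈ Bo (N₁, N₂, X), w q := by
  -- the bad squares
  set t : Set (ℤ × ℤ × ℕ) := {c | (N₁ ≤ c.1 ∧ c.1 + c.2.2 ≤ N₁ + X ∧
      N₂ ≤ c.2.1 ∧ c.2.1 + c.2.2 ≤ N₂ + X) ∧ 1 ≤ c.2.2 ∧
      M * (c.2.2 : ℝ) ^ 2 < ∑ q ∈ Bo c, w q} with ht
  have hfin : t.Finite := by
    refine Set.Finite.subset (Finset.finite_toSet
      (Icc N₁ (N₁ + X) ×ˢ (Icc N₂ (N₂ + X) ×ˢ Icc 0 X))) ?_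
    intro c hc
    obtain ⟨⟨h1, h2, h3, h4⟩, h5, _⟩ := hc
    rw [mem_coe, mem_product, mem_product, mem_Icc, mem_Icc, mem_Icc]
    refine ⟨⟨h1, by omega⟩, ⟨h3, by omega⟩, ⟨by omega, by omega⟩⟩
  obtain ⟨u, hut, hud, hucov⟩ := Vitali.exists_disjoint_subfamily_covering_enlargement
    (fun c => ((Bo c : Finset (ℤ × ℤ)) : Set (ℤ × ℤ))) t (fun c => (c.2.2 : ℝ)) 2 (by norm_num)
    (fun c _ => Nat.cast_nonneg _) X (fun c hc => by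
      obtain ⟨⟨h1, h2, h3, h4⟩, h5, _⟩ := hc
      have : c.2.2 ≤ X := by omega
      exact_mod_cast this)
    (fun c hc => by
      obtain ⟨_, h5, _⟩ := hc
      refine ⟨(c.1 + 1, c.2.1 + 1), ?_⟩
      rw [mem_coe, mem_Bo]
      dsimp only
      omega)
  have hufin : u.Finite := hfin.subset hut
  set U : Finset (ℤ × ℤ × ℕ) := hufin.toFinset with hU
  have hUmem : ∀ c, c ∈ U ↔ c ∈ u := fun c => hufin.mem_toFinset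
  have hsub : (Bo (N₁, N₂, X)).filter (fun p => ∃ c : ℤ × ℤ × ℕ, N₁ ≤ c.1 ∧
      c.1 + c.2.2 ≤ N₁ + X ∧ N₂ ≤ c.2.1 ∧ c.2.1 + c.2.2 ≤ N₂ + X ∧ p ∈ Bo c ∧
      M * (c.2.2 : ℝ) ^ 2 < ∑ q ∈ Bo c, w q) ⊆ U.biUnion Bo5 := by
    intro p hp
    rw [mem_filter] at hp
    obtain ⟨_, c, h1, h2, h3, h4, hpc, h5⟩ := hp
    have hpc' := mem_Bo.1 hpc
    have hct : c ∈ t := ⟨⟨h1, h2, h3, h4⟩, by omega, h5⟩
    obtain ⟨d, hd, ⟨q, hqc, hqd⟩, hδ⟩ := hucov c hct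
    have hδ' : c.2.2 ≤ 2 * d.2.2 := by
      have : (c.2.2 : ℝ) ≤ ((2 * d.2.2 : ℕ) : ℝ) := by
        push_cast
        exact hδ
      exact_mod_cast this
    have hqc' := mem_Bo.1 (mem_coe.1 hqc)
    have hqd' := mem_Bo.1 (mem_coe.1 hqd)
    refine mem_biUnion.2 ⟨d, (hUmem d).2 hd, ?_⟩
    unfold Bo5
    rw [mem_product, mem_Ioc, mem_Ioc]
    omega
  have hcard : (((Bo (N₁, N₂, X)).filter (fun p => ∃ c : ℤ × ℤ × ℕ, N₁ ≤ c.1 ∧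
      c.1 + c.2.2 ≤ N₁ + X ∧ N₂ ≤ c.2.1 ∧ c.2.1 + c.2.2 ≤ N₂ + X ∧ p ∈ Bo c ∧
      M * (c.2.2 : ℝ) ^ 2 < ∑ q ∈ Bo c, w q)).card : ℝ) ≤ ∑ c ∈ U, 25 * (c.2.2 : ℝ) ^ 2 := by
    have h1 := (Nat.cast_le (α := ℝ)).2 ((card_le_card hsub).trans card_biUnion_le)
    refine h1.trans (le_of_eq ?_)
    push_cast
    exact sum_congr rfl fun c _ => card_Bo5 c
  have hdis : ∀ c ∈ U, ∀ d ∈ U, c ≠ d → Disjoint (Bo c) (Bo d) := by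
    intro c hc d hd hcd
    have h1 := hud ((hUmem c).1 hc) ((hUmem d).1 hd) hcd
    rw [Function.onFun] at h1
    exact_mod_cast h1
  have htot : ∑ c ∈ U, ∑ q ∈ Bo c, w q ≤ ∑ q ∈ Bo (N₁, N₂, X), w q := by
    rw [← sum_biUnion (fun c hc d hd hcd => hdis c hc d hd hcd)]
    refine sum_le_sum_of_subset_of_nonneg ?_ (fun q _ _ => hw q)
    intro q hq
    rw [mem_biUnion] at hq
    obtain ⟨c, hc, hqc⟩ := hq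
    obtain ⟨⟨h1, h2, h3, h4⟩, _, _⟩ := hut ((hUmem c).1 hc)
    have hqc' := mem_Bo.1 hqc
    rw [mem_Bo]
    dsimp only
    omega
  calc M * _ ≤ M * ∑ c ∈ U, 25 * (c.2.2 : ℝ) ^ 2 := mul_le_mul_of_nonneg_left hcard hM.le
    _ = 25 * ∑ c ∈ U, M * (c.2.2 : ℝ) ^ 2 := by
        rw [mul_sum, mul_sum]
        exact sum_congr rfl fun c _ => by ring
    _ ≤ 25 * ∑ c ∈ U, ∑ q ∈ Bo c, w q := by
        refine mul_le_mul_of_nonneg_left (sum_le_sum fun c hc => ?_) (by norm_num)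
        exact (hut ((hUmem c).1 hc)).2.2.le
    _ ≤ _ := mul_le_mul_of_nonneg_left htot (by norm_num)

end Pool.Agent.TH779.SQ
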