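import Mathlib
import Pool.Agent.TH779.BS.Main
import Pool.Agent.TH841.PT.FamP

/-!
# Clusters of primes and varying multiquadratic fields
-/

set_option autoImplicit false

namespace Pool.Agent.TH779.BS

open Finset Polynomial

open Pool.Agent.TH841.PT

open Pool.Agent.TH841.SH (Bd)

open Pool.Agent.TH841.NF (EF Gen)

open Pool.Agent.TH841.NF.D (HasDiv crk rk)

/-- from the twists over `ℚ` to the field -/
theorem field_of {A B e₁ e₂ e₃ : ℤ} (hE : 4 * A ^ 3 + 27 * B ^ 2 ≠ 0)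
    (he : ∀ x : ℤ, x ^ 3 + A * x + B = (x - e₁) * (x - e₂) * (x - e₃)) {s : ℕ} (D₀ : ℤ[X])
    (D : Fin s → ℤ[X]) {t : ℤ} {R : ℝ} (h0 : D₀.eval t ≠ 0) (hD : ∀ i, (D i).eval t ≠ 0)
    (h : ∀ T : Finset (Fin s), Bd (TwQ A B ((D₀ * ∏ i ∈ T, D i).eval t)) R)
    (F : Type) [Field F] [NumberField F] (hF : Gen F (fun i => (D i).eval t)) :
    BddAbove {q | HasDiv (EF (D₀.eval t ^ 2 * A) (D₀.eval t ^ 3 * B) F) q} ∧
      (2 : ℝ) ^ (rk (EF (D₀.eval t ^ 2 * A) (D₀.eval t ^ 3 * B) F) +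
        crk (EF (D₀.eval t ^ 2 * A) (D₀.eval t ^ 3 * B) F)) ≤
        R ^ Fintype.card (Finset (Fin s)) := by
  have hev : ∀ T : Finset (Fin s), (D₀ * ∏ i ∈ T, D i).eval t =
      D₀.eval t * ∏ i ∈ T, (D i).eval t := by
    intro T
    rw [eval_mul, eval_prod]
  have hne' : ∀ T : Finset (Fin s), (D₀ * ∏ i ∈ T, D i).eval t ≠ 0 := by
    intro T
    rw [hev]
    exact mul_ne_zero h0 (prod_ne_zero_iff.2 fun i _ => hD i)
  have e2 : ∀ T : Finset (Fin s), (∏ i ∈ T, (D i).eval t) ^ 2 *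
      (D₀.eval t ^ 2 * A) = ((D₀ * ∏ i ∈ T, D i).eval t) ^ 2 * A := by
    intro T
    rw [hev]
    ring
  have e3 : ∀ T : Finset (Fin s), (∏ i ∈ T, (D i).eval t) ^ 3 *
      (D₀.eval t ^ 3 * B) = ((D₀ * ∏ i ∈ T, D i).eval t) ^ 3 * B := by
    intro T
    rw [hev]
    ring
  have key : ∀ q, HasDiv (EF (D₀.eval t ^ 2 * A) (D₀.eval t ^ 3 * B) F) q →
      (2 : ℝ) ^ (rk (EF (D₀.eval t ^ 2 * A) (D₀.eval t ^ 3 * B) F) + q) ≤
        R ^ Fintype.card (Finset (Fin s)) := by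
    intro q hq
    have h1 := Pool.Agent.TH841.NF.one_field (d := fun i => (D i).eval t) hF
      (fun i => hD i) (Pool.Agent.TH639.SL.disc_tw h0 hE) (fun _ => R) (fun T => by
        rw [e2, e3]
        exact h T) (fun T => by
        rw [e2, e3]
        exact Pool.Agent.W307.RG.fin_tw hE he (hne' T)) hq
    rwa [prod_const, card_univ] at h1
  have hb : BddAbove {q | HasDiv (EF (D₀.eval t ^ 2 * A) (D₀.eval t ^ 3 * B) F) q} :=
    Pool.Agent.TH841.NF.bdd_of key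
  exact ⟨hb, key _ (Pool.Agent.TH841.NF.crk_mem hb)⟩

open Classical in
/-- **clusters of primes, varying fields** -/
theorem clustersF (m : ℕ) : ∃ K : ℕ, ∀ H : Finset ℕ, K ≤ H.card → Admis H →
    ∃ c : ℝ, 0 < c ∧ ∀ (A B e₁ e₂ e₃ : ℤ), 4 * A ^ 3 + 27 * B ^ 2 ≠ 0 →
      (∀ x : ℤ, x ^ 3 + A * x + B = (x - e₁) * (x - e₂) * (x - e₃)) →
      ∀ (s : ℕ) (D₀ : ℤ[X]) (D : Fin s → ℤ[X]), D₀ ≠ 0 → (∀ i, D i ≠ 0) → ∀ b : ℕ,
      ∃ R : ℝ, ∃ x₀ : ℕ, ∀ x : ℕ, x₀ ≤ x →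
        c * (x / (Real.log x) ^ K) ≤ (((Ioc x (2 * x)).filter (fun n : ℕ =>
          m ≤ (H.filter (fun h => (n + h).Prime)).card ∧
          ∀ t : ℤ, |t - n| ≤ b → D₀.eval t ≠ 0 ∧ (∀ i, (D i).eval t ≠ 0) ∧
            ∀ (F : Type) [Field F] [NumberField F], Gen F (fun i => (D i).eval t) →
              BddAbove {q | HasDiv (EF (D₀.eval t ^ 2 * A) (D₀.eval t ^ 3 * B) F) q} ∧
              (2 : ℝ) ^ (rk (EF (D₀.eval t ^ 2 * A) (D₀.eval t ^ 3 * B) F) +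
                crk (EF (D₀.eval t ^ 2 * A) (D₀.eval t ^ 3 * B) F)) ≤ R)).card : ℝ) := by
  obtain ⟨K, hK⟩ := clusters m
  refine ⟨K, fun H hH hadm => ?_⟩
  obtain ⟨c, hc, h⟩ := hK H hH hadm
  refine ⟨c, hc, fun A B e₁ e₂ e₃ hE he s D₀ D hD₀ hD b => ?_⟩
  obtain ⟨R, x₀, hR⟩ := h (ι := Finset (Fin s)) (fun _ => A) (fun _ => B) (fun _ => e₁)
    (fun _ => e₂) (fun _ => e₃) (fun _ => hE) (fun _ => he) (fun T => D₀ * ∏ i ∈ T, D i)
    (fun T => mul_ne_zero hD₀ (prod_ne_zero_iff.2 fun i _ => hD i)) b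
  refine ⟨R ^ Fintype.card (Finset (Fin s)), x₀, fun x hx => (hR x hx).trans ?_⟩
  have hsub : (Ioc x (2 * x)).filter (fun n : ℕ =>
      m ≤ (H.filter (fun h => (n + h).Prime)).card ∧
      ∀ t : ℤ, |t - n| ≤ b → ∀ T : Finset (Fin s), (D₀ * ∏ i ∈ T, D i).eval t ≠ 0 ∧
        Bd (TwQ A B ((D₀ * ∏ i ∈ T, D i).eval t)) R) ⊆
      (Ioc x (2 * x)).filter (fun n : ℕ =>
      m ≤ (H.filter (fun h => (n + h).Prime)).card ∧
      ∀ t : ℤ, |t - n| ≤ b → D₀.eval t ≠ 0 ∧ (∀ i, (D i).eval t ≠ 0) ∧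
        ∀ (F : Type) [Field F] [NumberField F], Gen F (fun i => (D i).eval t) →
          BddAbove {q | HasDiv (EF (D₀.eval t ^ 2 * A) (D₀.eval t ^ 3 * B) F) q} ∧
          (2 : ℝ) ^ (rk (EF (D₀.eval t ^ 2 * A) (D₀.eval t ^ 3 * B) F) +
            crk (EF (D₀.eval t ^ 2 * A) (D₀.eval t ^ 3 * B) F)) ≤
            R ^ Fintype.card (Finset (Fin s))) := by
    intro n hn
    rw [mem_filter] at hn ⊢
    refine ⟨hn.1, hn.2.1, fun t ht => ?_⟩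
    have h1 := hn.2.2 t ht
    have h2 : D₀.eval t ≠ 0 := by
      have := (h1 ∅).1
      rwa [prod_empty, mul_one] at this
    have h3 : ∀ i, (D i).eval t ≠ 0 := by
      intro i hi
      apply (h1 {i}).1
      rw [prod_singleton, eval_mul, hi, mul_zero]
    exact ⟨h2, h3, fun F _ _ hF => field_of hE he D₀ D h2 h3 (fun T => (h1 T).2) F hF⟩
  exact_mod_cast card_le_card hsub

end Pool.Agent.TH779.BS
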