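import Mathlib
import Pool.Agent.TH342.ChiAll
import Pool.Agent.TH779.BS.Sq2
import Pool.Agent.TH779.BS.Fld

/-!
# The growth of the ranks around typical curves of short squares, all twists and all multiquadratic
fields
-/

set_option autoImplicit false

namespace Pool.Agent.TH779.BS

open Polynomial Finset Filter

open Pool.Agent.TH841.PT (TwQ)

open Pool.Agent.TH841.SH (Bd)

open Pool.Agent.TH841.NF (EF Gen)

open Pool.Agent.TH841.NF.D (HasDiv crk rk)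

open Pool.Agent.W307.SE (SN SelR)

open Pool.Agent.TH342.SQ (Sq MM GD)

open Pool.Agent.TH779.SQ (Bo max_sq mem_Bo)

lemma MM_nonneg (ε : ℝ) (t : ℤ × ℤ) : 0 ≤ MM ε t :=
  Real.iSup_nonneg fun D => Pool.Agent.TH342.SQ.fD_nonneg ε t D

/-- the larger one of the differences of the coordinates -/
def dd (t t' : ℤ × ℤ) : ℕ := max (t.1 - t'.1).natAbs (t.2 - t'.2).natAbs

lemma mem_Sq {N₁ N₂ : ℤ} {X : ℕ} {t : ℤ × ℤ} : t ∈ Sq N₁ N₂ X ↔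
    ((N₁ < t.1 ∧ t.1 ≤ N₁ + X) ∧ (N₂ < t.2 ∧ t.2 ≤ N₂ + X)) ∧
      (t.1 ≠ 0 ∧ t.2 ≠ 0 ∧ t.1 ≠ t.2) := by
  unfold Sq
  rw [mem_filter, mem_product, mem_Ioc, mem_Ioc]

open Classical in
/-- the growth of the suprema over all the twists -/
theorem growthMM (L : ℕ) (ε η : ℝ) (hε : 0 < ε) (hη : 0 < η) :
    ∃ M : ℝ, 0 < M ∧ ∀ (N₁ N₂ : ℤ) (X : ℕ), 1 ≤ X → |N₁| ≤ (X : ℤ) ^ L → |N₂| ≤ (X : ℤ) ^ L →
      (((Sq N₁ N₂ X).filter (fun t => ¬ ∀ t' ∈ Sq N₁ N₂ X,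
        MM ε t' ≤ M * (1 + (dd t t' : ℝ)) ^ 2)).card : ℝ) ≤ η * (X : ℝ) ^ 2 := by
  obtain ⟨K, hK, h⟩ := Pool.Agent.TH342.SQ.all_twists ε hε L
  set M : ℝ := 25 * K / η with hM
  have hM0 : 0 < M := by positivity
  refine ⟨M, hM0, fun N₁ N₂ X hX h1 h2 => ?_⟩
  set w : ℤ × ℤ → ℝ := fun t => if t.1 ≠ 0 ∧ t.2 ≠ 0 ∧ t.1 ≠ t.2 then MM ε t else 0 with hw
  have hw0 : ∀ t, 0 ≤ w t := by
    intro t
    rw [hw]
    dsimp only
    split_ifs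
    · exact MM_nonneg ε t
    · exact le_rfl
  have hsum : ∑ q ∈ Bo (N₁, N₂, X), w q ≤ K * (X : ℝ) ^ 2 := by
    have h3 : ∑ q ∈ Bo (N₁, N₂, X), w q = ∑ t ∈ Sq N₁ N₂ X, MM ε t := by
      unfold Sq Bo
      rw [sum_filter]
    rw [h3]
    refine (h N₁ N₂ X hX h1 h2).trans (mul_le_mul_of_nonneg_left ?_ hK.le)
    have h4 : (Sq N₁ N₂ X).card ≤ X ^ 2 := by
      refine (card_filter_le _ _).trans (le_of_eq ?_)
      rw [card_product, Int.card_Ioc, Int.card_Ioc, add_sub_cancel_left, add_sub_cancel_left,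
        Int.toNat_natCast, pow_two]
    exact_mod_cast h4
  have hmx := max_sq w hw0 N₁ N₂ X M hM0
  have hfin : M * (((Bo (N₁, N₂, X)).filter (fun p => ∃ c : ℤ × ℤ × ℕ, N₁ ≤ c.1 ∧
      c.1 + c.2.2 ≤ N₁ + X ∧ N₂ ≤ c.2.1 ∧ c.2.1 + c.2.2 ≤ N₂ + X ∧ p ∈ Bo c ∧
      M * (c.2.2 : ℝ) ^ 2 < ∑ q ∈ Bo c, w q)).card : ℝ) ≤ M * (η * (X : ℝ) ^ 2) := by
    refine (hmx.trans (mul_le_mul_of_nonneg_left hsum (by norm_num))).trans (le_of_eq ?_)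
    rw [hM]
    field_simp
  refine le_trans (Nat.cast_le.2 (card_le_card ?_)) (le_of_mul_le_mul_left hfin hM0)
  intro t ht
  rw [mem_filter] at ht ⊢
  have htS := mem_Sq.1 ht.1
  refine ⟨mem_Bo.2 ⟨htS.1.1, htS.1.2⟩, ?_⟩
  by_contra hcon
  apply ht.2
  intro t' ht'
  have htS' := mem_Sq.1 ht'
  by_contra hlt
  rw [not_le] at hlt
  apply hcon
  set k : ℕ := dd t t' + 1 with hk
  have hk' : (k : ℤ) = max |t.1 - t'.1| |t.2 - t'.2| + 1 := by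
    rw [hk]
    unfold dd
    push_cast
    rfl
  refine ⟨(max N₁ (max t.1 t'.1 - k), max N₂ (max t.2 t'.2 - k), k), ?_⟩
  have e1 : |t.1 - t'.1| ≤ k - 1 := by
    rw [hk', add_sub_cancel_right]
    exact le_max_left _ _
  have e2 : |t.2 - t'.2| ≤ k - 1 := by
    rw [hk', add_sub_cancel_right]
    exact le_max_right _ _
  have e3 : (k : ℤ) ≤ X := by
    rw [hk']
    have e4 : |t.1 - t'.1| ≤ X - 1 := by
      rw [abs_le]
      omega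
    have e5 : |t.2 - t'.2| ≤ X - 1 := by
      rw [abs_le]
      omega
    have := max_le e4 e5
    omega
  rw [abs_le] at e1 e2
  dsimp only
  refine ⟨le_max_left _ _, by omega, le_max_left _ _, by omega, ?_, ?_⟩
  · rw [mem_Bo]
    dsimp only
    omega
  · have e6 : t' ∈ Bo (max N₁ (max t.1 t'.1 - k), max N₂ (max t.2 t'.2 - k), k) := by
      rw [mem_Bo]
      dsimp only
      omega
    refine lt_of_lt_of_le ?_ (single_le_sum (f := w) (fun m _ => hw0 m) e6)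
    have e7 : w t' = MM ε t' := by
      rw [hw]
      dsimp only
      rw [if_pos htS'.2]
    rw [e7, hk]
    push_cast
    rw [add_comm ((dd t t' : ℝ)) 1]
    exact hlt

/-- the coefficients of the short model -/
def SA (a b : ℤ) : ℤ := -27 * (a ^ 2 - a * b + b ^ 2)

/-- the coefficients of the short model -/
def SB (a b : ℤ) : ℤ := 27 * (a + b) * (9 * a * b - 2 * (a + b) ^ 2)

lemma short_roots (a b : ℤ) (x : ℤ) : x ^ 3 + SA a b * x + SB a b =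
    (x - (-3 * (a + b))) * (x - (6 * a - 3 * b)) * (x - (6 * b - 3 * a)) := by
  unfold SA SB
  ring

lemma short_disc {a b : ℤ} (ha : a ≠ 0) (hb : b ≠ 0) (hab : a ≠ b) :
    4 * SA a b ^ 3 + 27 * SB a b ^ 2 ≠ 0 := by
  have h1 : 4 * SA a b ^ 3 + 27 * SB a b ^ 2 = -(729 * a * b * (a - b)) ^ 2 := by
    unfold SA SB
    ring
  rw [h1, neg_ne_zero]
  exact pow_ne_zero 2 (mul_ne_zero (mul_ne_zero (mul_ne_zero (by norm_num) ha) hb)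
    (sub_ne_zero.2 hab))

/-- one twist over the rationals -/
lemma bd_MM {ε : ℝ} (hε : 0 < ε) {a b : ℤ} (ha : a ≠ 0) (hb : b ≠ 0) (hab : a ≠ b) {d : ℤ}
    (hd : d ≠ 0) : Bd (TwQ (SA a b) (SB a b) d)
      (Real.sqrt (MM ε (a, b) * (((9 * d).natAbs : ℕ) : ℝ) ^ (1 + ε))) := by
  have hE := short_disc ha hb hab
  have he := short_roots a b
  have h1 := Pool.Agent.TH639.SL.sel_tw hE he hd
  have h2 : Bd (TwQ (SA a b) (SB a b) d)
      ((SelR (d ^ 2 * SA a b) (d ^ 3 * SB a b)).ncard : ℝ) :=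
    Pool.Agent.TH841.SH.bd_selR (Pool.Agent.TH639.SL.disc_tw hd hE)
      (Pool.Agent.TH639.SL.roots_tw he _) h1.1
  refine ⟨h2.1, h2.2.trans (h1.2.trans ?_)⟩
  have h3 : ((6 * a - 3 * b - -3 * (a + b)) * d) = 9 * d * a := by ring
  have h4 : ((6 * b - 3 * a - -3 * (a + b)) * d) = 9 * d * b := by ring
  rw [h3, h4]
  apply Real.le_sqrt_of_sq_le
  have h5 := Pool.Agent.TH342.SQ.GD_le_MM ε hε (a, b) (D := 9 * d) (mul_ne_zero (by norm_num) hd)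
  have h6 : GD (9 * d) (a, b) = SN (9 * d * a) (9 * d * b) ^ 2 := by
    unfold GD SN
    rw [if_pos ⟨ha, hb, hab⟩]
  rw [← h6]
  exact h5

open Classical in
/-- **all twists and all multiquadratic fields at once** -/
theorem field_MM {ε : ℝ} (hε : 0 < ε) {a b : ℤ} (ha : a ≠ 0) (hb : b ≠ 0) (hab : a ≠ b) {d₀ : ℤ}
    (hd₀ : d₀ ≠ 0) {s : ℕ} {d : Fin s → ℤ} (hd : ∀ i, d i ≠ 0) {K : ℝ} (hK : MM ε (a, b) ≤ K)
    (F : Type) [Field F] [NumberField F] (hF : Gen F d) :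
    BddAbove {q | HasDiv (EF (d₀ ^ 2 * SA a b) (d₀ ^ 3 * SB a b) F) q} ∧
      (2 : ℝ) ^ (rk (EF (d₀ ^ 2 * SA a b) (d₀ ^ 3 * SB a b) F) +
        crk (EF (d₀ ^ 2 * SA a b) (d₀ ^ 3 * SB a b) F)) ≤
        (Real.sqrt (K * (9 * ((d₀ * ∏ i, d i).natAbs : ℝ)) ^ (1 + ε))) ^ (2 ^ s) := by
  have hprod : (d₀ * ∏ i, d i) ≠ 0 := mul_ne_zero hd₀ (prod_ne_zero_iff.2 fun i _ => hd i)
  have h := field_of (short_disc ha hb hab) (short_roots a b) (C d₀) (fun i => C (d i)) (t := 0)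
    (R := Real.sqrt (K * (9 * ((d₀ * ∏ i, d i).natAbs : ℝ)) ^ (1 + ε)))
    (by rw [eval_C]; exact hd₀) (fun i => by rw [eval_C]; exact hd i) (fun T => by
      have e1 : (C d₀ * ∏ i ∈ T, C (d i) : ℤ[X]).eval 0 = d₀ * ∏ i ∈ T, d i := by
        rw [eval_mul, eval_C, eval_prod]
        simp only [eval_C]
      rw [e1]
      have e2 : (d₀ * ∏ i ∈ T, d i) ≠ 0 := mul_ne_zero hd₀ (prod_ne_zero_iff.2 fun i _ => hd i)
      have e3 := bd_MM hε ha hb hab e2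
      refine ⟨e3.1, e3.2.trans (Real.sqrt_le_sqrt ?_)⟩
      refine mul_le_mul hK ?_ (by positivity) ((MM_nonneg ε _).trans hK)
      refine Real.rpow_le_rpow (by positivity) ?_ (by linarith)
      rw [Int.natAbs_mul]
      push_cast
      have e4 : (d₀ * ∏ i ∈ T, d i) ∣ (d₀ * ∏ i, d i) :=
        mul_dvd_mul_left _ (prod_dvd_prod_of_subset _ _ _ (subset_univ T))
      have e5 := Nat.le_of_dvd (Int.natAbs_pos.2 hprod) (Int.natAbs_dvd_natAbs.2 e4)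
      have e6 : ((d₀ * ∏ i ∈ T, d i).natAbs : ℝ) ≤ ((d₀ * ∏ i, d i).natAbs : ℝ) := by
        exact_mod_cast e5
      simpa using e6) F (by simpa only [eval_C] using hF)
  rw [Fintype.card_finset, Fintype.card_fin] at h
  simpa only [eval_C] using h

open Classical in
/-- **the growth around typical curves of short squares** -/
theorem growthSq (L : ℕ) (ε η : ℝ) (hε : 0 < ε) (hη : 0 < η) :
    ∃ K : ℝ, 0 < K ∧ ∀ (N₁ N₂ : ℤ) (X : ℕ), 1 ≤ X → |N₁| ≤ (X : ℤ) ^ L → |N₂| ≤ (X : ℤ) ^ L →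
      (((Sq N₁ N₂ X).filter (fun t => ¬ ∀ t' ∈ Sq N₁ N₂ X, ∀ (d₀ : ℤ) (s : ℕ) (d : Fin s → ℤ),
        d₀ ≠ 0 → (∀ i, d i ≠ 0) → ∀ (F : Type) [Field F] [NumberField F], Gen F d →
          BddAbove {q | HasDiv (EF (d₀ ^ 2 * SA t'.1 t'.2) (d₀ ^ 3 * SB t'.1 t'.2) F) q} ∧
          (2 : ℝ) ^ (rk (EF (d₀ ^ 2 * SA t'.1 t'.2) (d₀ ^ 3 * SB t'.1 t'.2) F) +
            crk (EF (d₀ ^ 2 * SA t'.1 t'.2) (d₀ ^ 3 * SB t'.1 t'.2) F)) ≤
          (K * (1 + (dd t t' : ℝ)) * ((d₀ * ∏ i, d i).natAbs : ℝ) ^ (1 / 2 + ε)) ^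
            (2 ^ s))).card : ℝ) ≤ η * (X : ℝ) ^ 2 := by
  obtain ⟨M, hM, h⟩ := growthMM L (2 * ε) η (by positivity) hη
  refine ⟨Real.sqrt (M * 9 ^ (1 + 2 * ε)), by positivity, fun N₁ N₂ X hX h1 h2 => ?_⟩
  refine le_trans (Nat.cast_le.2 (card_le_card ?_)) (h N₁ N₂ X hX h1 h2)
  intro t ht
  rw [mem_filter] at ht ⊢
  refine ⟨ht.1, fun hall => ht.2 fun t' ht' d₀ s d hd₀ hd F _ _ hF => ?_⟩
  have h3 := hall t' ht'
  obtain ⟨_, e1, e2, e3⟩ := mem_Sq.1 ht'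
  have h4 := field_MM (ε := 2 * ε) (by positivity) e1 e2 e3 hd₀ hd h3 F hF
  have h5 : Real.sqrt (M * (1 + (dd t t' : ℝ)) ^ 2 *
      (9 * ((d₀ * ∏ i, d i).natAbs : ℝ)) ^ (1 + 2 * ε)) =
      Real.sqrt (M * 9 ^ (1 + 2 * ε)) * (1 + (dd t t' : ℝ)) *
        ((d₀ * ∏ i, d i).natAbs : ℝ) ^ (1 / 2 + ε) := by
    have e4 : (0 : ℝ) ≤ ((d₀ * ∏ i, d i).natAbs : ℝ) := Nat.cast_nonneg _
    rw [Real.mul_rpow (by norm_num) e4]
    have e5 : (((d₀ * ∏ i, d i).natAbs : ℝ)) ^ (1 + 2 * ε) =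
        ((((d₀ * ∏ i, d i).natAbs : ℝ)) ^ (1 / 2 + ε)) ^ 2 := by
      rw [← Real.rpow_natCast, ← Real.rpow_mul e4]
      congr 1
      push_cast
      ring
    rw [e5]
    rw [show M * (1 + (dd t t' : ℝ)) ^ 2 *
      (9 ^ (1 + 2 * ε) * ((((d₀ * ∏ i, d i).natAbs : ℝ)) ^ (1 / 2 + ε)) ^ 2) =
      (M * 9 ^ (1 + 2 * ε)) * ((1 + (dd t t' : ℝ)) *
        (((d₀ * ∏ i, d i).natAbs : ℝ)) ^ (1 / 2 + ε)) ^ 2 by ring]
    rw [Real.sqrt_mul (by positivity), Real.sqrt_sq (by positivity)]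
    ring
  rw [h5] at h4
  exact h4

end Pool.Agent.TH779.BS
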