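import Mathlib
import Pool.Agent.TH779.BS.PenC

/-!
# Pencils of elliptic curves over varying multiquadratic fields, near the primes
-/

set_option autoImplicit false

namespace Pool.Agent.TH779.BS

open Finset Polynomial

open Pool.Agent.TH841.TR (UP Bal fp penF_aux)

open Pool.Agent.TH841.PT (Irr prod_ndvd)

open Pool.Agent.W307.SE (SN SN_nonneg)

open Pool.Agent.TH841.NF (EF Gen)

open Pool.Agent.TH841.NF.D (HasDiv crk rk)

/-- from the twists over `ℚ` to the field -/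
theorem field_ofP {n : Fin 3 → ℕ} {a : Fin 3 → ℤ} {f : ∀ k : Fin 3, Fin (n k) → ℤ[X]}
    (hU : UP a f 0 - UP a f 1 = UP a f 2) {s : ℕ} {D₀ : ℤ[X]} {D : Fin s → ℤ[X]}
    {A B e1 e2 e3 : ℤ[X]}
    (he : ∀ t x : ℤ, x ^ 3 + A.eval t * x + B.eval t =
      (x - e1.eval t) * (x - e2.eval t) * (x - e3.eval t))
    (h12 : e2 - e1 = D₀ * UP a f 0) (h13 : e3 - e1 = D₀ * UP a f 1) {t : ℤ} {R : ℝ}
    (h0 : ∀ k, (D₀ * UP a f k).eval t ≠ 0) (hD : ∀ i, (D i).eval t ≠ 0)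
    (h : ∀ T : Finset (Fin s), SN (((D₀ * ∏ i ∈ T, D i) * UP a f 0).eval t)
      (((D₀ * ∏ i ∈ T, D i) * UP a f 1).eval t) ≤ R)
    (F : Type) [Field F] [NumberField F] (hF : Gen F (fun i => (D i).eval t)) :
    BddAbove {q | HasDiv (EF (A.eval t) (B.eval t) F) q} ∧
      (2 : ℝ) ^ (rk (EF (A.eval t) (B.eval t) F) + crk (EF (A.eval t) (B.eval t) F)) ≤
        R ^ (2 ^ s) := by
  obtain ⟨h1, h2, -⟩ := penF_aux a f hU s D₀ D A B e1 e2 e3 he h12 h13 {t}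
    (fun t' ht' => by
      rw [mem_singleton] at ht'
      subst ht'
      exact ⟨h0, hD⟩) R (fun T => by
      rw [sum_singleton]
      exact h T) (fun _ => F) (fun t' ht' => by
      rw [mem_singleton] at ht'
      subst ht'
      exact hF) (fun t' => EF (A.eval t') (B.eval t') F) (fun _ => rfl)
  refine ⟨h1 t (mem_singleton_self _), ?_⟩
  rw [sum_singleton] at h2
  set x : ℝ := (2 : ℝ) ^ (rk (EF (A.eval t) (B.eval t) F) +
    crk (EF (A.eval t) (B.eval t) F)) with hx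
  have hx0 : 0 ≤ x := by positivity
  have h3 : (x ^ ((1 : ℝ) / 2 ^ s)) ^ (2 ^ s) = x := by
    rw [← Real.rpow_natCast, ← Real.rpow_mul hx0]
    have h4 : (1 : ℝ) / 2 ^ s * ((2 ^ s : ℕ) : ℝ) = 1 := by
      push_cast
      field_simp
    rw [h4, Real.rpow_one]
  rw [← h3]
  exact pow_le_pow_left₀ (Real.rpow_nonneg hx0 _) h2 _

/-- a one-parameter family of elliptic curves `y² = x³ + A x + B` over the varying fields generated
by the square roots of the values of the polynomials `D i` -/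
structure IsFam {n : Fin 3 → ℕ} (a : Fin 3 → ℤ) (f : ∀ k : Fin 3, Fin (n k) → ℤ[X]) {s : ℕ}
    (D₀ : ℤ[X]) (D : Fin s → ℤ[X]) (A B e1 e2 e3 : ℤ[X]) : Prop where
  ha : ∀ k, a k ≠ 0
  hf : Irr (fp f)
  hU : UP a f 0 - UP a f 1 = UP a f 2
  hDf₀ : ∀ k i, ¬ f k i ∣ D₀
  hDf : ∀ l k i, ¬ f k i ∣ D l
  hB : ∀ T : Finset (Fin s), Bal (D₀ * ∏ i ∈ T, D i) a f
  sm : ∀ (t : ℤ) (k : Fin 3), (D₀ * UP a f k).eval t ≠ 0
  smD : ∀ (t : ℤ) (i : Fin s), (D i).eval t ≠ 0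
  he : ∀ t x : ℤ, x ^ 3 + A.eval t * x + B.eval t =
      (x - e1.eval t) * (x - e2.eval t) * (x - e3.eval t)
  h12 : e2 - e1 = D₀ * UP a f 0
  h13 : e3 - e1 = D₀ * UP a f 1

section

variable {n : Fin 3 → ℕ} {a : Fin 3 → ℤ} {f : ∀ k : Fin 3, Fin (n k) → ℤ[X]} {s : ℕ}
  {D₀ : ℤ[X]} {D : Fin s → ℤ[X]} {A B e1 e2 e3 : ℤ[X]}

lemma IsFam.pen (h : IsFam a f D₀ D A B e1 e2 e3) (T : Finset (Fin s)) :
    IsPen a f (D₀ * ∏ i ∈ T, D i) := by
  have hD₀ : ∀ t : ℤ, D₀.eval t ≠ 0 := by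
    intro t h0
    apply h.sm t 0
    rw [eval_mul, h0, zero_mul]
  have hne : D₀ * ∏ i ∈ T, D i ≠ 0 := by
    intro h0
    have h1 := congrArg (Polynomial.eval 0) h0
    rw [eval_mul, eval_prod, eval_zero] at h1
    rcases mul_eq_zero.1 h1 with h2 | h2
    · exact hD₀ 0 h2
    · obtain ⟨i, _, hi⟩ := prod_eq_zero_iff.1 h2
      exact h.smD 0 i hi
  refine ⟨h.ha, h.hf, h.hU, hne, fun k i => prod_ndvd (h.hf.irr ⟨k, i⟩) (h.hDf₀ k i)
    (fun l => h.hDf l k i) T, h.hB T, fun t k h0 => ?_⟩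
  rw [eval_mul, eval_mul, eval_prod] at h0
  have h3 := h.sm t k
  rw [eval_mul] at h3
  rcases mul_eq_zero.1 h0 with h4 | h4
  · rcases mul_eq_zero.1 h4 with h5 | h5
    · exact left_ne_zero_of_mul h3 h5
    · obtain ⟨i, _, hi⟩ := prod_eq_zero_iff.1 h5
      exact h.smD t i hi
  · exact right_ne_zero_of_mul h3 h4

end

open Classical in
/-- **primes in short intervals, families over varying fields** -/
theorem shortPF : ∃ δ η : ℝ, 0 < δ ∧ δ < 1 ∧ 0 < η ∧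
    ∀ {n : Fin 3 → ℕ} {a : Fin 3 → ℤ} {f : ∀ k : Fin 3, Fin (n k) → ℤ[X]} {s : ℕ}
      {D₀ : ℤ[X]} {D : Fin s → ℤ[X]} {A B e1 e2 e3 : ℤ[X]},
      IsFam a f D₀ D A B e1 e2 e3 → ∀ b : ℕ,
      ∃ R : ℝ, ∃ x₀ : ℕ, ∀ x y : ℕ, x₀ ≤ x → (x : ℝ) ^ (1 - δ) ≤ y → y ≤ x →
        η * (y / Real.log x) ≤ (((Ioc x (x + y)).filter (fun p : ℕ => p.Prime ∧
          ∀ t : ℤ, |t - p| ≤ b → ∀ (F : Type) [Field F] [NumberField F],
            Gen F (fun i => (D i).eval t) →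
              BddAbove {q | HasDiv (EF (A.eval t) (B.eval t) F) q} ∧
              (2 : ℝ) ^ (rk (EF (A.eval t) (B.eval t) F) + crk (EF (A.eval t) (B.eval t) F)) ≤
                R)).card : ℝ) := by
  obtain ⟨δ, η, hδ, hδ1, hη, H⟩ := shortP
  refine ⟨δ, η, hδ, hδ1, hη, fun {n} {a} {f} {s} {D₀} {D} {A} {B} {e1} {e2} {e3} hF b => ?_⟩
  obtain ⟨R, x₀, hR⟩ := H (ι := Finset (Fin s)) (n := fun _ => n) (a := fun _ => a)
    (f := fun _ => f) (D := fun T => D₀ * ∏ i ∈ T, D i) (fun T => hF.pen T) b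
  refine ⟨R ^ (2 ^ s), x₀, fun x y hx hxy hyx => (hR x y hx hxy hyx).trans ?_⟩
  have hsub : (Ioc x (x + y)).filter (fun p : ℕ => p.Prime ∧
      ∀ t : ℤ, |t - p| ≤ b → ∀ T : Finset (Fin s),
        SN (((D₀ * ∏ i ∈ T, D i) * UP a f 0).eval t)
          (((D₀ * ∏ i ∈ T, D i) * UP a f 1).eval t) ≤ R) ⊆
      (Ioc x (x + y)).filter (fun p : ℕ => p.Prime ∧
          ∀ t : ℤ, |t - p| ≤ b → ∀ (F : Type) [Field F] [NumberField F],
            Gen F (fun i => (D i).eval t) →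
              BddAbove {q | HasDiv (EF (A.eval t) (B.eval t) F) q} ∧
              (2 : ℝ) ^ (rk (EF (A.eval t) (B.eval t) F) + crk (EF (A.eval t) (B.eval t) F)) ≤
                R ^ (2 ^ s)) := by
    intro p hp
    rw [mem_filter] at hp ⊢
    refine ⟨hp.1, hp.2.1, fun t ht F _ _ hFF => ?_⟩
    exact field_ofP hF.hU hF.he hF.h12 hF.h13 (hF.sm t) (hF.smD t) (hp.2.2 t ht) F hFF
  exact_mod_cast card_le_card hsub

open Classical in
/-- **clusters of primes, families over varying fields** -/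
theorem clustersPF (m : ℕ) : ∃ K : ℕ, ∀ H : Finset ℕ, K ≤ H.card → Admis H →
    ∃ c : ℝ, 0 < c ∧ ∀ {n : Fin 3 → ℕ} {a : Fin 3 → ℤ} {f : ∀ k : Fin 3, Fin (n k) → ℤ[X]}
      {s : ℕ} {D₀ : ℤ[X]} {D : Fin s → ℤ[X]} {A B e1 e2 e3 : ℤ[X]},
      IsFam a f D₀ D A B e1 e2 e3 → ∀ b : ℕ,
      ∃ R : ℝ, ∃ x₀ : ℕ, ∀ x : ℕ, x₀ ≤ x →
        c * (x / (Real.log x) ^ K) ≤ (((Ioc x (2 * x)).filter (fun n : ℕ =>
          m ≤ (H.filter (fun h => (n + h).Prime)).card ∧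
          ∀ t : ℤ, |t - n| ≤ b → ∀ (F : Type) [Field F] [NumberField F],
            Gen F (fun i => (D i).eval t) →
              BddAbove {q | HasDiv (EF (A.eval t) (B.eval t) F) q} ∧
              (2 : ℝ) ^ (rk (EF (A.eval t) (B.eval t) F) + crk (EF (A.eval t) (B.eval t) F)) ≤
                R)).card : ℝ) := by
  obtain ⟨K, hK⟩ := clustersP m
  refine ⟨K, fun H hH hadm => ?_⟩
  obtain ⟨c, hc, h⟩ := hK H hH hadm
  refine ⟨c, hc, fun {n} {a} {f} {s} {D₀} {D} {A} {B} {e1} {e2} {e3} hF b => ?_⟩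
  obtain ⟨R, x₀, hR⟩ := h (ι := Finset (Fin s)) (n := fun _ => n) (a := fun _ => a)
    (f := fun _ => f) (D := fun T => D₀ * ∏ i ∈ T, D i) (fun T => hF.pen T) b
  refine ⟨R ^ (2 ^ s), x₀, fun x hx => (hR x hx).trans ?_⟩
  have hsub : (Ioc x (2 * x)).filter (fun n : ℕ =>
      m ≤ (H.filter (fun h => (n + h).Prime)).card ∧
      ∀ t : ℤ, |t - n| ≤ b → ∀ T : Finset (Fin s),
        SN (((D₀ * ∏ i ∈ T, D i) * UP a f 0).eval t)
          (((D₀ * ∏ i ∈ T, D i) * UP a f 1).eval t) ≤ R) ⊆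
      (Ioc x (2 * x)).filter (fun n : ℕ =>
          m ≤ (H.filter (fun h => (n + h).Prime)).card ∧
          ∀ t : ℤ, |t - n| ≤ b → ∀ (F : Type) [Field F] [NumberField F],
            Gen F (fun i => (D i).eval t) →
              BddAbove {q | HasDiv (EF (A.eval t) (B.eval t) F) q} ∧
              (2 : ℝ) ^ (rk (EF (A.eval t) (B.eval t) F) + crk (EF (A.eval t) (B.eval t) F)) ≤
                R ^ (2 ^ s)) := by
    intro p hp
    rw [mem_filter] at hp ⊢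
    refine ⟨hp.1, hp.2.1, fun t ht F _ _ hFF => ?_⟩
    exact field_ofP hF.hU hF.he hF.h12 hF.h13 (hF.sm t) (hF.smD t) (hp.2.2 t ht) F hFF
  exact_mod_cast card_le_card hsub

end Pool.Agent.TH779.BS
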