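import Mathlib
import Pool.Agent.TH779.BS.Main
import Pool.Agent.H295R3.Hoheisel

/-!
# Primes in all short intervals at which the twists of elliptic curves are bounded
-/

set_option autoImplicit false

namespace Pool.Agent.TH779.BS

open Finset Polynomial

open Pool.Agent.TH841.PT

open Pool.Agent.TH841.SH (Bd)

open Classical in
/-- **primes in short intervals with bounded twists** -/
theorem short : ∃ δ η : ℝ, 0 < δ ∧ δ < 1 ∧ 0 < η ∧
    ∀ {ι : Type} [Fintype ι] (A B e₁ e₂ e₃ : ι → ℤ),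
      (∀ i, 4 * A i ^ 3 + 27 * B i ^ 2 ≠ 0) →
      (∀ i, ∀ x : ℤ, x ^ 3 + A i * x + B i = (x - e₁ i) * (x - e₂ i) * (x - e₃ i)) →
      ∀ D : ι → ℤ[X], (∀ i, D i ≠ 0) → ∀ b : ℕ,
      ∃ R : ℝ, ∃ x₀ : ℕ, ∀ x y : ℕ, x₀ ≤ x → (x : ℝ) ^ (1 - δ) ≤ y → y ≤ x →
        η * (y / Real.log x) ≤ (((Ioc x (x + y)).filter (fun p : ℕ => p.Prime ∧
          ∀ t : ℤ, |t - p| ≤ b → ∀ i, (D i).eval t ≠ 0 ∧
            Bd (TwQ (A i) (B i) ((D i).eval t)) R)).card : ℝ) := by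
  obtain ⟨δ, η, hδ, hδ1, hη, X₀, hX₀, hH⟩ := Pool.Agent.H295R3.D.hoheisel
  refine ⟨δ, η / 2, hδ, hδ1, by positivity, fun {ι} _ A B e₁ e₂ e₃ hE he D hD b => ?_⟩
  have hδ2 : 0 < 1 - δ := by linarith
  set L : ℕ := ⌈1 / (1 - δ)⌉₊ with hL
  obtain ⟨R, y₀, hR⟩ := few_bad_win A B e₁ e₂ e₃ hE he D hD b {0} 1 L (η * (1 - δ) / 2)
    (by positivity)
  -- the size of `y`
  have hev : ∃ x1 : ℕ, ∀ x : ℕ, x1 ≤ x → (y₀ : ℝ) + 2 ≤ (x : ℝ) ^ (1 - δ) := by
    have h1 : Filter.Tendsto (fun x : ℕ => (x : ℝ) ^ (1 - δ)) Filter.atTop Filter.atTop :=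
      (tendsto_rpow_atTop hδ2).comp tendsto_natCast_atTop_atTop
    obtain ⟨x1, hx1⟩ := Filter.eventually_atTop.1 (h1.eventually_ge_atTop ((y₀ : ℝ) + 2))
    exact ⟨x1, hx1⟩
  obtain ⟨x1, hx1⟩ := hev
  refine ⟨R, max (max X₀ x1) 3, fun x y hx hxy hyx => ?_⟩
  have hxa : X₀ ≤ x := by omega
  have hxb : x1 ≤ x := by omega
  have hxc : 3 ≤ x := by omega
  have hx0 : (0 : ℝ) < x := by exact_mod_cast (by omega : 0 < x)
  have hx1' : (1 : ℝ) < x := by exact_mod_cast (by omega : 1 < x)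
  have hlx : 0 < Real.log x := Real.log_pos hx1'
  have hyr : (y₀ : ℝ) + 2 ≤ y := (hx1 x hxb).trans hxy
  have hy2 : y₀ + 2 ≤ y := by exact_mod_cast hyr
  have hy0 : (0 : ℝ) < y := by exact_mod_cast (by omega : 0 < y)
  have hly : (1 - δ) * Real.log x ≤ Real.log y := by
    have h1 := Real.log_le_log (by positivity) hxy
    rwa [Real.log_rpow hx0] at h1
  have hxL : x ≤ y ^ L := by
    have h1 : (x : ℝ) ≤ (y : ℝ) ^ (L : ℝ) := by
      calc (x : ℝ) = ((x : ℝ) ^ (1 - δ)) ^ (1 / (1 - δ)) := by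
            rw [← Real.rpow_mul hx0.le, mul_one_div_cancel hδ2.ne', Real.rpow_one]
        _ ≤ (y : ℝ) ^ (1 / (1 - δ)) := Real.rpow_le_rpow (by positivity) hxy (by positivity)
        _ ≤ (y : ℝ) ^ (L : ℝ) := Real.rpow_le_rpow_of_exponent_le
            (by exact_mod_cast (by omega : 1 ≤ y)) (Nat.le_ceil _)
    rw [Real.rpow_natCast] at h1
    exact_mod_cast h1
  set S : Finset ℕ := (Ioc x (x + y)).filter Nat.Prime with hS
  have hSc := hH x y hxa hxy hyx
  have hbad := hR x y (by omega) hyx hxL S (filter_subset _ _) (fun n hn p hp hpy h hh => by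
    rw [mem_singleton] at hh
    subst hh
    rw [hS, mem_filter, mem_Ioc] at hn
    rw [pow_one] at hpy
    intro hd
    rw [Nat.add_zero] at hd
    have := (Nat.prime_dvd_prime_iff_eq hp hn.2).1 hd
    omega)
  rw [card_singleton, pow_one] at hbad
  set Bad := S.filter (fun n : ℕ => ¬ ∀ t : ℤ, |t - n| ≤ b → ∀ i, (D i).eval t ≠ 0 ∧
        Bd (TwQ (A i) (B i) ((D i).eval t)) R) with hBad
  have hbad2 : (Bad.card : ℝ) ≤ η / 2 * (y / Real.log x) := by
    refine hbad.trans ?_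
    have h1 : y / Real.log y ≤ y / ((1 - δ) * Real.log x) :=
      div_le_div_of_nonneg_left hy0.le (by positivity) hly
    calc η * (1 - δ) / 2 * (y / Real.log y) ≤ η * (1 - δ) / 2 * (y / ((1 - δ) * Real.log x)) :=
          mul_le_mul_of_nonneg_left h1 (by positivity)
      _ = η / 2 * (y / Real.log x) := by
          field_simp
  have hsub : S \ Bad ⊆ (Ioc x (x + y)).filter (fun p : ℕ => p.Prime ∧
      ∀ t : ℤ, |t - p| ≤ b → ∀ i, (D i).eval t ≠ 0 ∧
        Bd (TwQ (A i) (B i) ((D i).eval t)) R) := by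
    intro n hn
    rw [mem_sdiff] at hn
    obtain ⟨hnS, hnb⟩ := hn
    have hnS' := mem_filter.1 hnS
    rw [mem_filter]
    refine ⟨hnS'.1, hnS'.2, ?_⟩
    by_contra hcon
    exact hnb (mem_filter.2 ⟨hnS, hcon⟩)
  have hfin : (S.card : ℝ) ≤ ((S \ Bad).card : ℝ) + (Bad.card : ℝ) := by
    have h1 : S.card ≤ (S \ Bad).card + Bad.card := by
      have h2 : S ⊆ (S \ Bad) ∪ Bad := by
        intro n hn
        rw [mem_union, mem_sdiff]
        by_cases h : n ∈ Bad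
        · exact Or.inr h
        · exact Or.inl ⟨hn, h⟩
      exact (card_le_card h2).trans (card_union_le _ _)
    exact_mod_cast h1
  have hcs := (Nat.cast_le (α := ℝ)).2 (card_le_card hsub)
  refine le_trans ?_ hcs
  have h3 : η * y / Real.log x = η / 2 * (y / Real.log x) + η / 2 * (y / Real.log x) := by ring
  linarith

end Pool.Agent.TH779.BS
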