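import Mathlib
import Pool.Agent.TH464.PO.MaxW
import Pool.Agent.TH779.BS.Tail

/-!
# The growth of the ranks of the twists around typical integers
-/

set_option autoImplicit false

namespace Pool.Agent.TH779.BS

open Polynomial Finset Filter
open Pool.Agent.TH464.PO

open Pool.Agent.TH841.PT (Irr TwQ)

open Pool.Agent.W307.SE (SelR)

open Pool.Agent.TH841.SH (Bd)

open Classical in
/-- **the growth around typical integers** -/
theorem growth {ι : Type} [Fintype ι] (A B e₁ e₂ e₃ : ι → ℤ)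
    (hE : ∀ i, 4 * A i ^ 3 + 27 * B i ^ 2 ≠ 0)
    (he : ∀ i, ∀ x : ℤ, x ^ 3 + A i * x + B i = (x - e₁ i) * (x - e₂ i) * (x - e₃ i))
    (D : ι → ℤ[X]) (hD : ∀ i, D i ≠ 0) (θ δ ε : ℝ) (hθ : 0 < θ) (hδ : 0 < δ) (hε : 0 < ε) :
    ∃ C : ℝ, 0 ≤ C ∧ ∀ᶠ N : ℕ in atTop, ∀ Y : ℕ, (N : ℝ) ^ θ ≤ Y → Y ≤ N →
      (((Ioc N (N + Y)).filter (fun n : ℕ => ¬ ∀ t : ℕ, N < t → t ≤ N + Y → ∀ i,
        (D i).eval (t : ℤ) ≠ 0 ∧ Bd (TwQ (A i) (B i) ((D i).eval (t : ℤ)))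
          (C * (1 + |(t : ℝ) - n|) ^ δ))).card : ℝ) ≤ ε * Y := by
  set L : ℕ := ⌈1 / θ⌉₊ with hL
  set s : ℕ := ⌈1 / δ⌉₊ with hs
  have hs1 : 1 / δ ≤ s := Nat.le_ceil _
  have hs0 : (0 : ℝ) < s := lt_of_lt_of_le (by positivity) hs1
  have hsne : s ≠ 0 := by
    intro h
    rw [h] at hs0
    norm_num at hs0
  have hsδ : 1 / (s : ℝ) ≤ δ := by
    rw [div_le_iff₀ hs0]
    rw [div_le_iff₀ hδ] at hs1
    linarith
  have hG : Irr (fun i : Fin 0 => (i.elim0 : ℤ[X])) :=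
    ⟨fun i => i.elim0, fun i => i.elim0, fun i => i.elim0⟩
  choose Cf hCf0 hCf using fun i => mom_rough hG (hE i) (he i) (D i) (hD i) s 1 L
  choose rt hrt using fun i => no_root (D i) (hD i)
  set w : ℕ → ℝ := fun n => ∑ i, ((SelR (((D i).eval (n : ℤ)) ^ 2 * A i)
    (((D i).eval (n : ℤ)) ^ 3 * B i)).ncard : ℝ) ^ s with hw
  have hw0 : ∀ m, 0 ≤ w m := fun m => sum_nonneg fun y _ => by positivity
  set C1 : ℝ := ∑ i, Cf i with hC1
  have hC10 : 0 ≤ C1 := sum_nonneg fun i _ => hCf0 i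
  set τ : ℝ := 4 * C1 / ε + 1 with hτ
  have hτ0 : 0 < τ := by positivity
  refine ⟨τ ^ (1 / (s : ℝ)), by positivity, ?_⟩
  have hlim : Tendsto (fun x : ℕ => (x : ℝ) ^ θ) atTop atTop :=
    (tendsto_rpow_atTop hθ).comp tendsto_natCast_atTop_atTop
  filter_upwards [hlim.eventually_ge_atTop (2 : ℝ), eventually_ge_atTop (univ.sup rt + 1)]
    with N hN hNrt
  intro Y hNY hYN
  have hY2 : 2 ≤ Y := by exact_mod_cast hN.trans hNY
  have hY1 : (1 : ℝ) ≤ Y := by exact_mod_cast (by omega : 1 ≤ Y)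
  have hNL : N ≤ Y ^ L := by
    have h1 : (N : ℝ) ≤ (Y : ℝ) ^ (L : ℝ) := by
      calc (N : ℝ) = ((N : ℝ) ^ θ) ^ (1 / θ) := by
            rw [← Real.rpow_mul (Nat.cast_nonneg _), mul_one_div_cancel hθ.ne', Real.rpow_one]
        _ ≤ (Y : ℝ) ^ (1 / θ) := Real.rpow_le_rpow (by positivity) hNY (by positivity)
        _ ≤ (Y : ℝ) ^ (L : ℝ) := Real.rpow_le_rpow_of_exponent_le hY1 (Nat.le_ceil _)
    rw [Real.rpow_natCast] at h1
    exact_mod_cast h1
  have hne : ∀ t ∈ Ioc N (N + Y), ∀ i, (D i).eval (t : ℤ) ≠ 0 := by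
    intro t ht i
    refine hrt i t ?_
    have h1 : rt i ≤ univ.sup rt := Finset.le_sup (f := rt) (mem_univ i)
    have h2 := (mem_Ioc.1 ht).1
    omega
  have htot : ∑ t ∈ Ioc N (N + Y), w t ≤ C1 * Y := by
    rw [hw, sum_comm, sum_mul]
    refine sum_le_sum fun i _ => ?_
    have h1 := hCf i N Y hY2 hNL (Ioc N (N + Y)) (Subset.refl _)
      (fun n hn => ⟨hne n hn i, fun _ _ _ j => j.elim0⟩)
    rwa [pow_zero, div_one] at h1
  have hico : ∀ u v : ℕ, Ico (u + 1) (v + 1) = Ioc u v := by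
    intro u v
    ext m
    rw [mem_Ico, mem_Ioc]
    omega
  have hmx := max_both w hw0 τ hτ0 (N + 1) (N + Y + 1) (by omega)
  rw [hico] at hmx
  have hmx2 : ((MX w τ (N + 1) (N + Y + 1)).card : ℝ) ≤ ε * Y := by
    have h3 : τ * ((MX w τ (N + 1) (N + Y + 1)).card : ℝ) ≤ τ * (ε * Y) := by
      refine hmx.trans ?_
      have h4 : 4 * C1 ≤ τ * ε := by
        rw [hτ]
        have : (4 * C1 / ε + 1) * ε = 4 * C1 + ε := by field_simp
        rw [this]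
        linarith
      calc 4 * ∑ m ∈ Ioc N (N + Y), w m ≤ 4 * (C1 * Y) :=
            mul_le_mul_of_nonneg_left htot (by norm_num)
        _ = 4 * C1 * Y := by ring
        _ ≤ τ * ε * Y := mul_le_mul_of_nonneg_right h4 (by linarith)
        _ = _ := by ring
    exact le_of_mul_le_mul_left h3 hτ0
  suffices hsub : (Ioc N (N + Y)).filter (fun n : ℕ => ¬ ∀ t : ℕ, N < t → t ≤ N + Y → ∀ i,
        (D i).eval (t : ℤ) ≠ 0 ∧ Bd (TwQ (A i) (B i) ((D i).eval (t : ℤ)))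
          (τ ^ (1 / (s : ℝ)) * (1 + |(t : ℝ) - n|) ^ δ)) ⊆ MX w τ (N + 1) (N + Y + 1) from
    ((Nat.cast_le (α := ℝ)).2 (card_le_card hsub)).trans hmx2
  intro n hn
  rw [mem_filter, mem_Ioc] at hn
  obtain ⟨hnI, hnb⟩ := hn
  by_contra hcon
  apply hnb
  intro t ht1 ht2 i
  have ht : t ∈ Ioc N (N + Y) := mem_Ioc.2 ⟨ht1, ht2⟩
  refine ⟨hne t ht i, ?_⟩
  -- the window between `n` and `t`
  have hwin : ∑ m ∈ Ico (min n t) (max n t + 1), w m ≤ τ * (1 + |(t : ℝ) - n|) := by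
    by_contra h
    rw [not_le] at h
    apply hcon
    unfold MX
    refine mem_filter.2 ⟨mem_Ico.2 (by omega), min n t, max n t + 1, by omega, by omega,
      by omega, by omega, ?_⟩
    refine lt_of_le_of_lt (le_of_eq ?_) h
    push_cast
    rcases le_total n t with h5 | h5
    · have h6 : (n : ℝ) ≤ t := by exact_mod_cast h5
      rw [max_eq_right h6, min_eq_left h6, abs_of_nonneg (by linarith)]
      ring
    · have h6 : (t : ℝ) ≤ n := by exact_mod_cast h5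
      rw [max_eq_left h6, min_eq_right h6, abs_of_nonpos (by linarith)]
      ring
  have hwt : w t ≤ τ * (1 + |(t : ℝ) - n|) :=
    (single_le_sum (f := w) (fun m _ => hw0 m) (mem_Ico.2 (by omega))).trans hwin
  set S : ℝ := ((SelR (((D i).eval (t : ℤ)) ^ 2 * A i)
    (((D i).eval (t : ℤ)) ^ 3 * B i)).ncard : ℝ) with hS
  have hS0 : 0 ≤ S := Nat.cast_nonneg _
  have hSs : S ^ s ≤ τ * (1 + |(t : ℝ) - n|) := by
    refine le_trans ?_ hwt
    exact single_le_sum (f := fun i => ((SelR (((D i).eval (t : ℤ)) ^ 2 * A i)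
      (((D i).eval (t : ℤ)) ^ 3 * B i)).ncard : ℝ) ^ s) (fun y _ => by positivity) (mem_univ i)
  have hab : (0 : ℝ) ≤ |(t : ℝ) - n| := abs_nonneg _
  have hSle : S ≤ τ ^ (1 / (s : ℝ)) * (1 + |(t : ℝ) - n|) ^ δ := by
    calc S = (S ^ s) ^ (1 / (s : ℝ)) := by
          rw [← Real.rpow_natCast, ← Real.rpow_mul hS0, mul_one_div_cancel hs0.ne', Real.rpow_one]
      _ ≤ (τ * (1 + |(t : ℝ) - n|)) ^ (1 / (s : ℝ)) :=
          Real.rpow_le_rpow (by positivity) hSs (by positivity)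
      _ = τ ^ (1 / (s : ℝ)) * (1 + |(t : ℝ) - n|) ^ (1 / (s : ℝ)) :=
          Real.mul_rpow hτ0.le (by positivity)
      _ ≤ _ := mul_le_mul_of_nonneg_left
          (Real.rpow_le_rpow_of_exponent_le (by linarith) hsδ) (by positivity)
  have h9 : Bd (TwQ (A i) (B i) ((D i).eval (t : ℤ))) S :=
    Pool.Agent.TH841.SH.bd_selR (Pool.Agent.TH639.SL.disc_tw (hne t ht i) (hE i))
      (Pool.Agent.TH639.SL.roots_tw (he i) _)
      (Pool.Agent.TH639.SL.sel_tw (hE i) (he i) (hne t ht i)).1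
  exact ⟨h9.1, h9.2.trans hSle⟩

end Pool.Agent.TH779.BS
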