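import Mathlib
import Pool.Agent.TH779.BS.Grow
import Pool.Agent.TH779.BS.Fld

/-!
# The growth of the ranks over varying fields around typical integers
-/

set_option autoImplicit false

namespace Pool.Agent.TH779.BS

open Polynomial Finset Filter

open Pool.Agent.TH841.PT (TwQ)

open Pool.Agent.TH841.SH (Bd)

open Pool.Agent.TH841.NF (EF Gen)

open Pool.Agent.TH841.NF.D (HasDiv crk rk)

open Classical in
/-- **the growth around typical integers**, varying fields -/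
theorem growthF (A B e₁ e₂ e₃ : ℤ) (hE : 4 * A ^ 3 + 27 * B ^ 2 ≠ 0)
    (he : ∀ x : ℤ, x ^ 3 + A * x + B = (x - e₁) * (x - e₂) * (x - e₃))
    (s : ℕ) (D₀ : ℤ[X]) (D : Fin s → ℤ[X]) (hD₀ : D₀ ≠ 0) (hD : ∀ i, D i ≠ 0)
    (θ δ ε : ℝ) (hθ : 0 < θ) (hδ : 0 < δ) (hε : 0 < ε) :
    ∃ C : ℝ, ∀ᶠ N : ℕ in atTop, ∀ Y : ℕ, (N : ℝ) ^ θ ≤ Y → Y ≤ N →
      (((Ioc N (N + Y)).filter (fun n : ℕ => ¬ ∀ t : ℕ, N < t → t ≤ N + Y →
        D₀.eval (t : ℤ) ≠ 0 ∧ (∀ i, (D i).eval (t : ℤ) ≠ 0) ∧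
        ∀ (F : Type) [Field F] [NumberField F], Gen F (fun i => (D i).eval (t : ℤ)) →
          BddAbove {q | HasDiv (EF (D₀.eval (t : ℤ) ^ 2 * A) (D₀.eval (t : ℤ) ^ 3 * B) F) q} ∧
          (2 : ℝ) ^ (rk (EF (D₀.eval (t : ℤ) ^ 2 * A) (D₀.eval (t : ℤ) ^ 3 * B) F) +
            crk (EF (D₀.eval (t : ℤ) ^ 2 * A) (D₀.eval (t : ℤ) ^ 3 * B) F)) ≤
            C * (1 + |(t : ℝ) - (n : ℝ)|) ^ δ)).card : ℝ) ≤ ε * Y := by
  set κ : ℕ := Fintype.card (Finset (Fin s)) with hκ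
  have hκ0 : 0 < κ := Fintype.card_pos
  have hκr : (0 : ℝ) < κ := by exact_mod_cast hκ0
  obtain ⟨C, hC0, hC⟩ := growth (ι := Finset (Fin s)) (fun _ => A) (fun _ => B) (fun _ => e₁)
    (fun _ => e₂) (fun _ => e₃) (fun _ => hE) (fun _ => he) (fun T => D₀ * ∏ i ∈ T, D i)
    (fun T => mul_ne_zero hD₀ (prod_ne_zero_iff.2 fun i _ => hD i)) θ (δ / κ) ε hθ
    (by positivity) hε
  refine ⟨C ^ κ, ?_⟩
  filter_upwards [hC] with N hN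
  intro Y hNY hYN
  refine le_trans (Nat.cast_le.2 (card_le_card ?_)) (hN Y hNY hYN)
  intro n hn
  rw [mem_filter] at hn ⊢
  refine ⟨hn.1, fun hall => hn.2 fun t ht1 ht2 => ?_⟩
  have h1 := hall t ht1 ht2
  have h2 : D₀.eval (t : ℤ) ≠ 0 := by
    have := (h1 ∅).1
    rwa [prod_empty, mul_one] at this
  have h3 : ∀ i, (D i).eval (t : ℤ) ≠ 0 := by
    intro i hi
    apply (h1 {i}).1
    rw [prod_singleton, eval_mul, hi, mul_zero]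
  have hab : (0 : ℝ) ≤ 1 + |(t : ℝ) - (n : ℝ)| := by positivity
  have hpow : (C * (1 + |(t : ℝ) - (n : ℝ)|) ^ (δ / κ)) ^ κ =
      C ^ κ * (1 + |(t : ℝ) - (n : ℝ)|) ^ δ := by
    rw [mul_pow, ← Real.rpow_natCast ((1 + |(t : ℝ) - (n : ℝ)|) ^ (δ / κ)) κ,
      ← Real.rpow_mul hab, div_mul_cancel₀ _ hκr.ne']
  refine ⟨h2, h3, fun F _ _ hF => ?_⟩
  have h4 := field_of hE he D₀ D h2 h3 (fun T => (h1 T).2) F hF
  rw [← hpow]
  exact h4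

end Pool.Agent.TH779.BS
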